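import Pool.Agent.Helper42.RD.Goals2
import Pool.Agent.Helper17.PP.Defs

/-!
# Project PP (MP_fc6b1e_nt, density theorem), part B: the number field data

Fields `K ⊆ M, K₁ ⊆ M₁` as in `RD.Tower`. `κ = F_p[X]/P`, `ξ` the class of `X`, a primitive `m`-th root of
unity. Everything is expressed by homomorphisms (functionals) `Fˣ → F_p` or `Mˣ → κ`. A `P`-functional is a
homomorphism `f : Mˣ → κ` with `f(δ x) = ξ f(x)`; an `ω`-functional is a homomorphism `g : K₁ˣ → F_p` with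
`g(σ x) = n(σ) g(x)` if `σ ε = ε^(n(σ))`.
-/

set_option autoImplicit false

namespace Pool.Agent.Helper42.PP

open NumberField Polynomial Module IsDedekindDomain Pool.Agent.Helper51.SigLeo
open Pool.Agent.Helper51.RP Pool.Agent.Helper42.RD

section basic

/-- The primes of `F` above the primes in `S`. -/
def up {K : Type} (F : Type) [Field K] [NumberField K] [Field F] [NumberField F] [Algebra K F]
    (S : Finset (HeightOneSpectrum (𝓞 K))) : Set (HeightOneSpectrum (𝓞 F)) :=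
  {w | ∃ v ∈ S, Above w v}

/-- Up to the `p`-th power of an element, `x` is congruent to `1` modulo all the primes in `Z`, and
modulo `p³` at those which divide `p`. -/
def LocS (p : ℕ) {F : Type} [Field F] [NumberField F] (Z : Set (HeightOneSpectrum (𝓞 F)))
    (x : Fˣ) : Prop :=
  ∃ y : Fˣ, ∀ w ∈ Z, w.valuation F ((x : F) * (y : F) ^ p - 1) < 1 ∧
    w.valuation F ((x : F) * (y : F) ^ p - 1) ≤ w.valuation F (p : F) ^ 3

/-- The action of an automorphism on the units. -/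
def act {K F : Type} [Field K] [Field F] [Algebra K F] (g : F ≃ₐ[K] F) : Fˣ →* Fˣ :=
  Units.map ((g : F →+* F) : F →* F)

/-- The norm on the units. -/
noncomputable def nrm (F E : Type) [Field F] [Field E] [Algebra F E] : Eˣ →* Fˣ :=
  Units.map (Algebra.norm F : E →* F)

/-- The inclusion on the units. -/
def inc (F E : Type) [Field F] [Field E] [Algebra F E] : Fˣ →* Eˣ :=
  Units.map ((algebraMap F E : F →+* E) : F →* E)

/-- The valuation modulo `p`. -/
noncomputable def ordp (p : ℕ) {F : Type} [Field F] [NumberField F]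
    (w : HeightOneSpectrum (𝓞 F)) (x : Fˣ) : ZMod p := ((ordv w (x : F) : ℤ) : ZMod p)

/-- `f` is a homomorphism. -/
def Hom {F A : Type} [Field F] [AddCommGroup A] (f : Fˣ → A) : Prop :=
  ∀ x y, f (x * y) = f x + f y

/-- `f` is a `P`-functional. -/
def IsP {p : ℕ} [Fact p.Prime] {K M : Type} [Field K] [Field M] [Algebra K M] (δ : M ≃ₐ[K] M)
    (P : (ZMod p)[X]) (f : Mˣ → AdjoinRoot P) : Prop :=
  Hom f ∧ ∀ x, f (act δ x) = AdjoinRoot.root P * f x

/-- `g` is an `ω`-functional. -/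
def IsOm (p : ℕ) (K : Type) {K₁ : Type} [Field K] [Field K₁] [Algebra K K₁] (ε : K₁)
    (g : K₁ˣ → ZMod p) : Prop :=
  Hom g ∧ ∀ (σ : K₁ ≃ₐ[K] K₁) (n : ℕ), σ ε = ε ^ n → ∀ x, g (act σ x) = n * g x

/-- The `P`-functional attached to a functional `f : Mˣ → F_p`: `x ↦ ∑_i f(δ^i x) ξ^(-i)`. -/
noncomputable def kf {p : ℕ} [Fact p.Prime] {K M : Type} [Field K] [Field M] [Algebra K M]
    (m : ℕ) (δ : M ≃ₐ[K] M) (P : (ZMod p)[X]) (f : Mˣ → ZMod p) (x : Mˣ) : AdjoinRoot P :=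
  ∑ i ∈ Finset.range m, algebraMap (ZMod p) (AdjoinRoot P) (f (act (δ ^ i) x)) *
    AdjoinRoot.root P ^ (m - i)

open Classical in
/-- The number `n(σ)` with `σ ε = ε^(n(σ))`, modulo `p`. -/
noncomputable def nsig (p : ℕ) {K K₁ : Type} [Field K] [Field K₁] [Algebra K K₁] (ε : K₁)
    (σ : K₁ ≃ₐ[K] K₁) : ZMod p :=
  if h : ∃ n : ℕ, σ ε = ε ^ n then (h.choose : ZMod p) else 0

/-- The `ω`-functional attached to a functional `f : K₁ˣ → F_p`: `x ↦ ∑_σ n(σ)⁻¹ f(σ x)`. On the elements of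
type `ω` it is equal to `[K₁ : K] f`. -/
noncomputable def wf (p : ℕ) [Fact p.Prime] (K : Type) {K₁ : Type} [Field K] [Field K₁] [Algebra K K₁]
    [FiniteDimensional K K₁] (ε : K₁) (f : K₁ˣ → ZMod p) (x : K₁ˣ) : ZMod p :=
  ∑ σ : K₁ ≃ₐ[K] K₁, (nsig p ε σ)⁻¹ * f (act σ x)

/-- The primes `v ∉ S` of `K` above which there is a prime of `F` with trivial decomposition group. -/
def Spl {K : Type} (F : Type) [Field K] [NumberField K] [Field F] [NumberField F] [Algebra K F]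
    (S : Finset (HeightOneSpectrum (𝓞 K))) : Set (HeightOneSpectrum (𝓞 K)) :=
  {v | v ∉ S ∧ ∃ W : HeightOneSpectrum (𝓞 F), Above W v ∧ FreeP K W}

/-- The modulus `p³ ∏_{v ∈ S} v`, in the field `F`. -/
noncomputable def modu (p : ℕ) {K : Type} (F : Type) [Field K] [NumberField K] [Field F] [NumberField F]
    [Algebra K F] (S : Finset (HeightOneSpectrum (𝓞 K))) : Ideal (𝓞 F) :=
  Ideal.span {(p : 𝓞 F) ^ 3} * ∏ v ∈ S, v.asIdeal.map (algebraMap (𝓞 K) (𝓞 F))

end basic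

/-- **The data.** `S` is a finite set of primes of `K` which contains the primes above `p` and those
ramified in `M₁`, such that all divisors of `M`, `K₁`, `M₁` are principal outside `S`. For `v` split in
`K₁` (the possible ramified primes of the extensions `N/K`), `Q v` is a prime of `K₁` above `v`; for `v`
split in `M₁` (the visible primes) `W v`, `w v` are primes of `M₁`, `M` above `v`, `th v` is a local
logarithm `M₁ˣ → F_p` at `W v` which kills a uniformizer `vp v ∈ K`, and `z v ∈ M₁ˣ` has the divisor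
`W v` outside `S`; `y v ∈ K₁ˣ` has the divisor `Q v` outside `S`. `u i` is a basis over `κ` of the `P`-part
of the `S`-units of `M` modulo `p`-th powers, `rho i` are `P`-functionals of local nature at `S`, dual to
it; `uw i`, `rw i` are the analogous elements and functionals for the elements of type `ω` of `K₁`. `ch j` is
a basis of the `ω`-functionals of local nature at `S` which kill the `S`-units of `K₁`. -/
structure Base (p : ℕ) [Fact p.Prime] (K M K₁ M₁ : Type) [Field K] [NumberField K] [Field M]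
    [NumberField M] [Field K₁] [NumberField K₁] [Field M₁] [NumberField M₁] [Algebra K M]
    [Algebra K K₁] [Algebra K M₁] [Algebra M M₁] [Algebra K₁ M₁] (ε : K₁) (δ : M ≃ₐ[K] M)
    (P : (ZMod p)[X]) where
  S : Finset (HeightOneSpectrum (𝓞 K))
  abp : ∀ v : HeightOneSpectrum (𝓞 K), v.valuation K (p : K) < 1 → v ∈ S
  unr : ∀ v : HeightOneSpectrum (𝓞 K), v ∉ S → ∀ W : HeightOneSpectrum (𝓞 M₁), Above W v →
    ∀ x : K, ordv W (algebraMap K M₁ x) = ordv v x
  prM : ∀ n : HeightOneSpectrum (𝓞 M) →₀ ℤ, ∃ x : Mˣ, ∀ w ∉ up M S, ordv w (x : M) = n w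
  prK : ∀ n : HeightOneSpectrum (𝓞 K₁) →₀ ℤ, ∃ x : K₁ˣ, ∀ w ∉ up K₁ S, ordv w (x : K₁) = n w
  prMK : ∀ n : HeightOneSpectrum (𝓞 M₁) →₀ ℤ, ∃ x : M₁ˣ, ∀ w ∉ up M₁ S, ordv w (x : M₁) = n w
  Q : HeightOneSpectrum (𝓞 K) → HeightOneSpectrum (𝓞 K₁)
  w : HeightOneSpectrum (𝓞 K) → HeightOneSpectrum (𝓞 M)
  W : HeightOneSpectrum (𝓞 K) → HeightOneSpectrum (𝓞 M₁)
  Qa : ∀ v ∈ Spl K₁ S, Above (Q v) v ∧ FreeP K (Q v)
  Wa : ∀ v ∈ Spl M₁ S, Above (W v) v ∧ Above (W v) (Q v) ∧ Above (W v) (w v) ∧ FreeP K (W v)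
  vp : HeightOneSpectrum (𝓞 K) → K
  vpo : ∀ v ∈ Spl M₁ S, ordv v (vp v) = 1
  th : HeightOneSpectrum (𝓞 K) → M₁ˣ → ZMod p
  thh : ∀ v ∈ Spl M₁ S, Hom (th v)
  thk : ∀ v ∈ Spl M₁ S, ∀ x : M₁ˣ,
    th v x = 0 ↔ ∃ i : ℕ, LocPow p (W v) ((x : M₁) * (algebraMap K M₁ (vp v)) ^ i)
  z : HeightOneSpectrum (𝓞 K) → M₁ˣ
  zo : ∀ v ∈ Spl M₁ S, ∀ W' ∉ up M₁ S,
    (W' = W v → ordv W' (z v : M₁) = 1) ∧ (W' ≠ W v → ordv W' (z v : M₁) = 0)
  y : HeightOneSpectrum (𝓞 K) → K₁ˣ
  yo : ∀ v ∈ Spl K₁ S, ∀ Q' ∉ up K₁ S,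
    (Q' = Q v → ordv Q' (y v : K₁) = 1) ∧ (Q' ≠ Q v → ordv Q' (y v : K₁) = 0)
  r : ℕ
  u : Fin r → Mˣ
  uS : ∀ i, u i ∈ (up M S).unit M
  uP : ∀ i, Pw p (pol P δ (u i))
  rho : Fin r → Mˣ → AdjoinRoot P
  rhoP : ∀ i, IsP δ P (rho i)
  rhoL : ∀ i x, LocS p (up M S) x → rho i x = 0
  rhou : ∀ i j, rho i (u j) = if i = j then 1 else 0
  rho0 : ∀ x ∈ (up M S).unit M, Pw p (pol P δ x) → (∀ i, rho i x = 0) → Pw p x
  s : ℕ
  uw : Fin s → K₁ˣ
  uwS : ∀ i, uw i ∈ (up K₁ S).unit K₁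
  uwO : ∀ i, OmType p K ε ((uw i : K₁ˣ) : K₁)
  rw : Fin s → K₁ˣ → ZMod p
  rwO : ∀ i, IsOm p K ε (rw i)
  rwL : ∀ i x, LocS p (up K₁ S) x → rw i x = 0
  rwu : ∀ i j, rw i (uw j) = if i = j then 1 else 0
  rw0 : ∀ x ∈ (up K₁ S).unit K₁, OmType p K ε (x : K₁) → (∀ i, rw i x = 0) → Pw p x
  t : ℕ
  ch : Fin t → K₁ˣ → ZMod p
  chO : ∀ j, IsOm p K ε (ch j)
  chL : ∀ j x, LocS p (up K₁ S) x → ch j x = 0
  chS : ∀ j, ∀ x ∈ (up K₁ S).unit K₁, ch j x = 0
  chI : ∀ c : Fin t → ZMod p, (∀ x, ∑ j, c j * ch j x = 0) → c = 0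
  chC : ∀ a : K₁ˣ, OmType p K ε (a : K₁) → (∀ j, ch j a = 0) →
    ∃ x ∈ (up K₁ S).unit K₁, OmType p K ε (x : K₁) ∧ LocS p (up K₁ S) (a * x)

namespace Base

variable {p : ℕ} [Fact p.Prime] {K M K₁ M₁ : Type} [Field K] [NumberField K] [Field M]
    [NumberField M] [Field K₁] [NumberField K₁] [Field M₁] [NumberField M₁] [Algebra K M]
    [Algebra K K₁] [Algebra K M₁] [Algebra M M₁] [Algebra K₁ M₁] {ε : K₁} {δ : M ≃ₐ[K] M}
    {P : (ZMod p)[X]} (B : Base p K M K₁ M₁ ε δ P)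

/-- The visible primes (split in `M₁`). -/
def Vis : Set (HeightOneSpectrum (𝓞 K)) := Spl M₁ B.S

/-- The primes which may ramify in the extensions `N/K` (split in `K₁`). -/
def calP : Set (HeightOneSpectrum (𝓞 K)) := Spl K₁ B.S

/-- The valuations at the primes above the visible prime `v`, as a `P`-functional. -/
noncomputable def nv (v : HeightOneSpectrum (𝓞 K)) : Mˣ → AdjoinRoot P :=
  kf (finrank K M) δ P (ordp p (B.w v))

/-- The symbols at the primes above the visible prime `v`, as a `P`-functional. -/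
noncomputable def R (v : HeightOneSpectrum (𝓞 K)) : Mˣ → AdjoinRoot P :=
  kf (finrank K M) δ P (fun x ↦ B.th v (inc M M₁ x))

/-- Normalisation of a `P`-functional: it kills the `S`-units, and agrees with `f` up to a functional of
local nature at `S`. -/
noncomputable def til (f : Mˣ → AdjoinRoot P) (x : Mˣ) : AdjoinRoot P :=
  f x - ∑ i, f (B.u i) * B.rho i x

/-- The symbol of the normalized element attached to the upper prime `q` at the lower prime `v`. -/
noncomputable def A (v q : HeightOneSpectrum (𝓞 K)) : AdjoinRoot P :=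
  B.til (B.R v) (nrm M M₁ (B.z q))

/-- The symbol at the visible prime `v`, made into an `ω`-functional. -/
noncomputable def G (v : HeightOneSpectrum (𝓞 K)) : K₁ˣ → ZMod p :=
  wf p K ε (fun x ↦ B.th v (inc K₁ M₁ x))

/-- Normalisation of an `ω`-functional. -/
noncomputable def tilw (g : K₁ˣ → ZMod p) (x : K₁ˣ) : ZMod p :=
  g x - ∑ i, g (B.uw i) * B.rw i x

/-- The symbol at the lower visible prime `v` of the normalized element of type `ω` with divisor the upper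
prime `l` (split in `K₁`). -/
noncomputable def pi (v l : HeightOneSpectrum (𝓞 K)) : ZMod p := B.tilw (B.G v) (B.y l)

/-- The value of the class functional `j` at the prime `l`. -/
noncomputable def cl (j : Fin B.t) (l : HeightOneSpectrum (𝓞 K)) : ZMod p :=
  (finrank K K₁ : ZMod p) * B.ch j (B.y l)

/-- The constant term of the self symbol at `v`. -/
noncomputable def sv (aτ : K₁ˣ) (v : HeightOneSpectrum (𝓞 K)) : ZMod p :=
  B.th v ((-1) ^ (p - 1)) + ∑ i, B.rw i aτ * B.th v (inc K₁ M₁ (B.uw i))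

/-- The labelled primes. -/
abbrev LP : Type := {q : HeightOneSpectrum (𝓞 K) × (ZMod p)ˣ // q.1 ∈ B.calP}

end Base

/-- The functionals which express the local conditions at `S` and at the places of `T`, for the local
class of `aτ` at `S`. -/
structure Tau {p : ℕ} [Fact p.Prime] {k : Type} [NormedField k] {K M K₁ M₁ : Type} [Field K]
    [NumberField K] [Field M] [NumberField M] [Field K₁] [NumberField K₁] [Field M₁]
    [NumberField M₁] [Algebra K M] [Algebra K K₁] [Algebra K M₁] [Algebra M M₁] [Algebra K₁ M₁]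
    {ε : K₁} {δ : M ≃ₐ[K] M} {P : (ZMod p)[X]} (B : Base p K M K₁ M₁ ε δ P) (L : IwasawaLog p k)
    (T : Set (K →+* k)) (aτ : K₁ˣ) where
  h : Fin B.r → Mˣ → AdjoinRoot P
  hP : ∀ j, IsP δ P (h j)
  hL : ∀ j x, LocS p (up M B.S) x → h j x = 0
  hS : ∀ j x, Pw p (pol P δ x) → (∀ W ∈ up M₁ B.S,
    LocAt p W (algebraMap K₁ M₁ (aτ : K₁)) (algebraMap M M₁ (x : M))) →
    LocSig L (above T) x → h j x = 0
  hI : ∀ c : Fin B.r → AdjoinRoot P, (∀ x, ∑ j, c j * h j x = 0) → c = 0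

namespace Base

variable {p : ℕ} [Fact p.Prime] {k : Type} [NormedField k] {K M K₁ M₁ : Type} [Field K]
    [NumberField K] [Field M] [NumberField M] [Field K₁] [NumberField K₁] [Field M₁]
    [NumberField M₁] [Algebra K M] [Algebra K K₁] [Algebra K M₁] [Algebra M M₁] [Algebra K₁ M₁]
    {ε : K₁} {δ : M ≃ₐ[K] M} {P : (ZMod p)[X]} [Fact (Irreducible P)]
    (B : Base p K M K₁ M₁ ε δ P) {L : IwasawaLog p k} {T : Set (K →+* k)} {aτ : K₁ˣ}
    (E : Tau B L T aτ)

/-- The abstract system attached to the local class of `aτ`. -/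
noncomputable def sys : Pool.Agent.Helper17.PP.Sys p B.LP (HeightOneSpectrum (𝓞 K)) (AdjoinRoot P)
    (Fin B.r → AdjoinRoot P) (Fin B.r → AdjoinRoot P) (Fin B.t → ZMod p) where
  bs q := q.1.1
  N q := Ideal.absNorm q.1.1.asIdeal
  spl q := q.1.1 ∈ B.Vis
  cls q j := (q.1.2 : ZMod p) * B.cl j q.1.1
  cl₀ j := B.ch j aτ
  lam₀ := LinearMap.pi fun j ↦ ∑ i, (LinearMap.proj i).smulRight (E.h j (B.u i))
  lam q := LinearMap.pi fun j ↦
    LinearMap.id.smulRight (B.til (E.h j) (nrm M M₁ (B.z q.1.1)))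
  res q := ∑ i, (LinearMap.proj i).smulRight (B.R q.1.1 (B.u i))
  a q q' := B.A q.1.1 q'.1.1
  dg q := B.A q.1.1 q.1.1 - algebraMap (ZMod p) (AdjoinRoot P)
    ((q.1.2 : ZMod p)⁻¹ * B.sv aτ q.1.1 + B.pi q.1.1 q.1.1)
  kap q q' := - ((q'.1.2 : ZMod p) * (q.1.2 : ZMod p)⁻¹ * B.pi q.1.1 q'.1.1)
  two_le q := by
    have h1 : Ideal.absNorm q.1.1.asIdeal ≠ 1 := by
      rw [Ne, Ideal.absNorm_eq_one_iff]
      exact q.1.1.isPrime.ne_top
    have h0 : Ideal.absNorm q.1.1.asIdeal ≠ 0 := by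
      rw [Ne, Ideal.absNorm_eq_zero_iff]
      exact q.1.1.ne_bot
    omega
  fin Z := by
    have h : {v : HeightOneSpectrum (𝓞 K) | Ideal.absNorm v.asIdeal ≤ Z}.Finite := by
      refine Set.Finite.of_finite_image (f := HeightOneSpectrum.asIdeal) ?_ ?_
      · refine (Ideal.finite_setOfPred_absNorm_le (S := 𝓞 K) Z).subset ?_
        rintro _ ⟨v, hv, rfl⟩
        exact hv
      · intro v _ w _ h
        exact HeightOneSpectrum.ext h
    have h2 : (({v : HeightOneSpectrum (𝓞 K) | Ideal.absNorm v.asIdeal ≤ Z}) ×ˢ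
        (Set.univ : Set (ZMod p)ˣ)).Finite := h.prod Set.finite_univ
    refine Set.Finite.of_finite_image (f := Subtype.val) (h2.subset ?_)
      Subtype.val_injective.injOn
    rintro _ ⟨q, hq, rfl⟩
    exact ⟨hq, Set.mem_univ _⟩
  bsN q q' h := by
    have h' : q.1.1 = q'.1.1 := h
    rw [h']
  bsS q q' h := by
    have h' : q.1.1 = q'.1.1 := h
    rw [h']

end Base

end Pool.Agent.Helper42.PP
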