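import Pool.Agent.Helper42.PP.Goals2
import Pool.Agent.Helper42.RD.EXA

/-!
# Project PP: packet P_NZY
-/

set_option autoImplicit false

namespace Pool.Agent.Helper42.PP

open NumberField Polynomial Module IsDedekindDomain Pool.Agent.Helper51.SigLeo
open Pool.Agent.Helper51.RP Pool.Agent.Helper42.RD
open Pool.Agent.Helper40.RS (bel gw bel_smul lies conj_of_bel free_gw absNorm_free val_smul)
open Pool.Agent.Helper13.RD (eq_gw ram_free eq_of_val)
open Pool.Agent.Helper40.RD (bel_of_above ordW)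

section conj

variable {K M : Type} [Field K] [Field M] [NumberField M] [Algebra K M]

theorem ordv_of_val {w w' : HeightOneSpectrum (𝓞 M)} {g : M ≃ₐ[K] M}
    (h : ∀ y : M, w.valuation M (g y) = w'.valuation M y) (x : M) :
    ordv w (g x) = ordv w' x := by
  unfold ordv; rw [h]

variable [NumberField K] [IsGalois K M]

/-- for every prime `w` and `g` there is `w'` with `w'.valuation y = w.valuation (g y)` -/
theorem exists_pull (w : HeightOneSpectrum (𝓞 M)) (g : M ≃ₐ[K] M) :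
    ∃ w' : HeightOneSpectrum (𝓞 M), (∀ y : M, w.valuation M (g y) = w'.valuation M y) ∧
      bel K w' = bel K w := by
  have h1 : ∀ y : M, (gw g⁻¹ w).valuation M (g⁻¹ y) = w.valuation M y :=
    fun y => val_smul g⁻¹ w (gw g⁻¹ w) rfl y
  refine ⟨gw g⁻¹ w, fun y => ?_, bel_smul g⁻¹ w (gw g⁻¹ w) rfl⟩
  have h2 := h1 (g y)
  have h3 : g⁻¹ (g y) = y := by
    show (g⁻¹ * g) y = y
    rw [inv_mul_cancel]; rfl
  rw [h3] at h2
  exact h2.symm

end conj

section ones

variable {K M M₁ : Type} [Field K] [NumberField K] [Field M] [NumberField M] [Field M₁]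
  [NumberField M₁] [Algebra K M] [Algebra M M₁] [Algebra K M₁] [IsScalarTower K M M₁]

theorem bel_of {W : HeightOneSpectrum (𝓞 M₁)} {w : HeightOneSpectrum (𝓞 M)}
    {v : HeightOneSpectrum (𝓞 K)} (h1 : Above W v) (h2 : Above W w) : Above w v := by
  have e1 := bel_of_above h1
  have e2 := bel_of_above h2
  have e3 := bel_bel (K := K) (M := M) W
  rw [e2, e1] at e3
  rw [← e3]
  rfl

/-- If `W` is unramified over `K` then it is unramified over `M`. -/
theorem ord_of_unr {W : HeightOneSpectrum (𝓞 M₁)} {w : HeightOneSpectrum (𝓞 M)}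
    {v : HeightOneSpectrum (𝓞 K)} (h1 : Above W v) (h2 : Above W w)
    (hu : ∀ x : K, ordv W (algebraMap K M₁ x) = ordv v x) (x : M) :
    ordv W (algebraMap M M₁ x) = ordv w x := by
  have h3 := bel_of h1 h2
  have e2 := bel_of_above h2
  have e3 := bel_of_above h3
  obtain ⟨π, hπ⟩ := v.valuation_exists_uniformizer K
  have hπ' : ordv v π = 1 := by unfold ordv; rw [hπ]; simp
  have a1 := ordW W (algebraMap K M π)
  rw [← IsScalarTower.algebraMap_apply, hu, hπ', e2, ordW w, e3, hπ', mul_one] at a1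
  have a2 := Int.eq_one_or_neg_one_of_mul_eq_one a1.symm
  have a3 : (0 : ℤ) ≤ (w.asIdeal.ramificationIdx' W.asIdeal : ℤ) := Int.natCast_nonneg _
  rw [ordW W x, e2]
  rcases a2 with a2 | a2
  · rw [a2, one_mul]
  · omega

theorem val_of_ord {F : Type} [Field F] [NumberField F] {W : HeightOneSpectrum (𝓞 F)} (x : 𝓞 F) :
    x ∈ W.asIdeal ↔ W.valuation F (x : F) < 1 :=
  (HeightOneSpectrum.valuation_lt_one_iff_mem (K := F) W x).symm

/-- The prime below a prime with trivial decomposition group has trivial decomposition group. -/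
theorem free_below [IsGalois K M] [IsGalois K M₁] {W : HeightOneSpectrum (𝓞 M₁)}
    {w : HeightOneSpectrum (𝓞 M)} (h2 : Above W w) (hf : FreeP K W) : FreeP K w := by
  have : IsGalois M M₁ := IsGalois.tower_top_of_isGalois K M M₁
  have e2 := bel_of_above h2
  intro g hg
  obtain ⟨g', hg'⟩ := AlgEquiv.restrictNormalHom_surjective (F := K) (K₁ := M) M₁ g
  have hc : ∀ x : M, g' (algebraMap M M₁ x) = algebraMap M M₁ (g x) := by
    intro x
    rw [← hg']
    exact (AlgEquiv.restrictNormal_commutes g' M x).symm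
  obtain ⟨W', h1, h3⟩ := exists_pull (K := K) W g'
  have h4 : bel M W' = bel M W := by
    apply HeightOneSpectrum.ext
    ext x
    show algebraMap (𝓞 M) (𝓞 M₁) x ∈ W'.asIdeal ↔ algebraMap (𝓞 M) (𝓞 M₁) x ∈ W.asIdeal
    rw [val_of_ord, val_of_ord]
    have h5 : ((algebraMap (𝓞 M) (𝓞 M₁) x : 𝓞 M₁) : M₁) = algebraMap M M₁ (x : M) := rfl
    rw [h5, ← h1, hc, Pool.Agent.Helper40.RD.valW, Pool.Agent.Helper40.RD.valW, e2, hg]
  obtain ⟨g'', h6⟩ := conj_of_bel (K := M) W' W h4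
  have h7 := hf (g' * g''.restrictScalars K) (fun y => by
    show W.valuation M₁ (g' (g'' y)) = _
    rw [h1, h6])
  ext x
  have h8 : g' (g'' (algebraMap M M₁ x)) = algebraMap M M₁ x :=
    congrArg (fun f : M₁ ≃ₐ[K] M₁ => f (algebraMap M M₁ x)) h7
  rw [g''.commutes, hc] at h8
  exact (algebraMap M M₁).injective h8

end ones


section prods

variable {F : Type} [Field F] [NumberField F]

theorem ordv_one (w : HeightOneSpectrum (𝓞 F)) : ordv w (1 : F) = 0 := by
  unfold ordv; rw [map_one, WithZero.log_one, neg_zero]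

theorem ordv_prod {ι : Type} (w : HeightOneSpectrum (𝓞 F)) (s : Finset ι) (f : ι → F)
    (hf : ∀ i ∈ s, f i ≠ 0) : ordv w (∏ i ∈ s, f i) = ∑ i ∈ s, ordv w (f i) := by
  classical
  induction s using Finset.induction_on with
  | empty => rw [Finset.prod_empty, Finset.sum_empty, ordv_one]
  | insert a s ha ih =>
    rw [Finset.prod_insert ha, Finset.sum_insert ha,
      ordv_mul w (hf a (Finset.mem_insert_self a s))
        (Finset.prod_ne_zero_iff.2 fun i hi => hf i (Finset.mem_insert_of_mem hi)),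
      ih fun i hi => hf i (Finset.mem_insert_of_mem hi)]

end prods

section gens

variable {K M : Type} [Field K] [Field M] [NumberField K] [NumberField M] [Algebra K M]
  [IsGalois K M]

theorem exists_pow (δ : M ≃ₐ[K] M) (h : orderOf δ = finrank K M) (g : M ≃ₐ[K] M) :
    ∃ i : ℕ, i < finrank K M ∧ δ ^ i = g := by
  classical
  have h1 : Subgroup.zpowers δ = ⊤ := by
    apply Subgroup.eq_top_of_card_eq
    rw [Nat.card_zpowers, h, IsGalois.card_aut_eq_finrank]
  have h2 : g ∈ Subgroup.zpowers δ := by rw [h1]; exact Subgroup.mem_top g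
  obtain ⟨i, hi, hg⟩ := (mem_zpowers_iff_mem_range_orderOf (x := δ) (y := g)).1 h2 |>
    Finset.mem_image.1
  exact ⟨i, by rw [← h]; exact Finset.mem_range.1 hi, hg⟩

end gens

section nsig

variable {p : ℕ} {K K₁ : Type} [Field K] [Field K₁] [Algebra K K₁] {ε : K₁}

theorem nsig_eq (hε : IsPrimitiveRoot ε p) (hp : 1 < p) (σ : K₁ ≃ₐ[K] K₁) (n : ℕ)
    (h : σ ε = ε ^ n) : nsig p ε σ = n := by
  have hex : ∃ n : ℕ, σ ε = ε ^ n := ⟨n, h⟩
  unfold nsig
  rw [dif_pos hex]
  have h1 := hex.choose_spec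
  have hm : ∀ i : ℕ, ε ^ (i % p) = ε ^ i := by
    intro i
    have h3 := pow_mod_orderOf ε i
    rwa [← hε.eq_orderOf] at h3
  have h2 : ε ^ (n % p) = ε ^ (hex.choose % p) := by
    rw [hm, hm]; exact h.symm.trans h1
  have hp0 : 0 < p := by omega
  have h3 := hε.pow_inj (Nat.mod_lt _ hp0) (Nat.mod_lt _ hp0) h2
  rw [ZMod.natCast_eq_natCast_iff]
  exact h3.symm

end nsig


section main

variable {p : ℕ} [Fact p.Prime] {k : Type} [NormedField k] [NormedAlgebra ℚ_[p] k]
  {K M K₁ M₁ : Type} [Field K] [NumberField K] [Field M] [NumberField M] [Field K₁]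
  [NumberField K₁] [Field M₁] [NumberField M₁] [Algebra K M] [Algebra K K₁] [Algebra K M₁]
  [Algebra M M₁] [Algebra K₁ M₁] {ε : K₁} {δ : M ≃ₐ[K] M} {P : (ZMod p)[X]}

theorem notMem_up {F : Type} [Field F] [NumberField F] [Algebra K F]
    {S : Finset (HeightOneSpectrum (𝓞 K))} {w : HeightOneSpectrum (𝓞 F)}
    {v : HeightOneSpectrum (𝓞 K)} (hv : v ∉ S) (h : Above w v) : w ∉ up F S := by
  rintro ⟨v', hv', h'⟩
  have e1 := bel_of_above h
  have e2 := bel_of_above h'
  rw [e1] at e2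
  rw [e2] at hv
  exact hv hv'

theorem bel_notMem {F : Type} [Field F] [NumberField F] [Algebra K F]
    {S : Finset (HeightOneSpectrum (𝓞 K))} {w : HeightOneSpectrum (𝓞 F)}
    (h : w ∉ up F S) : bel K w ∉ S := fun hm => h ⟨bel K w, hm, rfl⟩

/-- (1), the valuations of the norm of `z v`. -/
theorem ord_nrm (hs : Sit p k K M K₁ M₁ ε δ P) (B : Base p K M K₁ M₁ ε δ P)
    {v : HeightOneSpectrum (𝓞 K)} (hv : v ∈ B.Vis) (w : HeightOneSpectrum (𝓞 M))
    (hw : w ∉ up M B.S) :
    (w = B.w v → ordv w (nrm M M₁ (B.z v) : M) = 1) ∧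
      (w ≠ B.w v → ordv w (nrm M M₁ (B.z v) : M) = 0) := by
  classical
  have := hs.st1
  have := hs.gMK
  have : IsGalois M M₁ := IsGalois.tower_top_of_isGalois K M M₁
  obtain ⟨hWv, hWQ, hWw, hWf⟩ := B.Wa v hv
  have hvS : v ∉ B.S := hv.1
  -- general formula
  have key : ∀ W : HeightOneSpectrum (𝓞 M₁), Above W w →
      ordv w (nrm M M₁ (B.z v) : M) = ∑ g : M₁ ≃ₐ[M] M₁, ordv W (g (B.z v : M₁)) := by
    intro W hW
    have hb : bel K W ∉ B.S := by
      have h1 := bel_bel (K := K) (M := M) W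
      rw [bel_of_above hW] at h1
      rw [← h1]
      exact bel_notMem hw
    have h2 := ord_of_unr (K := K) (M := M) (W := W) (w := w) (v := bel K W) rfl hW
      (B.unr (bel K W) hb W rfl) (nrm M M₁ (B.z v) : M)
    rw [← h2]
    have h3 : algebraMap M M₁ (nrm M M₁ (B.z v) : M) = ∏ g : M₁ ≃ₐ[M] M₁, g (B.z v : M₁) :=
      Algebra.norm_eq_prod_automorphisms M (B.z v : M₁)
    rw [h3, ordv_prod]
    intro g _
    exact (map_ne_zero g).2 (B.z v).ne_zero
  -- the values of the terms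
  have hterm : ∀ (W : HeightOneSpectrum (𝓞 M₁)), Above W w → ∀ g : M₁ ≃ₐ[M] M₁,
      ∃ W' : HeightOneSpectrum (𝓞 M₁), (∀ y : M₁, W.valuation M₁ (g y) = W'.valuation M₁ y) ∧
        Above W' w ∧ (W' = B.W v → ordv W (g (B.z v : M₁)) = 1) ∧
        (W' ≠ B.W v → ordv W (g (B.z v : M₁)) = 0) := by
    intro W hW g
    obtain ⟨W', h1, h2⟩ := exists_pull (K := M) W g
    have h3 : Above W' w := by
      rw [bel_of_above hW] at h2
      rw [← h2]; rfl
    have h4 : W' ∉ up M₁ B.S := by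
      apply notMem_up (v := bel K W')
      · have h5 := bel_bel (K := K) (M := M) W'
        rw [bel_of_above h3] at h5
        rw [← h5]
        exact bel_notMem hw
      · rfl
    have h6 := B.zo v hv W' h4
    refine ⟨W', h1, h3, ?_, ?_⟩
    · intro h
      rw [ordv_of_val h1]
      exact h6.1 h
    · intro h
      rw [ordv_of_val h1]
      exact h6.2 h
  constructor
  · intro hwv
    subst hwv
    rw [key (B.W v) hWw, Finset.sum_eq_single (1 : M₁ ≃ₐ[M] M₁)]
    · obtain ⟨W', h1, h2, h3, h4⟩ := hterm (B.W v) hWw 1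
      apply h3
      exact (eq_of_val fun y => (h1 y)).symm
    · intro g _ hg
      obtain ⟨W', h1, h2, h3, h4⟩ := hterm (B.W v) hWw g
      apply h4
      intro h5
      apply hg
      subst h5
      have h6 := hWf (g.restrictScalars K) (fun y => h1 y)
      ext y
      have h7 := congrArg (fun f : M₁ ≃ₐ[K] M₁ => f y) h6
      exact h7
    · intro h
      exact absurd (Finset.mem_univ _) h
  · intro hne
    obtain ⟨W, hW⟩ := exists_bel (M₁ := M₁) w
    have hW' : Above W w := by rw [← hW]; rfl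
    rw [key W hW']
    apply Finset.sum_eq_zero
    intro g _
    obtain ⟨W', h1, h2, h3, h4⟩ := hterm W hW' g
    apply h4
    intro h5
    apply hne
    rw [h5] at h2
    rw [← bel_of_above h2, ← bel_of_above hWw]

theorem root_pow_m (m : ℕ) (h : P ∣ X ^ m - 1) : (AdjoinRoot.root P) ^ m = 1 := by
  have h1 : AdjoinRoot.mk P (X ^ m - 1) = 0 := AdjoinRoot.mk_eq_zero.2 h
  rw [map_sub, map_pow, map_one, AdjoinRoot.mk_X, sub_eq_zero] at h1
  exact h1

theorem nv_nrm (hs : Sit p k K M K₁ M₁ ε δ P) (B : Base p K M K₁ M₁ ε δ P)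
    {v v' : HeightOneSpectrum (𝓞 K)} (hv : v ∈ B.Vis) (hv' : v' ∈ B.Vis) :
    (v = v' → B.nv v (nrm M M₁ (B.z v')) = 1) ∧ (v ≠ v' → B.nv v (nrm M M₁ (B.z v')) = 0) := by
  classical
  have := hs.st1
  have := hs.gM
  obtain ⟨ζ, Φ, hphi⟩ := hs.phi
  obtain ⟨hWv, hWQ, hWw, hWf⟩ := B.Wa v hv
  obtain ⟨hWv', hWQ', hWw', hWf'⟩ := B.Wa v' hv'
  have hvS : v ∉ B.S := hv.1
  have hwv : Above (B.w v) v := bel_of hWv hWw
  have hwv' : Above (B.w v') v' := bel_of hWv' hWw'
  have := hs.gMK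
  have hfree : FreeP K (B.w v) := free_below hWw hWf
  have hterm : ∀ i : ℕ, ∃ w' : HeightOneSpectrum (𝓞 M),
      (∀ y : M, (B.w v).valuation M ((δ ^ i : M ≃ₐ[K] M) y) = w'.valuation M y) ∧
      Above w' v ∧ (w' = B.w v' → ordp p (B.w v) (act (δ ^ i) (nrm M M₁ (B.z v'))) = 1) ∧
      (w' ≠ B.w v' → ordp p (B.w v) (act (δ ^ i) (nrm M M₁ (B.z v'))) = 0) := by
    intro i
    obtain ⟨w', h1, h2⟩ := exists_pull (K := K) (B.w v) (δ ^ i)
    have h3 : Above w' v := by
      rw [bel_of_above hwv] at h2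
      rw [← h2]; rfl
    have h4 := ord_nrm hs B hv' w' (notMem_up hvS h3)
    refine ⟨w', h1, h3, ?_, ?_⟩
    · intro h
      show ((ordv (B.w v) ((δ ^ i : M ≃ₐ[K] M) (nrm M M₁ (B.z v') : M)) : ℤ) : ZMod p) = 1
      rw [ordv_of_val h1, h4.1 h]
      norm_num
    · intro h
      show ((ordv (B.w v) ((δ ^ i : M ≃ₐ[K] M) (nrm M M₁ (B.z v') : M)) : ℤ) : ZMod p) = 0
      rw [ordv_of_val h1, h4.2 h]
      norm_num
  have hm0 : 0 < finrank K M := finrank_pos
  constructor
  · intro h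
    subst h
    show ∑ i ∈ Finset.range (finrank K M), _ = _
    rw [Finset.sum_eq_single 0]
    · obtain ⟨w', h1, h2, h3, h4⟩ := hterm 0
      rw [h3, map_one, one_mul, Nat.sub_zero, root_pow_m _ hphi.dvdP]
      rw [pow_zero] at h1
      exact (eq_of_val fun y => (h1 y)).symm
    · intro i hi hi0
      obtain ⟨w', h1, h2, h3, h4⟩ := hterm i
      rw [h4, map_zero, zero_mul]
      intro h5
      subst h5
      have h6 := hfree _ h1
      have h7 : orderOf δ ∣ i := orderOf_dvd_of_pow_eq_one h6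
      rw [hs.ord] at h7
      have h8 := Nat.le_of_dvd (Nat.pos_of_ne_zero hi0) h7
      have h9 := Finset.mem_range.1 hi
      omega
    · intro h
      exact absurd (Finset.mem_range.2 hm0) h
  · intro h
    show ∑ i ∈ Finset.range (finrank K M), _ = _
    apply Finset.sum_eq_zero
    intro i _
    obtain ⟨w', h1, h2, h3, h4⟩ := hterm i
    rw [h4, map_zero, zero_mul]
    intro h5
    apply h
    rw [h5] at h2
    exact (bel_of_above h2).symm.trans (bel_of_above hwv')

theorem wf_y (hs : Sit p k K M K₁ M₁ ε δ P) (B : Base p K M K₁ M₁ ε δ P)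
    {v v' : HeightOneSpectrum (𝓞 K)} (hv : v ∈ B.calP) (hv' : v' ∈ B.calP) :
    (v = v' → wf p K ε (ordp p (B.Q v)) (B.y v') = 1) ∧
      (v ≠ v' → wf p K ε (ordp p (B.Q v)) (B.y v') = 0) := by
  classical
  have := hs.gK
  obtain ⟨hQv, hQf⟩ := B.Qa v hv
  obtain ⟨hQv', hQf'⟩ := B.Qa v' hv'
  have hvS : v ∉ B.S := hv.1
  have hterm : ∀ σ : K₁ ≃ₐ[K] K₁, ∃ Q' : HeightOneSpectrum (𝓞 K₁),
      (∀ y : K₁, (B.Q v).valuation K₁ (σ y) = Q'.valuation K₁ y) ∧
      Above Q' v ∧ (Q' = B.Q v' → ordp p (B.Q v) (act σ (B.y v')) = 1) ∧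
      (Q' ≠ B.Q v' → ordp p (B.Q v) (act σ (B.y v')) = 0) := by
    intro σ
    obtain ⟨Q', h1, h2⟩ := exists_pull (K := K) (B.Q v) σ
    have h3 : Above Q' v := by
      rw [bel_of_above hQv] at h2
      rw [← h2]; rfl
    have h4 := B.yo v' hv' Q' (notMem_up hvS h3)
    refine ⟨Q', h1, h3, ?_, ?_⟩
    · intro h
      show ((ordv (B.Q v) (σ (B.y v' : K₁)) : ℤ) : ZMod p) = 1
      rw [ordv_of_val h1, h4.1 h]
      norm_num
    · intro h
      show ((ordv (B.Q v) (σ (B.y v' : K₁)) : ℤ) : ZMod p) = 0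
      rw [ordv_of_val h1, h4.2 h]
      norm_num
  have hp1 : 1 < p := (Fact.out : p.Prime).one_lt
  constructor
  · intro h
    subst h
    unfold wf
    rw [Finset.sum_eq_single (1 : K₁ ≃ₐ[K] K₁)]
    · obtain ⟨Q', h1, h2, h3, h4⟩ := hterm 1
      rw [h3, mul_one, nsig_eq hs.tow.prim hp1 1 1 (by simp)]
      · norm_num
      · exact (eq_of_val fun y => (h1 y)).symm
    · intro σ _ hσ
      obtain ⟨Q', h1, h2, h3, h4⟩ := hterm σ
      rw [h4, mul_zero]
      intro h5
      subst h5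
      exact hσ (hQf σ h1)
    · intro h
      exact absurd (Finset.mem_univ _) h
  · intro h
    unfold wf
    apply Finset.sum_eq_zero
    intro σ _
    obtain ⟨Q', h1, h2, h3, h4⟩ := hterm σ
    rw [h4, mul_zero]
    intro h5
    apply h
    rw [h5] at h2
    exact (bel_of_above h2).symm.trans (bel_of_above hQv')

end main

theorem p_nzy (hF : P_FUN) : P_NZY := by
  intro p _ k _ _ K M K₁ M₁ _ _ _ _ _ _ _ _ _ _ _ _ _ ε δ P hs B
  have := hs.st1
  have := hs.st2
  have := hs.gM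
  have := hs.gK
  have := hs.gMK
  obtain ⟨ζ, Φ, hphi⟩ := hs.phi
  refine ⟨fun v hv => ⟨ord_nrm hs B hv, (nv_nrm hs B hv hv).1 rfl,
    fun v' hv' h => (nv_nrm hs B hv hv').2 h⟩,
    fun v hv => ⟨(wf_y hs B hv hv).1 rfl, fun v' hv' h => (wf_y hs B hv hv').2 h⟩, ?_, ?_⟩
  · intro v hv w hw x hx hn
    obtain ⟨hWv, hWQ, hWw, hWf⟩ := B.Wa v hv
    have hwv : Above (B.w v) v := bel_of hWv hWw
    have hbel : bel K w = bel K (B.w v) := (bel_of_above hw).trans (bel_of_above hwv).symm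
    obtain ⟨g, hg⟩ := conj_of_bel (K := K) w (B.w v) hbel
    obtain ⟨i, hi, hgi⟩ := exists_pow δ hs.ord g⁻¹
    have h1 := ((hF p K M (finrank K M) δ P finrank_pos hphi.copm
      (by rw [← hs.ord]; exact pow_orderOf_eq_one δ) hphi.irr hphi.dvdP).2
      (ordp p (B.w v)) ?_).2 x hx hn i
    · have h2 : ordv w (x : M) = ordv (B.w v) ((δ ^ i : M ≃ₐ[K] M) (x : M)) := by
        rw [hgi, ← ordv_of_val hg]
        congr 1
        show (x : M) = (g * g⁻¹) (x : M)
        rw [mul_inv_cancel]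
        rfl
      rw [h2]
      exact (ZMod.intCast_zmod_eq_zero_iff_dvd _ _).1 h1
    · intro a b
      show ((ordv (B.w v) ((a : M) * (b : M)) : ℤ) : ZMod p) = _
      rw [ordv_mul _ a.ne_zero b.ne_zero]
      push_cast
      rfl
  · intro v hv
    obtain ⟨hWv, hWQ, hWw, hWf⟩ := B.Wa v hv
    exact ⟨ord_of_unr hWv hWw (B.unr v hv.1 (B.W v) hWv),
      ord_of_unr hWv hWQ (B.unr v hv.1 (B.W v) hWv)⟩

end Pool.Agent.Helper42.PP
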