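import Pool.Agent.Helper42.PP.SEL
import Pool.Agent.Helper76.PP.Goals3
import Pool.Agent.Helper90.RP.DUAL

/-!
# Project PP: B_SMF
-/

set_option autoImplicit false
set_option linter.unusedSectionVars false

namespace Pool.Agent.Helper42.PP

open NumberField Polynomial Module IsDedekindDomain Pool.Agent.Helper51.SigLeo
open Pool.Agent.Helper51.RP Pool.Agent.Helper42.RD Pool.Agent.Helper76.PP
open Pool.Agent.Helper40.RS (bel gw bel_smul lies conj_of_bel free_gw absNorm_free val_smul)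
open Pool.Agent.Helper13.RD (eq_gw ram_free eq_of_val)
open Pool.Agent.Helper40.RD (bel_of_above ordW valW)

section gen

variable {M M₁ : Type} [Field M] [NumberField M] [Field M₁] [NumberField M₁] [Algebra M M₁]

theorem val_lt_iff [IsGalois M M₁] {W : HeightOneSpectrum (𝓞 M₁)} {w : HeightOneSpectrum (𝓞 M)}
    (h : Above W w) (x : M) :
    W.valuation M₁ (algebraMap M M₁ x) < 1 ↔ w.valuation M x < 1 := by
  obtain rfl := bel_of_above h
  rw [valW W x]
  have he : (bel M W).asIdeal.ramificationIdx' W.asIdeal ≠ 0 := by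
    rw [Ideal.ramificationIdx'_eq_ramificationIdx (bel M W).asIdeal W.asIdeal (bel M W).ne_bot]
    intro h0
    have h1 := Pool.Agent.Helper40.RS.efg (K := M) W
    rw [h0] at h1
    have h2 := finrank_pos (R := M) (M := M₁)
    simp at h1
    omega
  exact pow_lt_one_iff he

theorem inc_act {K : Type} [Field K] [Algebra K M] [Algebra K M₁] [IsScalarTower K M M₁]
    (g : M₁ ≃ₐ[K] M₁) (σ : M ≃ₐ[K] M) (h : ∀ y : M, g (algebraMap M M₁ y) = algebraMap M M₁ (σ y))
    (x : Mˣ) : act g (inc M M₁ x) = inc M M₁ (act σ x) := Units.ext (h x)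

/-- The valuation as a homomorphism. -/
noncomputable def ordH {F : Type} [Field F] [NumberField F] (w : HeightOneSpectrum (𝓞 F)) :
    Fˣ →* Multiplicative ℤ :=
  { toFun := fun x => Multiplicative.ofAdd (ordv w (x : F))
    map_one' := by rw [Units.val_one, ordv_one]; rfl
    map_mul' := fun a b => by rw [Units.val_mul, ordv_mul w a.ne_zero b.ne_zero]; rfl }

theorem ordv_units_div {F : Type} [Field F] [NumberField F] (w : HeightOneSpectrum (𝓞 F))
    (x y : Fˣ) : ordv w ((x / y : Fˣ) : F) = ordv w (x : F) - ordv w (y : F) :=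
  congrArg Multiplicative.toAdd (_root_.map_div (ordH w) x y)

theorem ordv_units_prod_zpow {F ι : Type} [Field F] [NumberField F]
    (w : HeightOneSpectrum (𝓞 F)) (s : Finset ι) (x : ι → Fˣ) (n : ι → ℤ) :
    ordv w ((∏ i ∈ s, x i ^ n i : Fˣ) : F) = ∑ i ∈ s, n i * ordv w (x i : F) := by
  have h1 := map_prod (ordH w) (fun i => x i ^ n i) s
  simp only [map_zpow] at h1
  have h2 := congrArg Multiplicative.toAdd h1
  rw [toAdd_prod] at h2
  simp only [toAdd_zpow, smul_eq_mul] at h2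
  exact h2

theorem mem_unit_iff {F : Type} [Field F] [NumberField F] (Z : Set (HeightOneSpectrum (𝓞 F)))
    (x : Fˣ) : x ∈ Z.unit F ↔ ∀ w ∉ Z, ordv w (x : F) = 0 := by
  constructor
  · intro h w hw
    rw [ordv_eq_zero_iff w x.ne_zero]
    exact h w hw
  · intro h w hw
    exact (ordv_eq_zero_iff w x.ne_zero).1 (h w hw)

/-- The divisor of an element is a finite combination of primes: a functional on `Fˣ` which kills the
`Z`-units and is not zero is not zero at an element whose divisor outside `Z` is a prime. -/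
theorem exists_prime {p : ℕ} {F : Type} [Field F] [NumberField F] (Z : Set (HeightOneSpectrum (𝓞 F)))
    (hZ : ∀ n : HeightOneSpectrum (𝓞 F) →₀ ℤ, ∃ x : Fˣ, ∀ w ∉ Z, ordv w (x : F) = n w)
    (g : Fˣ → ZMod p) (hg : Hom g) (hu : ∀ x ∈ Z.unit F, g x = 0) (x : Fˣ) (hx : g x ≠ 0) :
    ∃ w ∉ Z, ∃ z : Fˣ, (∀ w' ∉ Z, (w' = w → ordv w' (z : F) = 1) ∧
      (w' ≠ w → ordv w' (z : F) = 0)) ∧ g z ≠ 0 := by
  classical
  by_contra hcon
  push Not at hcon
  have hfin := Pool.Agent.Helper90.RP.Dual.finite_ordv (x : F) x.ne_zero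
  -- the elements `z w`
  have hz : ∀ w : HeightOneSpectrum (𝓞 F), ∃ z : Fˣ, ∀ w' ∉ Z,
      (w' = w → ordv w' (z : F) = 1) ∧ (w' ≠ w → ordv w' (z : F) = 0) := by
    intro w
    obtain ⟨z, hz⟩ := hZ (Finsupp.single w 1)
    refine ⟨z, fun w' hw' => ?_⟩
    rw [hz w' hw', Finsupp.single_apply]
    refine ⟨fun h => by rw [if_pos h.symm], fun h => by rw [if_neg (Ne.symm h)]⟩
  choose z hz using hz
  set A := hfin.toFinset.filter (fun w => w ∉ Z) with hA
  have hgz : ∀ w ∈ A, g (z w) = 0 := by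
    intro w hw
    exact hcon w (Finset.mem_filter.1 hw).2 (z w) (hz w)
  -- g is a homomorphism
  let G : Fˣ →* Multiplicative (ZMod p) :=
    { toFun := fun x => Multiplicative.ofAdd (g x)
      map_one' := by rw [hom_one hg]; rfl
      map_mul' := fun a b => by rw [hg]; rfl }
  have hG : ∀ x, G x = 1 ↔ g x = 0 := fun x => Iff.rfl
  have h1 : G (x / ∏ w ∈ A, (z w) ^ (ordv w (x : F))) = 1 := by
    rw [hG]
    apply hu
    rw [mem_unit_iff]
    intro w' hw'
    rw [ordv_units_div, ordv_units_prod_zpow, sub_eq_zero]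
    by_cases hm : w' ∈ A
    · rw [Finset.sum_eq_single_of_mem w' hm, (hz w' w' hw').1 rfl, mul_one]
      intro w hw hne
      rw [(hz w w' hw').2 (Ne.symm hne), mul_zero]
    · have h0 : ordv w' (x : F) = 0 := by
        by_contra hne
        exact hm (Finset.mem_filter.2 ⟨hfin.mem_toFinset.2 hne, hw'⟩)
      rw [h0]
      symm
      apply Finset.sum_eq_zero
      intro w hw
      rw [(hz w w' hw').2 (fun h => hm (h ▸ hw)), mul_zero]
  rw [_root_.map_div, map_prod, Finset.prod_eq_one, div_one] at h1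
  · exact hx h1
  · intro w hw
    rw [map_zpow, (hG (z w)).2 (hgz w hw), one_zpow]

end gen

section main

variable {p : ℕ} [Fact p.Prime] {k : Type} [NormedField k] [NormedAlgebra ℚ_[p] k]
  {K M K₁ M₁ : Type} [Field K] [NumberField K] [Field M] [NumberField M] [Field K₁]
  [NumberField K₁] [Field M₁] [NumberField M₁] [Algebra K M] [Algebra K K₁] [Algebra K M₁]
  [Algebra M M₁] [Algebra K₁ M₁] [IsScalarTower K M M₁] [IsScalarTower K K₁ M₁]
  [IsGalois K M] [IsGalois K K₁] [IsGalois K M₁] {ε : K₁} {δ : M ≃ₐ[K] M} {P : (ZMod p)[X]}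

/-- A condition at all primes above `v` holds for all the conjugates. -/
theorem val_act {w : HeightOneSpectrum (𝓞 M)} {v : HeightOneSpectrum (𝓞 K)} (hw : Above w v)
    (σ : M ≃ₐ[K] M) (x : M)
    (h : ∀ w : HeightOneSpectrum (𝓞 M), Above w v → w.valuation M (x - 1) < 1) :
    w.valuation M (σ x - 1) < 1 := by
  obtain ⟨w', h1, h2⟩ := exists_pull (K := K) w σ
  have h3 : Above w' v := by
    rw [bel_of_above hw] at h2
    rw [← h2]; rfl
  have h4 : σ x - 1 = σ (x - 1) := by rw [map_sub, map_one]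
  rw [h4, h1]
  exact h w' h3

theorem th_zero (hLOG : B_LOG) (hT : Tower p K M K₁ M₁ ε) (B : Base p K M K₁ M₁ ε δ P)
    {v : HeightOneSpectrum (𝓞 K)} (hv : v ∈ B.Vis) (x : Mˣ)
    (h : ∀ w : HeightOneSpectrum (𝓞 M), Above w v → w.valuation M ((x : M) - 1) < 1)
    (σ : M ≃ₐ[K] M) : B.th v (inc M M₁ (act σ x)) = 0 := by
  have : IsGalois M M₁ := IsGalois.tower_top_of_isGalois K M M₁
  obtain ⟨hWv, hWQ, hWw, hWf⟩ := B.Wa v hv
  apply (hLOG p K M K₁ M₁ ε hT δ P B v hv).1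
  have h1 : ((inc M M₁ (act σ x) : M₁ˣ) : M₁) - 1 = algebraMap M M₁ (σ (x : M) - 1) := by
    rw [map_sub, map_one]; rfl
  rw [h1, val_lt_iff hWw]
  exact val_act (bel_of hWv hWw) σ x h

theorem R_zero (hLOG : B_LOG) (hT : Tower p K M K₁ M₁ ε) (B : Base p K M K₁ M₁ ε δ P)
    {v : HeightOneSpectrum (𝓞 K)} (hv : v ∈ B.Vis) (x : Mˣ)
    (h : ∀ w : HeightOneSpectrum (𝓞 M), Above w v → w.valuation M ((x : M) - 1) < 1) :
    B.R v x = 0 := by
  unfold Base.R kf
  apply Finset.sum_eq_zero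
  intro i _
  simp only [th_zero hLOG hT B hv x h, map_zero, zero_mul]

theorem fS_isP (hNRM : B_NRM) (hT : Tower p K M K₁ M₁ ε) {ζ : k} {Φ : ℤ_[p][X]}
    (hphi : PhiData p (finrank K M) ζ Φ P) (hord : orderOf δ = finrank K M)
    (B : Base p K M K₁ M₁ ε δ P) {L : IwasawaLog p k} {T : Set (K →+* k)} {aτ : K₁ˣ}
    (E : Tau B L T aτ) (β : Fin B.r → AdjoinRoot P) (D : Finset (HeightOneSpectrum (𝓞 K)))
    (y : HeightOneSpectrum (𝓞 K) → AdjoinRoot P) (hD : ∀ v ∈ D, v ∈ B.Vis) :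
    IsP δ P (fS B E β D y) := by
  have hR : ∀ v ∈ D, IsP δ P (B.R v) := fun v hv =>
    ((hNRM p k K M K₁ M₁ ε hT _ δ ζ Φ P hphi hord rfl B).2.2 v (hD v hv)).1
  constructor
  · intro a b
    unfold fS
    have h1 : ∑ j, β j * E.h j (a * b) = ∑ j, β j * E.h j a + ∑ j, β j * E.h j b := by
      rw [← Finset.sum_add_distrib]
      exact Finset.sum_congr rfl fun j _ => by rw [(E.hP j).1, mul_add]
    have h2 : ∑ v ∈ D, y v * B.R v (a * b) = ∑ v ∈ D, y v * B.R v a + ∑ v ∈ D, y v * B.R v b := by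
      rw [← Finset.sum_add_distrib]
      exact Finset.sum_congr rfl fun v hv => by rw [(hR v hv).1, mul_add]
    rw [h1, h2]; ring
  · intro x
    unfold fS
    rw [mul_add, Finset.mul_sum, Finset.mul_sum]
    congr 1
    · exact Finset.sum_congr rfl fun j _ => by rw [(E.hP j).2]; ring
    · exact Finset.sum_congr rfl fun v hv => by rw [(hR v hv).2]; ring

/-- The functional is normalized. -/
theorem fS_til (B : Base p K M K₁ M₁ ε δ P) {L : IwasawaLog p k} {T : Set (K →+* k)} {aτ : K₁ˣ}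
    (E : Tau B L T aτ) (β : Fin B.r → AdjoinRoot P) (D : Finset (HeightOneSpectrum (𝓞 K)))
    (y : HeightOneSpectrum (𝓞 K) → AdjoinRoot P) (hf : ∀ i, fS B E β D y (B.u i) = 0) (x : Mˣ) :
    B.til (fS B E β D y) x = fS B E β D y x := by
  unfold Base.til
  rw [Finset.sum_eq_zero, sub_zero]
  intro i _
  rw [hf, zero_mul]

theorem til_fS (B : Base p K M K₁ M₁ ε δ P) {L : IwasawaLog p k} {T : Set (K →+* k)} {aτ : K₁ˣ}
    (E : Tau B L T aτ) (β : Fin B.r → AdjoinRoot P) (D : Finset (HeightOneSpectrum (𝓞 K)))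
    (y : HeightOneSpectrum (𝓞 K) → AdjoinRoot P) (x : Mˣ) :
    B.til (fS B E β D y) x = ∑ j, β j * B.til (E.h j) x + ∑ v ∈ D, y v * B.til (B.R v) x := by
  unfold Base.til fS
  simp only [mul_sub, Finset.sum_sub_distrib, add_mul, Finset.sum_add_distrib, Finset.mul_sum,
    Finset.sum_mul]
  rw [Finset.sum_comm (s := Finset.univ) (t := Finset.univ)
    (f := fun i j => β j * E.h j (B.u i) * B.rho i x),
    Finset.sum_comm (s := Finset.univ) (t := D)
    (f := fun i v => y v * B.R v (B.u i) * B.rho i x)]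
  simp only [mul_assoc]
  ring

theorem nrm_inc (x : Mˣ) : nrm M M₁ (inc M M₁ x) = x ^ finrank M M₁ :=
  Units.ext (by
    show Algebra.norm M (algebraMap M M₁ (x : M)) = _
    rw [Algebra.norm_algebraMap, Units.val_pow_eq_pow_val])

/-- The functional on `M₁ˣ`. -/
noncomputable def gS (B : Base p K M K₁ M₁ ε δ P) {L : IwasawaLog p k} {T : Set (K →+* k)}
    {aτ : K₁ˣ} (E : Tau B L T aτ) (tr : AdjoinRoot P →ₗ[ZMod p] ZMod p)
    (β : Fin B.r → AdjoinRoot P) (D : Finset (HeightOneSpectrum (𝓞 K)))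
    (y : HeightOneSpectrum (𝓞 K) → AdjoinRoot P) (x : M₁ˣ) : ZMod p :=
  tr (fS B E β D y (nrm M M₁ x))

theorem gS_hom {B : Base p K M K₁ M₁ ε δ P} {L : IwasawaLog p k} {T : Set (K →+* k)} {aτ : K₁ˣ}
    {E : Tau B L T aτ} (tr : AdjoinRoot P →ₗ[ZMod p] ZMod p)
    {β : Fin B.r → AdjoinRoot P} {D : Finset (HeightOneSpectrum (𝓞 K))}
    {y : HeightOneSpectrum (𝓞 K) → AdjoinRoot P} (hP : IsP δ P (fS B E β D y)) :
    Hom (gS B E tr β D y) := by
  intro a b
  unfold gS
  rw [map_mul, hP.1, map_add]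

theorem fS_unit (hNRM : B_NRM) (hT : Tower p K M K₁ M₁ ε) {ζ : k} {Φ : ℤ_[p][X]}
    (hphi : PhiData p (finrank K M) ζ Φ P) (hord : orderOf δ = finrank K M)
    (B : Base p K M K₁ M₁ ε δ P) {L : IwasawaLog p k} {T : Set (K →+* k)} {aτ : K₁ˣ}
    (E : Tau B L T aτ) (β : Fin B.r → AdjoinRoot P) (D : Finset (HeightOneSpectrum (𝓞 K)))
    (y : HeightOneSpectrum (𝓞 K) → AdjoinRoot P) (hP : IsP δ P (fS B E β D y))
    (hf : ∀ i, fS B E β D y (B.u i) = 0) (x : Mˣ) (hx : x ∈ (up M B.S).unit M) :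
    fS B E β D y x = 0 := by
  rw [← fS_til B E β D y hf]
  exact ((hNRM p k K M K₁ M₁ ε hT _ δ ζ Φ P hphi hord rfl B).1 _ hP).2.1 x hx

theorem mD_le_modu {F : Type} [Field F] [NumberField F] [Algebra K F]
    (S D : Finset (HeightOneSpectrum (𝓞 K))) : mD p F S D ≤ modu p F S := Ideal.mul_le_left

theorem mD_le {F : Type} [Field F] [NumberField F] [Algebra K F]
    (S D : Finset (HeightOneSpectrum (𝓞 K))) {v : HeightOneSpectrum (𝓞 K)} (hv : v ∈ D) :
    mD p F S D ≤ v.asIdeal.map (algebraMap (𝓞 K) (𝓞 F)) := by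
  classical
  refine Ideal.mul_le_right.trans ?_
  rw [← Finset.mul_prod_erase D _ hv]
  exact Ideal.mul_le_left

theorem mD_ne_bot (hIDN : B_IDN) {F : Type} [Field F] [NumberField F] [Algebra K F]
    (S D : Finset (HeightOneSpectrum (𝓞 K)))
    (hS : ∀ v : HeightOneSpectrum (𝓞 K), v.valuation K (p : K) < 1 → v ∈ S) :
    mD p F S D ≠ ⊥ := by
  obtain ⟨h1, h2, -⟩ := hIDN p K F S hS
  unfold mD
  refine mul_ne_zero h1 (Finset.prod_ne_zero_iff.2 fun v _ => (h2 v).1)

/-- The functional is zero at the elements congruent to `1`. -/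
theorem gS_ray (hNOR : B_NOR) (hLOG : B_LOG) (hT : Tower p K M K₁ M₁ ε)
    (B : Base p K M K₁ M₁ ε δ P) {L : IwasawaLog p k} {T : Set (K →+* k)} {aτ : K₁ˣ}
    (E : Tau B L T aτ) (tr : AdjoinRoot P →ₗ[ZMod p] ZMod p)
    (β : Fin B.r → AdjoinRoot P) (D : Finset (HeightOneSpectrum (𝓞 K)))
    (y : HeightOneSpectrum (𝓞 K) → AdjoinRoot P) (hD : ∀ v ∈ D, v ∈ B.Vis)
    (x : M₁ˣ) (α : 𝓞 M₁) (hx : (x : M₁) = α) (hα : α - 1 ∈ mD p M₁ B.S D) :
    gS B E tr β D y x = 0 := by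
  have h1 := (hNOR p K M M₁ B.S).2.2.1 x α hx
  have h2 : LocS p (up M B.S) (nrm M M₁ x) := h1.1 (mD_le_modu B.S D hα)
  unfold gS
  have h3 : fS B E β D y (nrm M M₁ x) = 0 := by
    unfold fS
    rw [Finset.sum_eq_zero, Finset.sum_eq_zero, add_zero]
    · intro v hv
      rw [R_zero hLOG hT B (hD v hv) _ (h1.2 v (mD_le B.S D hv hα)), mul_zero]
    · intro j _
      rw [E.hL j _ h2, mul_zero]
  rw [h3, map_zero]

theorem map_modu (S : Finset (HeightOneSpectrum (𝓞 K))) :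
    (modu p M S).map (algebraMap (𝓞 M) (𝓞 M₁)) = modu p M₁ S := by
  unfold modu
  rw [Ideal.map_mul, Ideal.map_span, Set.image_singleton, map_pow, map_natCast]
  congr 1
  refine (map_prod (Ideal.mapHom (algebraMap (𝓞 M) (𝓞 M₁))) _ _).trans ?_
  refine Finset.prod_congr rfl fun v _ => ?_
  show ((v.asIdeal.map (algebraMap (𝓞 K) (𝓞 M))).map (algebraMap (𝓞 M) (𝓞 M₁))) = _
  rw [Ideal.map_map, ← IsScalarTower.algebraMap_eq]

theorem map_mD (S D : Finset (HeightOneSpectrum (𝓞 K))) :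
    (mD p M S D).map (algebraMap (𝓞 M) (𝓞 M₁)) = mD p M₁ S D := by
  unfold mD
  rw [Ideal.map_mul, map_modu]
  congr 1
  refine (map_prod (Ideal.mapHom (algebraMap (𝓞 M) (𝓞 M₁))) _ _).trans ?_
  refine Finset.prod_congr rfl fun v _ => ?_
  show ((v.asIdeal.map (algebraMap (𝓞 K) (𝓞 M))).map (algebraMap (𝓞 M) (𝓞 M₁))) = _
  rw [Ideal.map_map, ← IsScalarTower.algebraMap_eq]

theorem root_pow_sub {m : ℕ} (hm : 0 < m) (h : (AdjoinRoot.root P) ^ m = 1) (e : ℕ) :
    ∃ i < m, (AdjoinRoot.root P) ^ (m - i) = (AdjoinRoot.root P) ^ e := by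
  have h1 : (AdjoinRoot.root P) ^ e = (AdjoinRoot.root P) ^ (e % m) := by
    conv_lhs => rw [← Nat.div_add_mod e m, pow_add, pow_mul, h, one_pow, one_mul]
  have h2 := Nat.mod_lt e hm
  by_cases h0 : e % m = 0
  · exact ⟨0, hm, by rw [h1, h0, Nat.sub_zero, h, pow_zero]⟩
  · exact ⟨m - e % m, by omega, by rw [h1]; congr 1; omega⟩

theorem mem_of_above {F : Type} [Field F] [NumberField F] [Algebra K F]
    {v : HeightOneSpectrum (𝓞 K)} {w : HeightOneSpectrum (𝓞 F)} (h : Above w v) :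
    v.asIdeal.map (algebraMap (𝓞 K) (𝓞 F)) ≤ w.asIdeal := by
  rw [Ideal.map_le_iff_le_comap, h]

theorem pull_ne {w : HeightOneSpectrum (𝓞 M)} (hf : FreeP K w)
    (hord : orderOf δ = finrank K M) {i j : ℕ} (hi : i < finrank K M) (hj : j < finrank K M)
    {w' w'' : HeightOneSpectrum (𝓞 M)}
    (h1 : ∀ y : M, w.valuation M ((δ ^ i) y) = w'.valuation M y)
    (h2 : ∀ y : M, w.valuation M ((δ ^ j) y) = w''.valuation M y) (h : w' = w'') : i = j := by
  subst h
  have h3 := hf (δ ^ i * (δ ^ j)⁻¹) (fun y => by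
    show w.valuation M ((δ ^ i) ((δ ^ j)⁻¹ y)) = _
    rw [h1, ← h2]
    congr 1
    show (δ ^ j * (δ ^ j)⁻¹) y = y
    rw [mul_inv_cancel]; rfl)
  have h4 : δ ^ i = δ ^ j := mul_inv_eq_one.1 h3
  rw [← hord] at hi hj
  exact pow_injOn_Iio_orderOf hi hj h4

/-- The value of `R v₁` at a suitable element. -/
theorem exists_alpha (hCRT : B_CRT) (hNOR : B_NOR) (hLOG : B_LOG)
    (hT : Tower p K M K₁ M₁ ε) (hroot : (AdjoinRoot.root P) ^ finrank K M = 1)
    (hord : orderOf δ = finrank K M)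
    (B : Base p K M K₁ M₁ ε δ P) {L : IwasawaLog p k} {T : Set (K →+* k)} {aτ : K₁ˣ}
    (E : Tau B L T aτ) (β : Fin B.r → AdjoinRoot P) (D : Finset (HeightOneSpectrum (𝓞 K)))
    (y : HeightOneSpectrum (𝓞 K) → AdjoinRoot P) (hD : ∀ v ∈ D, v ∈ B.Vis)
    {v₁ : HeightOneSpectrum (𝓞 K)} (hv₁ : v₁ ∈ D) (e : ℕ) :
    ∃ (x : Mˣ) (α : 𝓞 M), (x : M) = α ∧ Ideal.span {α} ⊔ mD p M B.S D = ⊤ ∧
      fS B E β D y x = y v₁ * (AdjoinRoot.root P) ^ e := by
  classical
  have : IsGalois M M₁ := IsGalois.tower_top_of_isGalois K M M₁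
  have hvis := hD v₁ hv₁
  obtain ⟨hWv, hWQ, hWw, hWf⟩ := B.Wa v₁ hvis
  have hwv : Above (B.w v₁) v₁ := bel_of hWv hWw
  have hwf : FreeP K (B.w v₁) := free_below hWw hWf
  obtain ⟨i, hi, hie⟩ := root_pow_sub finrank_pos hroot e
  obtain ⟨w₀, hw₀, hw₀b⟩ := exists_pull (K := K) (B.w v₁) (δ ^ i)
  have hw₀v : Above w₀ v₁ := by
    rw [bel_of_above hwv] at hw₀b
    rw [← hw₀b]; rfl
  obtain ⟨c, hc, hcth⟩ := (hLOG p K M K₁ M₁ ε hT δ P B v₁ hvis).2.1
  obtain ⟨α, hα0, hαm, hαc, hα1, hcop1, hcop2⟩ := hCRT p K M B.S (D.erase v₁) B.abp v₁ hvis.1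
    (Finset.notMem_erase v₁ D) c hc w₀ hw₀v
  have hαM : (α : M) ≠ 0 := by
    intro h
    exact hα0 (RingOfIntegers.ext h)
  refine ⟨Units.mk0 (α : M) hαM, α, rfl, ?_, ?_⟩
  · have h1 : mD p M B.S D = mD p M B.S (D.erase v₁) *
        v₁.asIdeal.map (algebraMap (𝓞 K) (𝓞 M)) := by
      unfold mD
      rw [← Finset.mul_prod_erase D _ hv₁]
      ring
    rw [h1, ← Ideal.isCoprime_iff_sup_eq]
    exact (Ideal.isCoprime_iff_sup_eq.2 hcop2).mul_right (Ideal.isCoprime_iff_sup_eq.2 hcop1)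
  · set x := Units.mk0 (α : M) hαM with hx
    have hxα : (x : M) = α := rfl
    have hnm : nrm M M x = x := Units.ext (by
      show Algebra.norm M (x : M) = x
      rw [Algebra.norm_self]; rfl)
    have hN := (hNOR p K M M B.S).2.2.1 x α hxα
    rw [hnm] at hN
    have hL : LocS p (up M B.S) x := hN.1 (mD_le_modu B.S _ hαm)
    have hR1 : B.R v₁ x = (AdjoinRoot.root P) ^ e := by
      unfold Base.R kf
      rw [Finset.sum_eq_single i]
      · have h1 : B.th v₁ (inc M M₁ (act (δ ^ i) x)) = 1 := by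
          apply hcth
          have h2 : ((inc M M₁ (act (δ ^ i) x) : M₁ˣ) : M₁) - algebraMap K M₁ (c : K) =
              algebraMap M M₁ ((δ ^ i) ((α : M) - algebraMap K M (c : K))) := by
            rw [map_sub, map_sub, AlgEquiv.commutes, ← IsScalarTower.algebraMap_apply K M M₁]
            rfl
          rw [h2, val_lt_iff hWw, hw₀]
          have h3 := (HeightOneSpectrum.valuation_lt_one_iff_mem (K := M) w₀ _).2 hαc
          exact h3
        simp only [h1, map_one, one_mul, hie]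
      · intro j hj hji
        obtain ⟨w', hw', hw'b⟩ := exists_pull (K := K) (B.w v₁) (δ ^ j)
        have hw'v : Above w' v₁ := by
          rw [bel_of_above hwv] at hw'b
          rw [← hw'b]; rfl
        have hne : w' ≠ w₀ := fun h =>
          hji (pull_ne hwf hord (Finset.mem_range.1 hj) hi hw' hw₀ h)
        have h1 : B.th v₁ (inc M M₁ (act (δ ^ j) x)) = 0 := by
          apply (hLOG p K M K₁ M₁ ε hT δ P B v₁ hvis).1
          have h2 : ((inc M M₁ (act (δ ^ j) x) : M₁ˣ) : M₁) - 1 =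
              algebraMap M M₁ ((δ ^ j) ((α : M) - 1)) := by
            rw [map_sub, map_sub, map_one, map_one]
            rfl
          rw [h2, val_lt_iff hWw, hw']
          have h3 := (HeightOneSpectrum.valuation_lt_one_iff_mem (K := M) w' _).2
            (hα1 w' hw'v hne)
          exact h3
        simp only [h1, map_zero, zero_mul]
      · intro h
        exact absurd (Finset.mem_range.2 hi) h
    unfold fS
    rw [Finset.sum_eq_zero (fun j _ => by rw [E.hL j _ hL, mul_zero]), zero_add,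
      Finset.sum_eq_single_of_mem v₁ hv₁, hR1]
    intro v hv hne
    have h1 : α - 1 ∈ v.asIdeal.map (algebraMap (𝓞 K) (𝓞 M)) :=
      mD_le B.S _ (Finset.mem_erase.2 ⟨hne, hv⟩) hαm
    rw [R_zero hLOG hT B (hD v hv) x (hN.2 v h1), mul_zero]

theorem gS_inc {B : Base p K M K₁ M₁ ε δ P} {L : IwasawaLog p k} {T : Set (K →+* k)} {aτ : K₁ˣ}
    {E : Tau B L T aτ} (tr : AdjoinRoot P →ₗ[ZMod p] ZMod p)
    {β : Fin B.r → AdjoinRoot P} {D : Finset (HeightOneSpectrum (𝓞 K))}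
    {y : HeightOneSpectrum (𝓞 K) → AdjoinRoot P} (hP : IsP δ P (fS B E β D y)) (x : Mˣ) :
    gS B E tr β D y (inc M M₁ x) =
      tr (((finrank M M₁ : ℕ) : AdjoinRoot P) * fS B E β D y x) := by
  unfold gS
  rw [nrm_inc, hom_pow hP.1, nsmul_eq_mul]

theorem isP_pow {f : Mˣ → AdjoinRoot P} (hP : IsP δ P f) (x : Mˣ) (i : ℕ) :
    f (act (δ ^ i) x) = AdjoinRoot.root P ^ i * f x := by
  induction i with
  | zero =>
    have h1 : act (δ ^ 0) x = x := by
      rw [pow_zero]; exact Units.ext rfl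
    rw [h1, pow_zero, one_mul]
  | succ i ih =>
    have h1 : act (δ ^ (i + 1)) x = act δ (act (δ ^ i) x) := by
      rw [pow_succ']; exact Units.ext rfl
    rw [h1, hP.2, ih, pow_succ']
    ring

/-- `[M₁ : M]` is not zero in `κ`. -/
theorem finrank_ne [Fact (Irreducible P)] (hT : Tower p K M K₁ M₁ ε) :
    ((finrank M M₁ : ℕ) : AdjoinRoot P) ≠ 0 := by
  obtain ⟨g1, g2, c1, c2, -, -⟩ := Pool.Agent.Helper14.RD.e_tow p K M K₁ M₁ ε hT
  intro h
  have h1 : algebraMap (ZMod p) (AdjoinRoot P) ((finrank M M₁ : ℕ) : ZMod p) = 0 := by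
    rw [map_natCast]; exact h
  have h2 := (map_eq_zero (algebraMap (ZMod p) (AdjoinRoot P))).1 h1
  rw [ZMod.natCast_eq_zero_iff] at h2
  have h3 := Nat.Coprime.eq_one_of_dvd c1.symm h2
  exact (Fact.out : p.Prime).one_lt.ne' h3

end main

theorem b_smf (hCHR : B_CHR) (hIDN : B_IDN) (hKAP : B_KAP) (hCRT : B_CRT) (hNOR : B_NOR)
    (hLOG : B_LOG) (hNRM : B_NRM) (hUPR : P_UPR) : B_SMF := by
  classical
  intro p _ k _ _ K M K₁ M₁ _ _ _ _ _ _ _ _ _ _ _ _ _ _ _ _ _ _ ε hT m δ ζ Φ P hphi hord hm B L T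
    aτ E tr htr β D y hD hne hf
  subst hm
  have : Fact (Irreducible P) := ⟨hphi.irr⟩
  have hMM : IsGalois M M₁ := IsGalois.tower_top_of_isGalois K M M₁
  have hDv : ∀ v ∈ D, v ∈ B.Vis := fun v hv => (hD v hv).1
  have hP := fS_isP hNRM hT hphi hord B E β D y hDv
  obtain ⟨hroot, hroot2, -, -, hkap⟩ := hKAP p k _ ζ Φ P hphi
  obtain ⟨htr1, -⟩ := hkap tr htr
  have hgh : Hom (gS B E tr β D y) := gS_hom tr hP
  have hgu : ∀ x ∈ (up M₁ B.S).unit M₁, gS B E tr β D y x = 0 := by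
    intro x hx
    unfold gS
    rw [fS_unit hNRM hT hphi hord B E β D y hP hf _ ((hNOR p K M M₁ B.S).1 x hx), map_zero]
  obtain ⟨c1, c2, c3, c4, c5⟩ := hCHR p M₁ (up M₁ B.S) B.prMK (mD p M₁ B.S D)
    (mD_ne_bot hIDN B.S D B.abp) (gS B E tr β D y) hgh hgu
    (fun x α hx hα => gS_ray hNOR hLOG hT B E tr β D y hDv x α hx hα)
  have hthird : ∀ x : Mˣ, fS B E β D y x =
      ∑ j, β j * B.til (E.h j) x + ∑ v ∈ D, y v * B.til (B.R v) x := by
    intro x
    rw [← til_fS, fS_til B E β D y hf]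
  refine ⟨c3, ?_, fun q hq => hthird _, ?_⟩
  · by_cases hDne : D.Nonempty
    · -- D not empty
      obtain ⟨v₁, hv₁⟩ := hDne
      have hη : ((finrank M M₁ : ℕ) : AdjoinRoot P) * y v₁ ≠ 0 :=
        mul_ne_zero (finrank_ne hT) (hD v₁ hv₁).2
      obtain ⟨e, he⟩ : ∃ e : ℕ, tr (((finrank M M₁ : ℕ) : AdjoinRoot P) * y v₁ *
          AdjoinRoot.root P ^ e) ≠ 0 := by
        by_contra h
        push Not at h
        exact hη (htr1 _ h)
      obtain ⟨x, α, hxα, hcop, hval⟩ := exists_alpha hCRT hNOR hLOG hT hroot hord B E β D y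
        hDv hv₁ e
      have hx2 : ((inc M M₁ x : M₁ˣ) : M₁) = (algebraMap (𝓞 M) (𝓞 M₁) α : 𝓞 M₁) := by
        show algebraMap M M₁ (x : M) = _
        rw [hxα]; rfl
      have hval2 : gS B E tr β D y (inc M M₁ x) ≠ 0 := by
        rw [gS_inc tr hP, hval, ← mul_assoc]
        exact he
      have hα0 : algebraMap (𝓞 M) (𝓞 M₁) α ≠ 0 := by
        intro h
        rw [h] at hx2
        exact (inc M M₁ x).ne_zero hx2
      refine ⟨Ideal.span {algebraMap (𝓞 M) (𝓞 M₁) α}, ?_, ?_, ?_, fun _ => ⟨_, rfl⟩⟩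
      · rw [Ne, Ideal.span_singleton_eq_bot]
        exact hα0
      · have h1 := congrArg (Ideal.map (algebraMap (𝓞 M) (𝓞 M₁))) hcop
        rw [Ideal.map_sup, Ideal.map_span, Set.image_singleton, map_mD, Ideal.map_top] at h1
        exact h1
      · show idl (up M₁ B.S) (gS B E tr β D y) _ ≠ 0
        rw [c4 _ _ hx2]
        exact hval2
    · -- D empty
      have hβ : β ≠ 0 := hne.resolve_left hDne
      have hD0 : D = ∅ := Finset.not_nonempty_iff_eq_empty.1 hDne
      obtain ⟨x, hx⟩ : ∃ x : Mˣ, fS B E β D y x ≠ 0 := by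
        by_contra h
        push Not at h
        apply hβ
        apply E.hI
        intro x
        have h1 := h x
        unfold fS at h1
        rw [hD0, Finset.sum_empty, add_zero] at h1
        exact h1
      obtain ⟨e, he⟩ : ∃ e : ℕ, tr (((finrank M M₁ : ℕ) : AdjoinRoot P) * fS B E β D y x *
          AdjoinRoot.root P ^ e) ≠ 0 := by
        by_contra h
        push Not at h
        exact (mul_ne_zero (finrank_ne hT) hx) (htr1 _ h)
      have hval2 : gS B E tr β D y (inc M M₁ (act (δ ^ e) x)) ≠ 0 := by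
        rw [gS_inc tr hP, isP_pow hP]
        convert he using 2
        ring
      obtain ⟨w, hw, z, hz1, hz2⟩ := exists_prime (up M₁ B.S) B.prMK _ hgh hgu _ hval2
      refine ⟨w.asIdeal, w.ne_bot, ?_, ?_, fun h => absurd h hDne⟩
      · rw [hD0]
        exact (hIDN p K M₁ B.S B.abp).2.2 (bel K w) ∅ (bel_notMem hw) (Finset.notMem_empty _) w rfl
      · show idl (up M₁ B.S) (gS B E tr β D y) _ ≠ 0
        rw [c5 w z hz1]
        exact hz2
  · intro q hq h0 W hWq hWf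
    obtain ⟨hWv, hWQ, hWw, hWf'⟩ := B.Wa q hq
    obtain ⟨g, hg⟩ := (hUPR p K M₁ B.S).2.2.2.2.2.2 q (B.W q) W hWv hWq
    -- the divisor of g (z q)
    have hdiv : ∀ W' ∉ up M₁ B.S, (W' = W → ordv W' ((act g (B.z q) : M₁ˣ) : M₁) = 1) ∧
        (W' ≠ W → ordv W' ((act g (B.z q) : M₁ˣ) : M₁) = 0) := by
      intro W' hW'
      obtain ⟨W'', h1, h2⟩ := exists_pull (K := K) W' g
      have h3 : W'' ∉ up M₁ B.S := by
        apply notMem_up (v := bel K W'')
        · rw [h2]; exact bel_notMem hW'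
        · rfl
      have h4 := B.zo q hq W'' h3
      have h5 : ordv W' ((act g (B.z q) : M₁ˣ) : M₁) = ordv W'' (B.z q : M₁) := ordv_of_val h1 _
      rw [h5]
      constructor
      · rintro rfl
        exact h4.1 (eq_of_val fun y => by rw [← h1, hg])
      · intro hne'
        apply h4.2
        rintro rfl
        apply hne'
        apply eq_of_val
        intro y
        have h6 : g (g⁻¹ y) = y := by
          show (g * g⁻¹) y = y
          rw [mul_inv_cancel]; rfl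
        rw [← h6, h1, hg]
    show idl (up M₁ B.S) (gS B E tr β D y) _ = 0
    rw [c5 W _ hdiv]
    obtain ⟨i, hi, hσ⟩ := exists_pow δ hord (g.restrictNormal M)
    have hc : ∀ x : M, g (algebraMap M M₁ x) = algebraMap M M₁ ((g.restrictNormal M) x) :=
      fun x => (AlgEquiv.restrictNormal_commutes g M x).symm
    unfold gS
    rw [((hNOR p K M M₁ B.S).2.1 g (g.restrictNormal M) hc (B.z q)).1, ← hσ, isP_pow hP, h0,
      mul_zero, map_zero]

end Pool.Agent.Helper42.PP
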