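import Pool.Agent.Helper42.PP.Goals1

/-!
# Project PP, part B, second file: labels, decompositions, Selmer elements give solutions

`lab a` is the finite set of labelled primes attached to an element `a` of type `ω` of `K₁`. Main result:
`P_SEL`, if the Selmer group of `a` is not trivial then `lab a` is bad in the sense of the abstract
system `B.sys E`.
-/

set_option autoImplicit false

namespace Pool.Agent.Helper42.PP

open NumberField Polynomial Module IsDedekindDomain Pool.Agent.Helper51.SigLeo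
open Pool.Agent.Helper51.RP Pool.Agent.Helper42.RD

section lab

variable {p : ℕ} [Fact p.Prime] {K M K₁ M₁ : Type} [Field K] [NumberField K] [Field M]
    [NumberField M] [Field K₁] [NumberField K₁] [Field M₁] [NumberField M₁] [Algebra K M]
    [Algebra K K₁] [Algebra K M₁] [Algebra M M₁] [Algebra K₁ M₁] {ε : K₁} {δ : M ≃ₐ[K] M}
    {P : (ZMod p)[X]} (B : Base p K M K₁ M₁ ε δ P)

/-- The labelled primes `(v, e)` with `ord_{Q v}(a) ≡ e mod p`. -/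
def Base.labs (a : K₁ˣ) : Set B.LP := {q | ordp p (B.Q q.1.1) a = (q.1.2 : ZMod p)}

open Classical in
/-- The same as a finite set. -/
noncomputable def Base.lab (a : K₁ˣ) : Finset B.LP :=
  if h : (B.labs a).Finite then h.toFinset else ∅

end lab

/-- The situation of part B: the tower, a generator `δ` of `Gal(M/K)`, the polynomial `P`. -/
structure Sit (p : ℕ) [Fact p.Prime] (k : Type) [NormedField k] [NormedAlgebra ℚ_[p] k]
    (K M K₁ M₁ : Type) [Field K] [NumberField K] [Field M] [NumberField M] [Field K₁]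
    [NumberField K₁] [Field M₁] [NumberField M₁] [Algebra K M] [Algebra K K₁] [Algebra K M₁]
    [Algebra M M₁] [Algebra K₁ M₁] (ε : K₁) (δ : M ≃ₐ[K] M) (P : (ZMod p)[X]) : Prop where
  tcK : IsTotallyComplex K
  st1 : IsScalarTower K M M₁
  st2 : IsScalarTower K K₁ M₁
  gM : IsGalois K M
  gK : IsGalois K K₁
  gMK : IsGalois K M₁
  tow : Tower p K M K₁ M₁ ε
  phi : ∃ (ζ : k) (Φ : ℤ_[p][X]), PhiData p (finrank K M) ζ Φ P
  ord : orderOf δ = finrank K M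
  tor : TorOK P δ

/-- **P_NZY** (the elements `z v` and `y v`). (1) For `v, v'` visible, `w ∉ up M S`:
`ord_w(N_{M₁/M}(z v)) = 1` if `w = w v` and `0` otherwise; `nv v (N(z v')) = 1` if `v = v'` and `0` otherwise.
(2) For `v, v' ∈ calP`: `wf (ordp (Q v)) (y v') = 1` if `v = v'` and `0` otherwise. (3) If `w` is a prime of
`M` above the visible prime `v` and `nv v x = 0`, where `P(δ) x` is a `p`-th power, then `p ∣ ord_w(x)`.
(4) For `v` visible `ord_{W v}` is equal to `ord_{w v}` on `M` and to `ord_{Q v}` on `K₁`.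

PROOF (from `P_UPR`, `P_VIS`, `P_FUN`, `P_OMG`). (4) `e(W v/v) = 1` by `unr`, so the ramification indices
`e(W v/w v)`, `e(W v/Q v)` are `1` (multiplicativity; `HeightOneSpectrum.valuation_liesOver`).
(1) `N_{M₁/M}(z) = ∏_{g ∈ Gal(M₁/M)} g(z)` (`M₁/M` is Galois). Let `w ∉ up M S` and `W` above `w`, so
`W ∉ up M₁ S`, and `e(W/w) = 1` by `unr`: `ord_w(N(z v)) = ∑_g ord_W(g(z v))` is the number of the
`g ∈ Gal(M₁/M)` with `(W v).valuation y = W.valuation (g y)` (`zo`). If there is one then `w = w v`; for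
`w = w v` take `W = W v`: only `g = 1`, since `W v` has trivial decomposition group over `K`. `nv v (N(z v')) = ∑_{i<m} ord_{w v}(δ^i N(z v')) ξ^(m-i)`; with the prime
`w'` such that `w'.valuation y = (w v).valuation (δ^i y)` (it is above `v`) this is `ord_{w'}(N(z v'))`,
zero unless `w' = w v'`, so `v = v'` and `w' = w v`; as `w v` has trivial decomposition group
(`P_VIS`) this happens only for `i = 0`, and the term is `ξ^m = 1`. (2) The same computation: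
`∑_σ n(σ)⁻¹ ord_{Q v}(σ y_{v'})`, only `σ = 1` and `v = v'` count (`Q v` has trivial decomposition
group), `n(1) = 1`. (3) `P_FUN` (3) for `f = ordp (w v)`: `p ∣ ord_{w v}(δ^i x)` for all `i`; `w` is
conjugate to `w v` (`P_UPR`): `w.valuation (g y) = (w v).valuation y`, `g⁻¹ = δ^i`, so
`ord_w(x) = ord_{w v}(δ^i x)`. -/
def P_NZY : Prop :=
  ∀ (p : ℕ) [Fact p.Prime] (k : Type) [NormedField k] [NormedAlgebra ℚ_[p] k]
    (K M K₁ M₁ : Type) [Field K] [NumberField K] [Field M] [NumberField M] [Field K₁]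
    [NumberField K₁] [Field M₁] [NumberField M₁] [Algebra K M] [Algebra K K₁] [Algebra K M₁]
    [Algebra M M₁] [Algebra K₁ M₁] (ε : K₁) (δ : M ≃ₐ[K] M) (P : (ZMod p)[X]),
    Sit p k K M K₁ M₁ ε δ P →
  ∀ (B : Base p K M K₁ M₁ ε δ P),
    (∀ v ∈ B.Vis, (∀ w ∉ up M B.S, (w = B.w v → ordv w (nrm M M₁ (B.z v) : M) = 1) ∧
      (w ≠ B.w v → ordv w (nrm M M₁ (B.z v) : M) = 0)) ∧
      (B.nv v (nrm M M₁ (B.z v)) = 1) ∧
      (∀ v' ∈ B.Vis, v ≠ v' → B.nv v (nrm M M₁ (B.z v')) = 0)) ∧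
    (∀ v ∈ B.calP, wf p K ε (ordp p (B.Q v)) (B.y v) = 1 ∧
      ∀ v' ∈ B.calP, v ≠ v' → wf p K ε (ordp p (B.Q v)) (B.y v') = 0) ∧
    (∀ v ∈ B.Vis, ∀ w : HeightOneSpectrum (𝓞 M), Above w v → ∀ x : Mˣ, Pw p (pol P δ x) →
      B.nv v x = 0 → (p : ℤ) ∣ ordv w (x : M)) ∧
    ∀ v ∈ B.Vis, (∀ x : M, ordv (B.W v) (algebraMap M M₁ x) = ordv (B.w v) x) ∧
      ∀ x : K₁, ordv (B.W v) (algebraMap K₁ M₁ x) = ordv (B.Q v) x

/-- **P_DEC** (decomposition of the `P`-part). Let `x ∈ Mˣ` with `P(δ) x` a `p`-th power, `Z` a finite set of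
visible primes such that for all `w ∉ up M S` not above a prime of `Z`, `p ∣ ord_w(x)`. For every
`P`-functional `F`: `F(x) = ∑_i ρ_i(x) F(u_i) + ∑_{v ∈ Z} n_v(x) F~(N(z_v))`, `F~ = til F`. If all `ρ_i(x)` and
all `n_v(x)`, `v ∈ Z`, are zero then `x` is a `p`-th power.

PROOF (from `P_FUN`, `P_NZY`). Let `e ∈ F_p[X]` with `e ≡ 1 mod P` and `X^m - 1 ∣ P e`. For `v ∈ Z` let
`c_v ∈ F_p[X]` with `c_v(ξ) = n_v(x)`, `z'_v = N(z_v)`, and `x' = x/∏_{v ∈ Z} (c_v e)(δ) z'_v`. Up to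
`p`-th powers `pol (a b) δ = pol a δ ∘ pol b δ`, `pol (a + b) δ x = pol a δ x · pol b δ x` and
`pol (X^m - 1) δ x` is a `p`-th power (see `RP.S_LOB`); so `P(δ) x'` is a `p`-th power. `n_v(x') = 0` for
`v ∈ Z` by `P_FUN` (1) and `P_NZY` (1) (`(c_v e)(ξ) = c_v(ξ)`), so `p ∣ ord_w(x')` for the `w` above `v ∈ Z` by
`P_NZY` (3). For the other `w ∉ up M S`, `p ∣ ord_w(x)` and `ord_w(δ^j z'_v) = 0` (`P_NZY` (1): the prime
`w'` with `w'.valuation y = w.valuation (δ^j y)` is not above `v`). So `p ∣ ord_w(x')` for all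
`w ∉ up M S`; by `prM` there is `y ∈ Mˣ` with `p ord_w(y) = ord_w(x')` for these `w` (finite support), and
`x'' = x' y^(-p)` is an `S`-unit, with `P(δ) x''` a `p`-th power. Let `d_i ∈ F_p[X]` with
`d_i(ξ) = ρ_i(x'')`; `x''/∏ d_i(δ) u_i` is an `S`-unit (`up M S` is stable under `δ`), its `P(δ)` is a
`p`-th power, and it is killed by the `ρ_j` (`P_FUN` (1), `rhou`), so it is a `p`-th power by `rho0`. So
`F(x') = F(x'') = ∑_i ρ_i(x'') F(u_i) = ∑_i ρ_i(x') F(u_i)`, and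
`F(x) = F(x') + ∑_v n_v(x) F(z'_v)`, `ρ_i(x') = ρ_i(x) - ∑_v n_v(x) ρ_i(z'_v)`: the formula. If all
`n_v(x) = 0` choose `c_v = 0`: `x' = x`; if also `ρ_i(x) = 0`, `x''` is a `p`-th power by `rho0`. -/
def P_DEC : Prop :=
  ∀ (p : ℕ) [Fact p.Prime] (k : Type) [NormedField k] [NormedAlgebra ℚ_[p] k]
    (K M K₁ M₁ : Type) [Field K] [NumberField K] [Field M] [NumberField M] [Field K₁]
    [NumberField K₁] [Field M₁] [NumberField M₁] [Algebra K M] [Algebra K K₁] [Algebra K M₁]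
    [Algebra M M₁] [Algebra K₁ M₁] (ε : K₁) (δ : M ≃ₐ[K] M) (P : (ZMod p)[X]),
    Sit p k K M K₁ M₁ ε δ P →
  ∀ (B : Base p K M K₁ M₁ ε δ P) (x : Mˣ), Pw p (pol P δ x) →
  ∀ Z : Finset (HeightOneSpectrum (𝓞 K)), (∀ v ∈ Z, v ∈ B.Vis) →
    (∀ w ∉ up M B.S, (∀ v ∈ Z, ¬ Above w v) → (p : ℤ) ∣ ordv w (x : M)) →
  (∀ F : Mˣ → AdjoinRoot P, IsP δ P F →
    F x = ∑ i, B.rho i x * F (B.u i) + ∑ v ∈ Z, B.nv v x * B.til F (nrm M M₁ (B.z v))) ∧
  ((∀ i, B.rho i x = 0) → (∀ v ∈ Z, B.nv v x = 0) → Pw p x)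

/-- **P_DEW** (decomposition of the elements of type `ω`). Let `a ∈ K₁ˣ` be of type `ω`, `Z ⊆ calP` finite with
`ordp (Q v) a = 0` for `v ∈ calP`, `v ∉ Z`. For every `ω`-functional `g`:
`g(a) = ∑_i ρω_i(a) g(uω_i) + ∑_{v ∈ Z} [K₁ : K] ord_{Q v}(a) g~(y_v)`. If all `ρω_i(a)` and all the
`ordp (Q v) a` are zero then `a` is a `p`-th power. For `v` visible,
`th_v(a) = ∑_i ρω_i(a) th_v(uω_i) + ∑_{l ∈ Z} ord_{Q l}(a) π(v, l)`.

PROOF (from `P_OMG`, `P_NZY`, `P_UPR`). Write `g₀ = [K₁ : K]`, prime to `p`, `e_v = ordp (Q v) a`. For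
`v ∈ Z` let `y*_v` be of type `ω` with `g(y*_v) = g(y_v)` for all `ω`-functionals (`P_OMG` (2)), and
`k_v ∈ ℕ`, `k_v ≡ g₀ e_v mod p`. Let `a' = a/∏_{v ∈ Z} (y*_v)^(k_v)`, of type `ω`. Let `v ∈ calP`, and
`n_v = wf (ordp (Q v))`, an `ω`-functional with `n_v(b) = g₀ ordp (Q v) b` for `b` of type `ω`
(`P_OMG` (1)), `n_v(y_{v'}) = δ_{v v'}` (`P_NZY` (2)). So
`g₀ ordp (Q v) a' = g₀ e_v - ∑_{v' ∈ Z} g₀ e_{v'} δ_{v v'} = 0`, and `p ∣ ord_{Q v}(a')`; for the other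
primes `Q` above `v`, `Q.valuation (σ y) = (Q v).valuation y`, `ord_Q(a') = ord_{Q v}(σ⁻¹ a')` is
congruent to a multiple of `ord_{Q v}(a')`. If `Q ∉ up K₁ S` is above `v ∉ calP` then `Q` has nontrivial
decomposition group and `p ∣ ord_Q(a')` by `P_OMG` (3). So by `prK` there is `y ∈ K₁ˣ` such that
`a'' = a' y^(-p)` is an `S`-unit, of type `ω`. Let `d_i ∈ ℕ`, `d_i ≡ ρω_i(a'') mod p`; `a''/∏ uω_i^(d_i)` is
an `S`-unit of type `ω` killed by the `ρω_j`, so a `p`-th power (`rw0`). So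
`g(a') = ∑_i ρω_i(a') g(uω_i)`, `g(a) = g(a') + ∑_v g₀ e_v g(y_v)`,
`ρω_i(a') = ρω_i(a) - ∑_v g₀ e_v ρω_i(y_v)`: the formula. Second claim: `k_v = 0`, `a' = a` and `a''` is a
`p`-th power. Third claim: take `g = B.G v`: `G v b = g₀ th_v(b)` for `b` of type `ω` (`P_OMG` (1)),
`tilw (G v) (y_l) = π(v, l)`; divide by `g₀`. -/
def P_DEW : Prop :=
  ∀ (p : ℕ) [Fact p.Prime] (k : Type) [NormedField k] [NormedAlgebra ℚ_[p] k]
    (K M K₁ M₁ : Type) [Field K] [NumberField K] [Field M] [NumberField M] [Field K₁]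
    [NumberField K₁] [Field M₁] [NumberField M₁] [Algebra K M] [Algebra K K₁] [Algebra K M₁]
    [Algebra M M₁] [Algebra K₁ M₁] (ε : K₁) (δ : M ≃ₐ[K] M) (P : (ZMod p)[X]),
    Sit p k K M K₁ M₁ ε δ P →
  ∀ (B : Base p K M K₁ M₁ ε δ P) (a : K₁ˣ), OmType p K ε (a : K₁) →
  ∀ Z : Finset (HeightOneSpectrum (𝓞 K)), (∀ v ∈ Z, v ∈ B.calP) →
    (∀ v ∈ B.calP, v ∉ Z → ordp p (B.Q v) a = 0) →
  (∀ g : K₁ˣ → ZMod p, IsOm p K ε g →
    g a = ∑ i, B.rw i a * g (B.uw i) +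
      ∑ v ∈ Z, (finrank K K₁ : ZMod p) * ordp p (B.Q v) a * B.tilw g (B.y v)) ∧
  ((∀ i, B.rw i a = 0) → (∀ v ∈ B.calP, ordp p (B.Q v) a = 0) → Pw p a) ∧
  ∀ v ∈ B.Vis, B.th v (inc K₁ M₁ a) = ∑ i, B.rw i a * B.th v (inc K₁ M₁ (B.uw i)) +
    ∑ l ∈ Z, ordp p (B.Q l) a * B.pi v l

/-- **P_LAB** (labels). (1) Let `a ∈ K₁ˣ` be of type `ω`. `B.labs a` is finite. For `v ∈ calP` and a prime `W` of
`M₁` above `v`, `p ∣ ord_W(a)` iff `ordp (Q v) a = 0`; for `v ∉ S`, `v ∉ calP`, `W` above `v`,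
`p ∣ ord_W(a)`. (2) If moreover `LocS (a/aτ)` then `lab a` is in the family. (3) Every `b` in the family is
`lab a` for such an `a` (`aτ` of type `ω`). (4) `a`, `a'` of type `ω` with `LocS (a/aτ)`, `LocS (a'/aτ)` and
the same labels are congruent modulo `p`-th powers. (5) For every `γ` there is `b` with unique labels and
class `γ`.

PROOF (from `P_OMG`, `P_NZY`, `P_DEW`, `P_UPR`, `P_LFI`, `RD.E_TRF`, `RD.E_TOW`). (1) Only finitely many valuations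
of `a` are nonzero, and `Q v` determines `v`. Let `Q = W ∩ K₁`. `p ∣ ord_W(a)` iff `p ∣ ord_Q(a)` by `E_TRF`
for `M₁/K₁`; if `v ∈ calP`, `Q` is conjugate to `Q v` and `ord_Q(a) = ord_{Q v}(σ⁻¹ a)` is congruent to
`n ord_{Q v}(a)`, `n` prime to `p`. If `v ∉ calP` (and `∉ S`) `Q` has nontrivial decomposition group:
`P_OMG` (3). (2) `bs` is injective on `lab a`: the label of `v` is `ordp (Q v) a`. Let `Z` be the set of the
`v ∈ calP` with `ordp (Q v) a ≠ 0`. By `P_DEW` for `g = ch j` (`ch j (uw i) = 0` by `chS`, so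
`tilw (ch j) = ch j`), `ch_j(a) = ∑_{v ∈ Z} [K₁ : K] ord_{Q v}(a) ch_j(y_v) = ∑_{q ∈ lab a} cls q j`, and
`ch_j(a) = ch_j(aτ)` by `chL`. (3) Let `b` be in the family, `y*_v` as in the proof of `P_DEW`,
`a₀ = ∏_{(v,e) ∈ b} (y*_v)^(k)`, `k ≡ [K₁ : K] e mod p`; `n_v(a₀) = [K₁ : K] e` if `(v, e) ∈ b` and `0` if
`v ∈ calP` has no label in `b` (`P_NZY` (2), the labels are unique), so `ordp (Q v) a₀ = e`, resp. `0`
(`P_OMG` (1)). `ch_j(a₀/aτ) = ∑_{(v,e) ∈ b} [K₁ : K] e ch_j(y_v) - ch_j(aτ) = 0`. By `chC` there is an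
`S`-unit `x` of type `ω` with `LocS (a₀/aτ · x)`: `a = a₀ x`. (4) `a/a'` is of type `ω`, all its
`ordp (Q v)` are zero, and `rw i (a/a') = 0` by `rwL` (`LocS` is a group): `P_DEW`. (5) The image of
`x ↦ (ch_j(x))_j` is a subspace of `F_p^t` (it is additive) and by `chI` it is not contained in a
hyperplane, so there is `x` with `ch_j(x) = γ_j`; let `a` be of type `ω` with the same values
(`P_OMG` (2)), `b = lab a`; the computation in (2) gives `∑ cls = γ`. -/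
def P_LAB : Prop :=
  ∀ (p : ℕ) [Fact p.Prime] (k : Type) [NormedField k] [NormedAlgebra ℚ_[p] k]
    (K M K₁ M₁ : Type) [Field K] [NumberField K] [Field M] [NumberField M] [Field K₁]
    [NumberField K₁] [Field M₁] [NumberField M₁] [Algebra K M] [Algebra K K₁] [Algebra K M₁]
    [Algebra M M₁] [Algebra K₁ M₁] (ε : K₁) (δ : M ≃ₐ[K] M) (P : (ZMod p)[X])
    [Fact (Irreducible P)], Sit p k K M K₁ M₁ ε δ P →
  ∀ (L : IwasawaLog p k) (T : Set (K →+* k)) (B : Base p K M K₁ M₁ ε δ P) (aτ : K₁ˣ)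
    (E : Tau B L T aτ), OmType p K ε (aτ : K₁) →
  (∀ a : K₁ˣ, OmType p K ε (a : K₁) → (B.labs a).Finite ∧
    (∀ v ∈ B.calP, ∀ W : HeightOneSpectrum (𝓞 M₁), Above W v →
      ((p : ℤ) ∣ ordv W (algebraMap K₁ M₁ (a : K₁)) ↔ ordp p (B.Q v) a = 0)) ∧
    (∀ v ∉ B.S, v ∉ B.calP → ∀ W : HeightOneSpectrum (𝓞 M₁), Above W v →
      (p : ℤ) ∣ ordv W (algebraMap K₁ M₁ (a : K₁))) ∧
    (LocS p (up K₁ B.S) (a / aτ) → (B.sys E).Fam (B.lab a))) ∧
  (∀ b : Finset B.LP, (B.sys E).Fam b → ∃ a : K₁ˣ, OmType p K ε (a : K₁) ∧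
    LocS p (up K₁ B.S) (a / aτ) ∧ B.lab a = b) ∧
  (∀ a a' : K₁ˣ, OmType p K ε (a : K₁) → OmType p K ε (a' : K₁) →
    LocS p (up K₁ B.S) (a / aτ) → LocS p (up K₁ B.S) (a' / aτ) → B.lab a = B.lab a' →
    Pw p (a / a')) ∧
  ∀ γ : Fin B.t → ZMod p, ∃ b : Finset B.LP, Set.InjOn (B.sys E).bs (b : Set B.LP) ∧
    ∑ q ∈ b, (B.sys E).cls q = γ

/-- **P_SLG** (the Selmer group is stable under `δ`, and depends only on the local class at `S`). Let
`a ∈ K₁ˣ` be of type `ω`. (1) `Sel(a)` is stable under `δ`. (2) Let `LocS p (up K₁ S) (a/aτ)`. For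
`W ∈ up M₁ S`, `LocAt p W a x` iff `LocAt p W aτ x`.

PROOF. (1) *pol*: `P(δ)(δ x) = δ(P(δ) x)`. *loc*: let `g ∈ Gal(M₁/K)` extend `δ`, `g` restricted to `K₁` maps
`a` to `a^n c^p`, `n` prime to `p` (`OmType`; `g ε = ε^n` is primitive). Let `W` be a prime of `M₁` and `W'`
the prime with `W'.valuation y = W.valuation (g y)`. `ord_{W'}(a) = ord_W(g a) ≡ n ord_W(a) mod p`. If
`p ∣ ord_W(a)` then `p ∣ ord_{W'}(a)`, `p ∣ ord_{W'}(x) = ord_W(δ x)`. Otherwise `Tame p W' a x`: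
`x a*^i y^p ≡ 1 mod W'`, so `g(x) g(a*)^i g(y)^p ≡ 1 mod W`, `g(a*) = a*^n c^p` (`(-1)^((p-1)(n-1)) = 1`),
which is `Tame p W a (δ x)`. *sig*: see `RP.S_SUB`. (2) Let `Q = W ∩ K₁ ∈ up K₁ S`. `a/aτ` times a `p`-th
power is congruent to `1` modulo `Q`, so modulo `W`; so `ord_W(a) ≡ ord_W(aτ) mod p`, and
`x a*^i y^p ≡ 1 mod W` for some `y` iff `x aτ*^i y'^p ≡ 1 mod W` for some `y'`. -/
def P_SLG : Prop :=
  ∀ (p : ℕ) [Fact p.Prime] (k : Type) [NormedField k] [NormedAlgebra ℚ_[p] k]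
    [IsUltrametricDist k] (K M K₁ M₁ : Type) [Field K] [NumberField K] [Field M] [NumberField M]
    [Field K₁] [NumberField K₁] [Field M₁] [NumberField M₁] [Algebra K M] [Algebra K K₁]
    [Algebra K M₁] [Algebra M M₁] [Algebra K₁ M₁] (ε : K₁) (δ : M ≃ₐ[K] M) (P : (ZMod p)[X]),
    Sit p k K M K₁ M₁ ε δ P →
  ∀ (L : IwasawaLog p k) (T : Set (K →+* k)) (S : Finset (HeightOneSpectrum (𝓞 K))) (a : K₁ˣ),
    OmType p K ε (a : K₁) →
  (∀ x : Mˣ, Sel L (above T) P δ (algebraMap K₁ M₁ (a : K₁)) x →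
    Sel L (above T) P δ (algebraMap K₁ M₁ (a : K₁)) (act δ x)) ∧
  ∀ aτ : K₁ˣ, LocS p (up K₁ S) (a / aτ) → ∀ W ∈ up M₁ S, ∀ x : M₁,
    (LocAt p W (algebraMap K₁ M₁ (a : K₁)) x ↔ LocAt p W (algebraMap K₁ M₁ (aτ : K₁)) x)

/-- **P_SEL** (the bottom of the moment theorem). Let `a`, `aτ` be of type `ω` with `LocS (a/aτ)`. If the twisted
Selmer group of `a` contains an element which is not a `p`-th power then `lab a` is bad.

PROOF (from `P_FUN`, `P_NZY`, `P_DEC`, `P_DEW`, `P_LAB`, `P_SLG`, `P_VIS`, `P_UPR`, `P_OMG`, `RP.S_NSP`, `RD.E_TRF`,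
`RD.E_TOW`). Let `x ∈ Sel(a)`, not a `p`-th power, `b = lab a`, `Z'` the set of the `v ∈ calP` with
`ordp (Q v) a ≠ 0`, `Z` the set of the visible `v ∈ Z'`, `t_i = ρ_i(x)`, `c q = n_v(x)` if
`q = (v, e) ∈ b` with `v` visible, `0` otherwise. Claim: `(t, c)` is a nonzero solution.
(0) If `w ∉ up M S` and `p ∤ ord_w(x)` then `w` is above some `v ∈ Z`. `w` has trivial decomposition group by
`RP.S_NSP`. Let `v ∉ S` be the prime of `K` below `w`, `W` a prime of `M₁` above `w`, `Q = W ∩ K₁`. If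
`p ∣ ord_W(a)` then `p ∣ ord_W(x)` by `Sel.loc` and `p ∣ ord_w(x)` (`E_TRF`). So `p ∤ ord_W(a)`,
`p ∤ ord_Q(a)` (`E_TRF` for `M₁/K₁`), `Q` has trivial decomposition group (`P_OMG` (3)), `v ∈ calP`, and `W`
has trivial decomposition group by `P_VIS`: `v` is visible; `ordp (Q v) a ≠ 0` by `P_LAB` (1).
(1) So `P_DEC` applies to `x` and `Z`.
(2) `lam`: `h_j(x) = 0` by `hS` (`P_SLG` (2), `Sel.loc`, `Sel.sig`, `Sel.pol`); `P_DEC` for `F = h_j`
is the condition `lam`.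
(3) `loc`: let `q = (v, e) ∈ b`, `v` visible, `e = ordp (Q v) a = ordp (W v) a` (`P_NZY` (4)). For every `i`,
`y = δ^i x ∈ Sel(a)` (`P_SLG`), and `p ∤ ord_{W v}(a)`, so `Tame p (W v) a y`: `y a*^(i')` is locally a
`p`-th power at `W v`. By `thk` (with exponent `0`) and `thh`, `th_v(y) + i' th_v(a*) = 0`; the valuations
give `ord_{W v}(y) + i' e = 0` in `F_p`. So `e th_v(y) = ord_{w v}(y) th_v(a*)` (`P_NZY` (4)).
Multiply by `ξ^(m-i)` and sum over `i < m`: `e R_v(x) = n_v(x) th_v(a*)` in `κ`. By `P_DEW`, and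
`rw i a = rw i aτ` (`rwL`), `th_v(a*) = th_v((-1)^(p-1)) + th_v(a) = sv aτ v + ∑_{l ∈ Z'} e_l π(v, l)`,
`e_l = ordp (Q l) a`. By `P_DEC` for `F = R_v` (a `P`-functional by `P_FUN` (2)),
`R_v(x) = ∑_i t_i R_v(u_i) + ∑_{v' ∈ Z} n_{v'}(x) A(v, v')`. Dividing by `e`:
`res q t + ∑_{v' ∈ Z} n_{v'}(x) A(v, v') - n_v(x) (e⁻¹ sv + ∑_{l ∈ Z'} e_l e⁻¹ π(v, l)) = 0`, and separating
the terms `v' = v`, `l = v` this is `R b t c q = 0` (the sums over `b` are sums over `Z'`, the label of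
`l ∈ Z'` is `e_l`, and `c = 0` at the primes which are not visible).
(4) `supp` is clear, and `(t, c) ≠ 0` by the second part of `P_DEC`. -/
def P_SEL : Prop :=
  ∀ (p : ℕ) [Fact p.Prime] (k : Type) [NormedField k] [NormedAlgebra ℚ_[p] k]
    [IsUltrametricDist k] (K M K₁ M₁ : Type) [Field K] [NumberField K] [Field M] [NumberField M]
    [Field K₁] [NumberField K₁] [Field M₁] [NumberField M₁] [Algebra K M] [Algebra K K₁]
    [Algebra K M₁] [Algebra M M₁] [Algebra K₁ M₁] (ε : K₁) (δ : M ≃ₐ[K] M) (P : (ZMod p)[X])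
    [Fact (Irreducible P)], Sit p k K M K₁ M₁ ε δ P →
  ∀ (L : IwasawaLog p k) (T : Set (K →+* k)) (B : Base p K M K₁ M₁ ε δ P) (aτ : K₁ˣ)
    (E : Tau B L T aτ), OmType p K ε (aτ : K₁) →
  ∀ a : K₁ˣ, OmType p K ε (a : K₁) → LocS p (up K₁ B.S) (a / aτ) →
    (∃ x : Mˣ, Sel L (above T) P δ (algebraMap K₁ M₁ (a : K₁)) x ∧ ¬ Pw p x) →
  (B.sys E).Bad (B.lab a)

end Pool.Agent.Helper42.PP
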