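import Pool.Agent.Helper42.PP.Defs

/-!
# Project PP, part B, first file: functionals, and the existence of `Base` and `Tau`

Every statement is a `def ... : Prop` with its complete proof in the docstring. `RP.S_X` are the
statements of Helper51, `RD.D_X`, `RD.E_X` those of Helper42, `RS.S_X`, `RSP.SP_X` those of Helper38.
Notation: `κ = AdjoinRoot P`, `ξ = AdjoinRoot.root P`, `Q = p^(deg P)`, `c(ξ) = AdjoinRoot.mk P c`.
-/

set_option autoImplicit false

namespace Pool.Agent.Helper42.PP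

open NumberField Polynomial Module IsDedekindDomain Pool.Agent.Helper51.SigLeo
open Pool.Agent.Helper51.RP Pool.Agent.Helper42.RD

/-- **P_FUN** (`P`-functionals). (1) A `P`-functional `F` satisfies `F(c(δ) x) = c(ξ) F(x)` and kills
`p`-th powers. (2) `kf m δ P f` is a `P`-functional. (3) If `P(δ) x` is a `p`-th power and
`kf m δ P f x = 0` then `f(δ^i x) = 0` for all `i`.

PROOF. (1) `pol c δ x = ∏_j (δ^j x)^(n_j)`, `n_j = (coeff c j).val`, and `F(δ^j x) = ξ^j F(x)` by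
induction (`act (δ^j) = act δ ∘ ... ∘ act δ`), so `F(pol c δ x) = ∑_{j ∈ supp c} n_j ξ^j F(x)`, and
`n_j = coeff c j` in `κ`. `F(y^p) = p F(y) = 0` because `κ` has characteristic `p`.
(2) `f` is a homomorphism, and so is `kf f`. As `δ^m = 1` and `ξ^m = 1` (`P ∣ X^m - 1`):
`kf f (δ x) = ∑_{i<m} f(δ^(i+1) x) ξ^(m-i) = ξ ∑_{1≤j≤m} f(δ^j x) ξ^(m-j)`, and the term `j = m`, which
is `f(x)`, is equal to the term `j = 0`, `f(x) ξ^m`.
(3) Let `s_i = f(δ^i x)` for `i ∈ ℤ/m`. `f` kills `p`-th powers, so for all `l`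
`0 = f(δ^l (P(δ) x)) = ∑_j coeff P j s_{l+j}` (`P(δ)` commutes with `δ`; `δ^l` maps `p`-th powers to
`p`-th powers). So in `A = F_p[X]/(X^m - 1)` the element `s = ∑_{i<m} s_i X^(m-i)` satisfies
`P(X) s = 0`: the coefficient of `X^(-l)` of `P s` is `∑_j coeff P j s_{l+j}`. Let `X^m - 1 = P Q`. If
the polynomial `s~` of degree `< m` represents `s`, then `P Q ∣ P s~`, so `Q ∣ s~`. The hypothesis
`kf f x = s(ξ) = 0` gives `P ∣ s~`. `P` and `Q` are coprime because `X^m - 1` is squarefree (`p ∤ m`), so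
`X^m - 1 ∣ s~` and `s~ = 0`: all the `s_i` are zero. -/
def P_FUN : Prop :=
  ∀ (p : ℕ) [Fact p.Prime] (K M : Type) [Field K] [Field M] [Algebra K M] (m : ℕ)
    (δ : M ≃ₐ[K] M) (P : (ZMod p)[X]), 0 < m → m.Coprime p → δ ^ m = 1 → Irreducible P →
    P ∣ X ^ m - 1 →
  (∀ F : Mˣ → AdjoinRoot P, IsP δ P F → (∀ (c : (ZMod p)[X]) (x : Mˣ),
      F (pol c δ x) = AdjoinRoot.mk P c * F x) ∧ ∀ x, Pw p x → F x = 0) ∧
  ∀ f : Mˣ → ZMod p, Hom f → IsP δ P (kf m δ P f) ∧
    ∀ x : Mˣ, Pw p (pol P δ x) → kf m δ P f x = 0 → ∀ i : ℕ, f (act (δ ^ i) x) = 0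

/-- **P_SEP** (there are enough `P`-functionals). Let `G` be a subgroup of `Mˣ` which contains the `p`-th
powers and is stable under `δ`. (1) Let `x_1, ..., x_n` with `P(δ) x_i ∈ G` be independent modulo `G`: if
`∏ c_i(δ) x_i ∈ G` then `P ∣ c_i` for all `i`. There are `P`-functionals `ρ_1, ..., ρ_n`, trivial on `G`,
with `ρ_i(x_j) = δ_{ij}`. (2) If there are `Q^n` elements `x` with `P(δ) x ∈ G`, pairwise incongruent
modulo `G`, there are `n` `P`-functionals trivial on `G` which are linearly independent over `κ`.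

PROOF. Let `V = Mˣ/G` (an `F_p`-vector space because `G` contains the `p`-th powers), with the action of
`δ`, a module over `A = F_p[X]/(X^m - 1)` (`P ∣ X^m - 1`, `p ∤ m`); the class of `pol c δ x` is
`c` times the class of `x`. Let `V_P = {v : P v = 0}`, a vector space over `κ = F_p[X]/P`, and let
`e ∈ F_p[X]` with `e ≡ 1 mod P`, `e ≡ 0 mod (X^m - 1)/P` (coprime since `X^m - 1` is squarefree). The
multiplication by `e` is a projection `V → V_P` which commutes with `X`. For a `κ`-linear map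
`λ : V_P → κ` the map `x ↦ λ(e x)` is a `P`-functional trivial on `G`, and its restriction to `V_P` is
`λ`. (1) The classes of the `x_i` are in `V_P`, linearly independent over `κ`; take for the `λ_i`
extensions of the coordinate functionals of a basis of `V_P` which contains them. (2) `V_P` contains
`Q^n` elements; if its dimension over `κ` is finite it is `≥ n` (`|κ| = Q`); choose `n` linearly
independent elements of `V_P` and the corresponding coordinate functionals `λ_j`; if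
`∑ c_j λ_j(e x) = 0` for all `x` then `c_j = 0` (take for `x` the `n` elements). -/
def P_SEP : Prop :=
  ∀ (p : ℕ) [Fact p.Prime] (K M : Type) [Field K] [Field M] [Algebra K M] (m : ℕ)
    (δ : M ≃ₐ[K] M) (P : (ZMod p)[X]), 0 < m → m.Coprime p → δ ^ m = 1 → Irreducible P →
    P ∣ X ^ m - 1 →
  ∀ G : Subgroup Mˣ, (∀ x, Pw p x → x ∈ G) → (∀ x ∈ G, act δ x ∈ G) →
  (∀ (n : ℕ) (x : Fin n → Mˣ), (∀ i, pol P δ (x i) ∈ G) →
    (∀ c : Fin n → (ZMod p)[X], (∏ i, pol (c i) δ (x i)) ∈ G → ∀ i, P ∣ c i) →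
    ∃ rho : Fin n → Mˣ → AdjoinRoot P, (∀ i, IsP δ P (rho i)) ∧ (∀ i, ∀ x ∈ G, rho i x = 0) ∧
      ∀ i j, rho i (x j) = if i = j then 1 else 0) ∧
  ∀ n : ℕ, (∃ F : Finset Mˣ, F.card = p ^ (P.natDegree * n) ∧ (∀ x ∈ F, pol P δ x ∈ G) ∧
      ∀ x ∈ F, ∀ y ∈ F, x ≠ y → x / y ∉ G) →
    ∃ h : Fin n → Mˣ → AdjoinRoot P, (∀ j, IsP δ P (h j)) ∧ (∀ j, ∀ x ∈ G, h j x = 0) ∧
      ∀ c : Fin n → AdjoinRoot P, (∀ x, ∑ j, c j * h j x = 0) → c = 0

/-- **P_BAS** (basis of the `P`-part). Let `U` be a subgroup of `Mˣ` stable under `δ`, such that sets of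
elements `x ∈ U` with `P(δ) x` a `p`-th power, pairwise incongruent modulo `p`-th powers, have at most
`Q^n` elements. There are `r ≤ n` and `u_1, ..., u_r ∈ U` with `P(δ) u_i` a `p`-th power, independent
modulo `p`-th powers, such that every `x ∈ U` with `P(δ) x` a `p`-th power is congruent to some
`∏ c_i(δ) u_i` modulo `p`-th powers.

PROOF. Let `V = Mˣ/p`-th powers as in `P_SEP` (with `G` the `p`-th powers), and `V_U` the set of the
classes of the `x ∈ U` with `P(δ) x` a `p`-th power. It is a `κ`-subspace of `V_P` (`U` is a subgroup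
stable under `δ`, so stable under the `pol c δ`); it has at most `Q^n` elements, so its dimension is
`r ≤ n`. Take elements of `U` whose classes form a basis. -/
def P_BAS : Prop :=
  ∀ (p : ℕ) [Fact p.Prime] (K M : Type) [Field K] [Field M] [Algebra K M] (m : ℕ)
    (δ : M ≃ₐ[K] M) (P : (ZMod p)[X]), 0 < m → m.Coprime p → δ ^ m = 1 → Irreducible P →
    P ∣ X ^ m - 1 →
  ∀ U : Subgroup Mˣ, (∀ x ∈ U, act δ x ∈ U) → ∀ n : ℕ,
    (∀ F : Finset Mˣ, (∀ x ∈ F, x ∈ U ∧ Pw p (pol P δ x)) →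
      (∀ x ∈ F, ∀ y ∈ F, x ≠ y → ¬ Pw p (x / y)) → F.card ≤ p ^ (P.natDegree * n)) →
  ∃ r ≤ n, ∃ u : Fin r → Mˣ, (∀ i, u i ∈ U ∧ Pw p (pol P δ (u i))) ∧
    (∀ c : Fin r → (ZMod p)[X], Pw p (∏ i, pol (c i) δ (u i)) → ∀ i, P ∣ c i) ∧
    ∀ x ∈ U, Pw p (pol P δ x) → ∃ c : Fin r → (ZMod p)[X], Pw p (x / ∏ i, pol (c i) δ (u i))

/-- **P_OMG** (`ω`-functionals). Let `K₁/K` be Galois of degree prime to `p`, `ε` a primitive `p`-th root of
unity. (1) `wf f` is an `ω`-functional, and `wf f a = [K₁ : K] f(a)` for `a` of type `ω`; `ω`-functionals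
kill `p`-th powers. (2) For every `x ∈ K₁ˣ` there is `a` of type `ω` with `g(a) = g(x)` for all
`ω`-functionals `g`; if `x` is in a subgroup `G` stable under `Gal(K₁/K)` then `a ∈ G`; if `x` is
congruent modulo such a `G`, containing the `p`-th powers, to an element of type `ω`, then `a/x ∈ G`.
(3) An element `x ∈ K₁ˣ` of type `ω` has `p ∣ ord_Q(x)` for the primes `Q` with nontrivial decomposition
group in `Gal(K₁/K)`. (4) Elements of type `ω` form a subgroup.

PROOF. `σ ε = ε^(n(σ))` determines `n(σ)` modulo `p` (`ε` primitive; `σ ε` is a `p`-th root of unity, so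
the exponent exists), `nsig` is multiplicative with values in `F_pˣ` and injective if and only if `K₁ = K(ε)`
(not needed). (1) `wf f (τ x) = ∑_σ n(σ)⁻¹ f(σ τ x) = ∑_ρ n(ρ τ⁻¹)⁻¹ f(ρ x) = n(τ) wf f (x)`. If `a` is of
type `ω`, `σ a = a^(n(σ)) c^p` and `f(σ a) = n(σ) f(a)` (`f` is a homomorphism to `F_p`).
(2) Let `g₀ = [K₁ : K]`, prime to `p`. For `σ` let `k_σ ∈ ℕ` with `k_σ ≡ g₀⁻¹ n(σ)⁻¹ mod p`, and
`a = ∏_σ σ(x)^(k_σ)`. `τ a = ∏_σ (τσ)(x)^(k_σ) = ∏_ρ ρ(x)^(k_{τ⁻¹ρ})` and `k_{τ⁻¹ρ} ≡ n(τ) k_ρ`, so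
`τ a = a^(n(τ)) c^p` (the exponents differ by multiples of `p`, positive or negative; `c ∈ K₁ˣ`), which is
type `ω` for every exponent `n` with `τ ε = ε^n`. `g(a) = ∑_σ k_σ n(σ) g(x) = g(x)` (the number of `σ`
is `g₀`). `a ∈ G` if `x ∈ G` is stable. If `x ≡ b mod G`, `b` of type `ω`: `a ≡ ∏_σ σ(b)^(k_σ) ≡
b^(∑ k_σ n(σ)) ≡ b mod G` as `∑ k_σ n(σ) ≡ 1 mod p` and `G` contains the `p`-th powers.
(3) Let `σ ≠ 1` preserve the valuation of `Q`. By `gen` (`σ ε = ε` implies `σ = 1`) `n(σ) ≢ 1 mod p`, and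
`ord_Q(x) = ord_Q(σ x) ≡ n(σ) ord_Q(x) mod p`. (4) clear. -/
def P_OMG : Prop :=
  ∀ (p : ℕ) [Fact p.Prime] (K K₁ : Type) [Field K] [NumberField K] [Field K₁] [NumberField K₁]
    [Algebra K K₁] [IsGalois K K₁] (ε : K₁), IsPrimitiveRoot ε p →
    (∀ σ : K₁ ≃ₐ[K] K₁, σ ε = ε → σ = 1) → (finrank K K₁).Coprime p →
  (∀ f : K₁ˣ → ZMod p, Hom f → IsOm p K ε (wf p K ε f) ∧
    ∀ a : K₁ˣ, OmType p K ε (a : K₁) → wf p K ε f a = (finrank K K₁ : ZMod p) * f a) ∧
  (∀ g : K₁ˣ → ZMod p, IsOm p K ε g → ∀ x, Pw p x → g x = 0) ∧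
  (∀ x : K₁ˣ, ∃ a : K₁ˣ, OmType p K ε (a : K₁) ∧
    (∀ g : K₁ˣ → ZMod p, IsOm p K ε g → g a = g x) ∧
    ∀ G : Subgroup K₁ˣ, (∀ σ : K₁ ≃ₐ[K] K₁, ∀ y ∈ G, act σ y ∈ G) → (x ∈ G → a ∈ G) ∧
      ((∀ y, Pw p y → y ∈ G) → (∃ b : K₁ˣ, OmType p K ε (b : K₁) ∧ x / b ∈ G) → a / x ∈ G)) ∧
  (∀ x : K₁ˣ, OmType p K ε (x : K₁) → ∀ Q : HeightOneSpectrum (𝓞 K₁), ¬ FreeP K Q →
    (p : ℤ) ∣ ordv Q (x : K₁)) ∧
  ∀ x y : K₁ˣ, OmType p K ε (x : K₁) → OmType p K ε (y : K₁) →
    OmType p K ε ((x * y : K₁ˣ) : K₁) ∧ OmType p K ε ((x⁻¹ : K₁ˣ) : K₁)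

/-- **P_WSP** (there are enough `ω`-functionals). Let `G` be a subgroup of `K₁ˣ` of finite index which
contains the `p`-th powers, and `U` a subgroup, both stable under `Gal(K₁/K)`, such that the elements of
`U ∩ G` are `p`-th powers. There are: elements `u_1, ..., u_s ∈ U` of type `ω`, `ω`-functionals
`ρ_1, ..., ρ_s` trivial on `G` with `ρ_i(u_j) = δ_{ij}`, such that an element of type `ω` of `U` killed by
all the `ρ_i` is a `p`-th power; and linearly independent `ω`-functionals `χ_1, ..., χ_t`, trivial on `G`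
and on `U`, such that if `a` is of type `ω` and is killed by all the `χ_j`, then `a x ∈ G` for some
`x ∈ U` of type `ω`.

PROOF (from `P_OMG`). `V = K₁ˣ/G` is a finite `F_p`-vector space with an action of `Gal(K₁/K)`; let
`V^ω = {v : σ v = n(σ) v for all σ}`. The map of `P_OMG` (2), `x ↦ a`, induces a projection
`π : V → V^ω` (`π(v) = ∑_σ k_σ σ v`), and the `ω`-functionals trivial on `G` are the `λ ∘ π`,
`λ : V^ω → F_p` linear. Let `V_U ⊆ V^ω` be the subspace of the classes of the elements of type `ω` of `U`.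
It is also the image under `π` of the classes of all elements of `U` (`P_OMG` (2): `x ∈ U` gives
`a ∈ U`). Let `u_1, ..., u_s` be elements of `U` of type `ω` whose classes form a basis of `V_U`, and
extend the coordinates to linear forms on `V^ω`; `ρ_i = λ_i ∘ π`. If `x ∈ U` is of type `ω` and all
`ρ_i(x) = 0` then its class in `V` is zero (`π` is the identity on `V^ω`), so `x ∈ U ∩ G` is a `p`-th
power. Let `χ_j = μ_j ∘ π` where the `μ_j` are a basis of the linear forms on `V^ω` which vanish on `V_U`.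
They are linearly independent, trivial on `G`, and trivial on `U`. If `a` is of type `ω`, killed by the
`χ_j`, its class is in `V_U`: there is `x' ∈ U` of type `ω` with `a/x' ∈ G`; `x = x'⁻¹`. -/
def P_WSP : Prop :=
  ∀ (p : ℕ) [Fact p.Prime] (K K₁ : Type) [Field K] [NumberField K] [Field K₁] [NumberField K₁]
    [Algebra K K₁] [IsGalois K K₁] (ε : K₁), IsPrimitiveRoot ε p →
    (∀ σ : K₁ ≃ₐ[K] K₁, σ ε = ε → σ = 1) → (finrank K K₁).Coprime p →
  ∀ G U : Subgroup K₁ˣ, G.FiniteIndex → (∀ x, Pw p x → x ∈ G) →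
    (∀ σ : K₁ ≃ₐ[K] K₁, ∀ y ∈ G, act σ y ∈ G) → (∀ σ : K₁ ≃ₐ[K] K₁, ∀ y ∈ U, act σ y ∈ U) →
    (∀ x ∈ U, x ∈ G → Pw p x) →
  (∃ (s : ℕ) (u : Fin s → K₁ˣ) (rho : Fin s → K₁ˣ → ZMod p),
    (∀ i, u i ∈ U ∧ OmType p K ε ((u i : K₁ˣ) : K₁)) ∧ (∀ i, IsOm p K ε (rho i)) ∧
    (∀ i, ∀ x ∈ G, rho i x = 0) ∧ (∀ i j, rho i (u j) = if i = j then 1 else 0) ∧
    ∀ x ∈ U, OmType p K ε (x : K₁) → (∀ i, rho i x = 0) → Pw p x) ∧
  ∃ (t : ℕ) (ch : Fin t → K₁ˣ → ZMod p), (∀ j, IsOm p K ε (ch j)) ∧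
    (∀ j, ∀ x ∈ G, ch j x = 0) ∧ (∀ j, ∀ x ∈ U, ch j x = 0) ∧
    (∀ c : Fin t → ZMod p, (∀ x, ∑ j, c j * ch j x = 0) → c = 0) ∧
    ∀ a : K₁ˣ, OmType p K ε (a : K₁) → (∀ j, ch j a = 0) →
      ∃ x ∈ U, OmType p K ε (x : K₁) ∧ a * x ∈ G

/-- **P_LFI** (the group `LocS`). Let `F` be a number field, `Z` a finite set of primes of `F` which contains
the primes above `p`. The `x ∈ Fˣ` with `LocS p Z x` form a subgroup of finite index which contains the
`p`-th powers; if `Z` is stable under `Gal(F/K)` so is the subgroup. For `x` with `LocS p Z x` and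
`w ∈ Z`: `p ∣ ord_w(x)` and `LocPow p w x`.

PROOF. *Subgroup.* Let `A_w = {t ∈ Fˣ : w(t - 1) < 1 and w(t - 1) ≤ w(p)³}` (multiplicative notation for
the valuation). It is a subgroup of `Fˣ`: `t t' - 1 = (t - 1) t' + (t' - 1)`, `t⁻¹ - 1 = -(t - 1) t⁻¹`, and
`w(t) = 1`. `LocS p Z x` iff `x y^p ∈ A_w` for all `w ∈ Z`, for some `y`: a subgroup, which contains the
`p`-th powers (`y = x₀⁻¹` for `x = x₀^p`). *Finite index.* Let `𝔪 = p³ ∏_{w ∈ Z} w`. Let `x ∈ Fˣ`. There is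
`y ∈ Fˣ` with `0 ≤ ord_w(x y^p) < p` for all `w ∈ Z` (an element with given valuations at the finitely many
`w ∈ Z`: Chinese remainder theorem), and for each `n : Z → {0, ..., p-1}` fix `b_n ∈ Fˣ` with
`ord_w(b_n) = n w`. So `x` is congruent modulo `LocS` to an element `b_n t` with `ord_w(t) = 0` for all
`w ∈ Z`. Write `t = c/d` with `c, d ∈ 𝓞_F` outside of all the `w ∈ Z` (the denominator ideal of `t` is
prime to `Z`; choose `d` in it, prime to `Z`). The class of `t` modulo `⋂ A_w` is determined by the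
residue classes of `c` and `d` modulo `𝔪`: if `c ≡ c'` and `d ≡ d'` modulo `𝔪` then `c/c'` and `d/d'` are
in `A_w`. `𝓞_F/𝔪` is finite. *Galois stability.* For `g ∈ Gal(F/K)`, if `x y^p ∈ A_w` for all `w ∈ Z` then
`g(x) g(y)^p ∈ A_{g w}`, where `(g w)` is the prime with `(g w).valuation (g t) = w.valuation t`. The last
claims: `x y^p ∈ A_w` gives `ord_w(x) = -p ord_w(y)` and `LocPow`. -/
def P_LFI : Prop :=
  ∀ (p : ℕ) [Fact p.Prime] (K F : Type) [Field K] [NumberField K] [Field F] [NumberField F]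
    [Algebra K F] (Z : Set (HeightOneSpectrum (𝓞 F))), Z.Finite →
    (∀ w : HeightOneSpectrum (𝓞 F), w.valuation F (p : F) < 1 → w ∈ Z) →
    (∀ w ∈ Z, ∀ w', ConjP K w' w → w' ∈ Z) →
  ∃ G : Subgroup Fˣ, (∀ x, x ∈ G ↔ LocS p Z x) ∧ G.FiniteIndex ∧ (∀ x, Pw p x → x ∈ G) ∧
    (∀ σ : F ≃ₐ[K] F, ∀ y ∈ G, act σ y ∈ G) ∧
    ∀ x ∈ G, ∀ w ∈ Z, (p : ℤ) ∣ ordv w (x : F) ∧ LocPow p w (x : F)

/-- **P_SCH** (choice of `S`). In the tower `K ⊆ M, K₁ ⊆ M₁` there is a finite set `S` of primes of `K` which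
contains the primes above `p` and the primes which ramify in `M₁`, such that every divisor of `M`, `K₁`,
`M₁` is principal outside `S`, and an `S`-unit of `M`, or of `K₁`, which satisfies `LocS` is a `p`-th power.

PROOF (from `RP.S_SEX`, `RSP.SP_KUM`, `RS.S_PSM`, `RD.E_TOW`, `RD.E_TRF`). Let `S₀` be the union of the primes of
`K` above `p`, those ramified in `M₁` (finitely many: those dividing the discriminant, or: the primes `v`
below a prime `W` with `e(W/v) > 1`), and those below one of the primes of the finite sets given by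
`RP.S_SEX` for `M`, `K₁`, `M₁` (`Z = ∅`). (If every divisor is principal outside a set it is principal outside
every larger set.) For `v ∉ S₀`, `ord_W(x) = ord_v(x)` as `e(W/v) = 1`. The group of `S₀`-units of `M` is
finitely generated (kernel of the valuations at `up M S₀`: the units), so there are finitely many
`S₀`-units `x_1, ..., x_n` of `M`, not `p`-th powers, such that every `S₀`-unit is a `p`-th power or
congruent to some `x_i` modulo `p`-th powers. `x_i` is not a `p`-th power in `M₁` (if `x_i = y^p`,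
`x_i^g = N(y)^p` with `g = [M₁ : M]` prime to `p`). By `RSP.SP_KUM` for `M₁` the primes `W ∤ p` with
`LocPow p W x_i` satisfy `∑ N(W)^(-s) ≤ (1/p) log(1/(s-1)) + C`, and by `RS.S_PSM` all primes have sum
`≥ log(1/(s-1)) - C`; so there is `W_i ∉ up M₁ S₀` with `¬ LocPow p W_i x_i`, and `¬ LocPow p w_i x_i` for
`w_i = W_i ∩ M` (`E_TRF`). The same for `K₁` (`E_TRF` for `M₁/K₁`). Let `S` be the union of `S₀` and of the
primes of `K` below these `W_i` (for `M` and for `K₁`). Let `x` be an `S`-unit of `M` with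
`LocS p (up M S) x`. For `w ∈ up M S`, `p ∣ ord_w(x)` (see `P_LFI`), for `w ∉ up M S`, `ord_w(x) = 0`. By
principality outside `S₀` there is `y ∈ Mˣ` with `p ord_w(y) = ord_w(x)` for `w ∉ up M S₀`;
`x' = x y^(-p)` is an `S₀`-unit. If it is not a `p`-th power it is congruent to some `x_i`, and
`LocPow p w_i x` implies `LocPow p w_i x_i`, a contradiction. So `x` is a `p`-th power. The same for
`K₁`. -/
def P_SCH : Prop :=
  ∀ (p : ℕ) [Fact p.Prime] (K M K₁ M₁ : Type) [Field K] [NumberField K] [Field M] [NumberField M]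
    [Field K₁] [NumberField K₁] [Field M₁] [NumberField M₁] [Algebra K M] [Algebra K K₁]
    [Algebra K M₁] [Algebra M M₁] [Algebra K₁ M₁] [IsScalarTower K M M₁] [IsScalarTower K K₁ M₁]
    [IsGalois K M] [IsGalois K K₁] [IsGalois K M₁] (ε : K₁), Tower p K M K₁ M₁ ε →
  ∃ S : Finset (HeightOneSpectrum (𝓞 K)),
    (∀ v : HeightOneSpectrum (𝓞 K), v.valuation K (p : K) < 1 → v ∈ S) ∧
    (∀ v : HeightOneSpectrum (𝓞 K), v ∉ S → ∀ W : HeightOneSpectrum (𝓞 M₁), Above W v →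
      ∀ x : K, ordv W (algebraMap K M₁ x) = ordv v x) ∧
    (∀ n : HeightOneSpectrum (𝓞 M) →₀ ℤ, ∃ x : Mˣ, ∀ w ∉ up M S, ordv w (x : M) = n w) ∧
    (∀ n : HeightOneSpectrum (𝓞 K₁) →₀ ℤ, ∃ x : K₁ˣ, ∀ w ∉ up K₁ S, ordv w (x : K₁) = n w) ∧
    (∀ n : HeightOneSpectrum (𝓞 M₁) →₀ ℤ, ∃ x : M₁ˣ, ∀ w ∉ up M₁ S, ordv w (x : M₁) = n w) ∧
    (∀ x ∈ (up M S).unit M, LocS p (up M S) x → Pw p x) ∧
    ∀ x ∈ (up K₁ S).unit K₁, LocS p (up K₁ S) x → Pw p x

/-- **P_UPR** (primes above). Let `F/K` be Galois, and `S` a finite set of primes of `K`. `up F S` is finite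
and stable under `Gal(F/K)`. If `S` contains the primes above `p`, `up F S` contains the primes of `F` above
`p`. Every prime `w` of `F` is above a unique prime `v` of `K`, and `w ∉ up F S` iff `v ∉ S`. Every prime of
`K` has a prime of `F` above it, and two primes above the same prime are conjugate.

PROOF. Standard: a prime of `K` divides only finitely many primes of `F` (`v 𝓞_F ≠ 0`);
`w ∩ 𝓞_K` is a nonzero prime (integral extension), and `Gal(F/K)` acts transitively on the primes above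
`v`; `g w` and `w` are above the same prime. `w.valuation F p < 1` iff `p ∈ w` iff `p ∈ w ∩ 𝓞_K`. -/
def P_UPR : Prop :=
  ∀ (p : ℕ) (K F : Type) [Field K] [NumberField K] [Field F] [NumberField F] [Algebra K F]
    [IsGalois K F] (S : Finset (HeightOneSpectrum (𝓞 K))),
  (up F S).Finite ∧ (∀ w ∈ up F S, ∀ w', ConjP K w' w → w' ∈ up F S) ∧
    ((∀ v : HeightOneSpectrum (𝓞 K), v.valuation K (p : K) < 1 → v ∈ S) →
      ∀ w : HeightOneSpectrum (𝓞 F), w.valuation F (p : F) < 1 → w ∈ up F S) ∧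
    (∀ w : HeightOneSpectrum (𝓞 F), ∃ v : HeightOneSpectrum (𝓞 K), Above w v) ∧
    (∀ (w : HeightOneSpectrum (𝓞 F)) (v v' : HeightOneSpectrum (𝓞 K)), Above w v → Above w v' →
      v = v') ∧
    (∀ v : HeightOneSpectrum (𝓞 K), ∃ w : HeightOneSpectrum (𝓞 F), Above w v) ∧
    ∀ (v : HeightOneSpectrum (𝓞 K)) (w w' : HeightOneSpectrum (𝓞 F)), Above w v → Above w' v →
      ConjP K w' w

/-- **P_VIS** (the visible primes). In the tower, with `S` as in `Base`: if `W` is a prime of `M₁` with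
trivial decomposition group in `Gal(M₁/K)` above `v ∉ S` then the primes `w`, `Q` of `M`, `K₁` below `W`
have trivial decomposition groups over `K`, `W`, `w`, `Q`, `v` have the same norm, and `p` divides
`N(v) - 1`. Conversely if some primes `w` of `M` and `Q` of `K₁` above `v` have trivial decomposition
groups then so has every `W` above `v`. If `Q` above `v ∉ S` has trivial decomposition group in
`Gal(K₁/K)` then `N(Q) = N(v)` and `p ∣ N(v) - 1`.

PROOF. Let `W` be free over `K`, above `w` and `v`. If `g ∈ Gal(M/K)` preserves `w`, extend `g` to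
`g' ∈ Gal(M₁/K)` (`M/K` normal); `g' W` and `W` are above `w` (`w.valuation (g y) = w.valuation y`), so
there is `g'' ∈ Gal(M₁/M)` with `g'' g' W = W`; `g'' g' = 1`, so `g = 1`. The same for `K₁`. The
decomposition group of `W` in `Gal(M₁/K)` has order `e f` (see `RD.D_ORB`), so `f(W/v) = 1` and the
norms of `v ∣ w, Q ∣ W` are equal. `ε^i - 1`, `0 < i < p`, divides `p`, so it is a unit at `Q` (`v ∤ p`):
the `p`-th roots of unity are distinct modulo `Q`, so `p` divides `|(𝓞_{K₁}/Q)ˣ| = N(Q) - 1`. Converse: let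
`g ∈ Gal(M₁/K)` preserve `W`; all the primes `w`, `Q` above `v` have trivial decomposition groups (they are
conjugate); `g` restricted to `M` preserves `w = W ∩ M` (on `M` the valuation of `W` is a power of that of
`w`), so it is trivial on `M`, and on `K₁` for the same reason; `g = 1` by `lin`. -/
def P_VIS : Prop :=
  ∀ (p : ℕ) [Fact p.Prime] (K M K₁ M₁ : Type) [Field K] [NumberField K] [Field M] [NumberField M]
    [Field K₁] [NumberField K₁] [Field M₁] [NumberField M₁] [Algebra K M] [Algebra K K₁]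
    [Algebra K M₁] [Algebra M M₁] [Algebra K₁ M₁] [IsScalarTower K M M₁] [IsScalarTower K K₁ M₁]
    [IsGalois K M] [IsGalois K K₁] [IsGalois K M₁] (ε : K₁), Tower p K M K₁ M₁ ε →
  ∀ v : HeightOneSpectrum (𝓞 K), v.valuation K (p : K) = 1 →
  (∀ W : HeightOneSpectrum (𝓞 M₁), Above W v → FreeP K W →
    Ideal.absNorm W.asIdeal = Ideal.absNorm v.asIdeal ∧
    (∀ w : HeightOneSpectrum (𝓞 M), Above W w → FreeP K w ∧
      Ideal.absNorm w.asIdeal = Ideal.absNorm v.asIdeal ∧ Above w v) ∧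
    ∀ Q : HeightOneSpectrum (𝓞 K₁), Above W Q → FreeP K Q ∧
      Ideal.absNorm Q.asIdeal = Ideal.absNorm v.asIdeal ∧ Above Q v) ∧
  (∀ (w : HeightOneSpectrum (𝓞 M)) (Q : HeightOneSpectrum (𝓞 K₁)) (W : HeightOneSpectrum (𝓞 M₁)),
    Above w v → Above Q v → Above W v → FreeP K w → FreeP K Q → FreeP K W) ∧
  ∀ Q : HeightOneSpectrum (𝓞 K₁), Above Q v → FreeP K Q →
    Ideal.absNorm Q.asIdeal = Ideal.absNorm v.asIdeal ∧ p ∣ Ideal.absNorm v.asIdeal - 1

/-- **P_EXB** (existence of `Base`).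

PROOF (from `P_SCH`, `P_UPR`, `P_VIS`, `P_LFI`, `P_SEP`, `P_BAS`, `P_WSP`, `RP.S_UPB`; `exists_theta` of
`Pool/Agent/Helper42/RD/VAL.lean`). Let `S` be given by `P_SCH`. *Primes.* For `v ∈ Spl M₁ S` choose `W v`
free over `K`, above `v`, and let `w v`, `Q v` be the primes of `M`, `K₁` below `W v`; for the other
`v ∈ Spl K₁ S` choose `Q v` free above `v`. `Qa`, `Wa` by `P_VIS`. *Logarithms.* Let `vp v ∈ K` with
`ord_v = 1`; `ord_{W v}(vp v) = 1` by `unr`, `p ∣ N(W v) - 1` by `P_VIS`: `exists_theta` gives `th v`.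
*`z`, `y`* by principality (`prMK`, `prK`). *`P`-part.* `S_UPB` (with `d`, `s₀` such that
`[K : ℚ] = 2 d` and `m s₀` is the number of free primes of `up M S`) gives the hypothesis of `P_BAS` for
`U` = the `S`-units of `M` (stable under `δ`): `u_1, ..., u_r`. Let `G` be the group `LocS p (up M S)`
(`P_LFI`). The `u_i` are independent modulo `G`: if `x = ∏ c_i(δ) u_i ∈ G`, `x` is an `S`-unit in `G`, so a
`p`-th power by `P_SCH`, so `P ∣ c_i`. `P_SEP` (1) gives `rho`. `rho0`: let `x` be an `S`-unit with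
`P(δ) x` a `p`-th power, killed by the `rho i`; `x ≡ ∏ c_i(δ) u_i` modulo `p`-th powers, and by `P_FUN`
`0 = rho i x = c_i(ξ)`, so `c_i = P c_i'` and `c_i(δ) u_i` is a `p`-th power up to `p`-th powers
(`pol (P c') δ u ≡ pol c' δ (pol P δ u)`). *Type `ω`*: `P_WSP` with `G` the group `LocS p (up K₁ S)` and
`U` the `S`-units of `K₁`. -/
def P_EXB : Prop :=
  ∀ (p : ℕ) [Fact p.Prime] (k : Type) [NormedField k] [NormedAlgebra ℚ_[p] k]
    (K M K₁ M₁ : Type) [Field K] [NumberField K] [IsTotallyComplex K] [Field M] [NumberField M]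
    [Field K₁] [NumberField K₁] [Field M₁] [NumberField M₁] [Algebra K M] [Algebra K K₁]
    [Algebra K M₁] [Algebra M M₁] [Algebra K₁ M₁] [IsScalarTower K M M₁] [IsScalarTower K K₁ M₁]
    [IsGalois K M] [IsGalois K K₁] [IsGalois K M₁] (ε : K₁), Tower p K M K₁ M₁ ε →
  ∀ (m : ℕ) (δ : M ≃ₐ[K] M) (ζ : k) (Φ : ℤ_[p][X]) (P : (ZMod p)[X]), PhiData p m ζ Φ P →
    orderOf δ = m → finrank K M = m → TorOK P δ →
  Nonempty (Base p K M K₁ M₁ ε δ P)

/-- **P_EXT** (existence of `Tau`): enough conditions at `S` and at the places of `T`.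

PROOF (from `P_SEP`, `P_FUN`, `P_UPR`, `P_LFI`, `P_OMG`, `RD.D_VAL`, `RP.S_SUB`, `RP.S_UPB`, `RP.S_LOB`, `RP.S_BIN`,
`RP.S_NSP`, `RD.E_TRF`, `RD.E_TOW`, `RD.E_SHF`). Let `a = aτ` and `a* = (-1)^(p-1) a`.
*The datum.* Let `R` be the set of the `w ∈ up M S` with `FreeP K w` and `p ∤ ord_W(a)` for some prime `W` of
`M₁` above `w`. For such `w`, `W`, let `Q = W ∩ K₁`, `v` the prime of `K` below; `p ∤ ord_Q(a)` (`E_TRF`
for `M₁/K₁`), so `v ∤ p` by the hypothesis on `aτ`, and `Q` has trivial decomposition group in `Gal(K₁/K)` by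
`P_OMG` (3). So `e = f = 1` for `Q/v` and `w/v`, `K` is dense in the completions at `Q` and `w`,
`N(w) = N(v) = N(Q)` and `p ∣ N(v) - 1` (`ε` modulo `Q`). Choose for each such `v` one prime `Q_v` above `v`
with `p ∤ ord_{Q_v}(a)`; let `i, j ∈ ℤ` with `i ord_{Q_v}(a) + p j = 1`, `t = a*^i π^(p j)` with `π ∈ K₁`,
`ord_{Q_v}(π) = 1`, so `ord_{Q_v}(t) = 1`; choose `α_v ∈ K` with `ord_{Q_v}(α_v/t - 1) > 0` (`f = e = 1`:
an element of `𝓞_K` of `v ∖ v²` times an element of `𝓞_K` with the right residue). Then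
`ord_v(α_v) = 1 = ord_w(α_v)` for `w` above `v` and `α_v ≡ a*^i` up to local `p`-th powers at `Q_v`. As `i` is
prime to `p`, `a* α_v^(j')` is locally a `p`-th power at `Q_v` for some `j'` (`i j' ≡ -1 mod p`). By `E_SHF`
the same holds, with another `j'`, at every `Q` above `v`, and `p ∤ ord_Q(a)` for all of them. Put
`al w = α_v`. `(R, al)` is a datum (`IsDat`): stable, since all the primes above `v` are conjugate and the
condition `p ∤ ord_W(a)` holds for all the `W` above `v`.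
*Comparison.* Let `w ∈ up M S`, `FreeP K w`, `x ∈ Mˣ` with `LocAt p W a x` for all `W` above `w`. If
`w ∉ R` then `p ∣ ord_W(a)` and so `p ∣ ord_W(x)`, `p ∣ ord_w(x)` (`E_TRF`). If `w ∈ R`: `Tame p W a x`:
`x a*^i` is locally a `p`-th power at `W`, so `x α_v^(i')` is, for some `i'` (as in `RD.E_MAT`), at `W` and
at `w` (`E_TRF`). So `LocD p R al w x`. If `w ∈ up M S` is not free and `P(δ) x` is a `p`-th power then
`p ∣ ord_w(x)` by `RP.S_NSP`, `w ∉ R`, and `LocD p R al w x`.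
*The functionals.* Let `v'` be the local system of `D_VAL` for `(R, al)` and `up M S`, and `G` the group of
the `x` with `LSat L (above T) (up M S) v' x` (`S_SUB`): it contains the `p`-th powers and is stable under
`δ`. Let `m s₀` be the number of free primes of `up M S`, `d = |T|`, `[K : ℚ] = 2 d`. `S_LOB` gives
`p^(deg P (d + s₀))` elements `x` with `P(δ) x ∈ G`, pairwise incongruent modulo `G`; `P_SEP` (2) gives
`d + s₀` linearly independent `P`-functionals trivial on `G`. `B.r ≤ d + s₀`: the elements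
`∏ c_i(δ) u_i` with `deg c_i < deg P` are `S`-units with `P(δ)` of them a `p`-th power, pairwise
incongruent modulo `p`-th powers (apply the `rho i`: `rho i (∏ c_j(δ) u_j) = c_i(ξ)`, and
`p`-th powers are killed, `P_FUN`); there are `p^(deg P · r)` of them; compare with `S_UPB`. Let `h` be the
first `B.r` functionals.
*hL*: if `LocS p (up M S) x` then `x ∈ G`: at `w ∈ up M S`, `p ∣ ord_w(x)` and `LocPow p w x` (`P_LFI`), so
`LocD p R al w x` (with `i = 0`) and `v' x w = 0`. `LocSig L (above T) x`: let `y` be as in `LocS`; for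
`τ ∈ above T` the prime `𝔓_τ = {b ∈ 𝓞_M : ‖τ b‖ < 1}` is in `up M S`, and
`𝔓_τ.valuation (x y^p - 1) ≤ 𝔓_τ.valuation(p)³` gives `‖τ(x y^p - 1)‖ ≤ p^(-3)`; `S_BIN` gives
`LocSig (x y^p)`, hence `LocSig x`.
*hS*: by the comparison `LocD p R al w x` for all `w ∈ up M S`, so `v' x w = 0`; so `x ∈ G`. -/
def P_EXT : Prop :=
  ∀ (p : ℕ) [Fact p.Prime] (k : Type) [NormedField k] [NormedAlgebra ℚ_[p] k]
    [IsUltrametricDist k] [CompleteSpace k], Nonempty (AlgebraicClosure ℚ →+* k) →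
  ∀ (L : IwasawaLog p k) (K M K₁ M₁ : Type) [Field K] [NumberField K] [IsTotallyComplex K]
    [Field M] [NumberField M] [Field K₁] [NumberField K₁] [Field M₁] [NumberField M₁] [Algebra K M]
    [Algebra K K₁] [Algebra K M₁] [Algebra M M₁] [Algebra K₁ M₁] [IsScalarTower K M M₁]
    [IsScalarTower K K₁ M₁] [IsGalois K M] [IsGalois K K₁] [IsGalois K M₁] (ε : K₁),
    Tower p K M K₁ M₁ ε →
  ∀ (m : ℕ) (δ : M ≃ₐ[K] M) (ζ : k) (Φ : ℤ_[p][X]) (P : (ZMod p)[X]), PhiData p m ζ Φ P →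
    orderOf δ = m → finrank K M = m → TorOK P δ →
  ∀ T : Set (K →+* k), PlaceClosed T → finrank ℚ K = 2 * T.ncard →
  ∀ (B : Base p K M K₁ M₁ ε δ P) (aτ : K₁ˣ), OmType p K ε (aτ : K₁) →
    (∀ Q : HeightOneSpectrum (𝓞 K₁), Q.valuation K₁ (p : K₁) < 1 → (p : ℤ) ∣ ordv Q (aτ : K₁)) →
  Nonempty (Tau B L T aτ)

end Pool.Agent.Helper42.PP
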