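import Pool.Agent.Helper42.PP.NZY
import Pool.Agent.Helper11.RP.NSP
import Pool.Agent.Helper14.RD.TOW

/-!
# Project PP: packet P_SEL
-/

set_option autoImplicit false
set_option linter.unusedSectionVars false

namespace Pool.Agent.Helper42.PP

open NumberField Polynomial Module IsDedekindDomain Pool.Agent.Helper51.SigLeo
open Pool.Agent.Helper51.RP Pool.Agent.Helper42.RD
open Pool.Agent.Helper40.RS (bel gw bel_smul lies conj_of_bel free_gw absNorm_free val_smul)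
open Pool.Agent.Helper13.RD (eq_gw ram_free eq_of_val)
open Pool.Agent.Helper40.RD (bel_of_above ordW)

section gen

variable {p : ℕ} {F : Type} [Field F] [NumberField F] {w : HeightOneSpectrum (𝓞 F)}

theorem ord_of_locPow (hp : p ≠ 0) {x : F} (h : LocPow p w x) : (p : ℤ) ∣ ordv w x := by
  have hx := locPow_ne_zero w h
  obtain ⟨y, hy⟩ := h
  have h1 := val_eq_one_of_sub w hy
  have hy0 : y ≠ 0 := by
    rintro rfl
    rw [zero_pow hp, mul_zero, map_zero] at h1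
    exact zero_ne_one h1
  have h2 := (ordv_eq_zero_iff w (mul_ne_zero hx (pow_ne_zero p hy0))).2 h1
  rw [ordv_mul w hx (pow_ne_zero p hy0), ordv_pow] at h2
  exact ⟨-ordv w y, by linarith⟩

theorem hom_one {A : Type} [AddCommGroup A] {f : Fˣ → A} (hf : Hom f) : f 1 = 0 := by
  have h := hf 1 1
  rw [mul_one] at h
  exact (left_eq_add.1 h)

theorem hom_pow {A : Type} [AddCommGroup A] {f : Fˣ → A} (hf : Hom f) (x : Fˣ) (n : ℕ) :
    f (x ^ n) = n • f x := by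
  induction n with
  | zero => rw [pow_zero, zero_smul, hom_one hf]
  | succ n ih => rw [pow_succ, hf, ih, succ_nsmul]

theorem ordp_hom (p : ℕ) (w : HeightOneSpectrum (𝓞 F)) : Hom (ordp p w) := by
  intro a b
  show ((ordv w ((a : F) * (b : F)) : ℤ) : ZMod p) = _
  rw [ordv_mul _ a.ne_zero b.ne_zero]
  push_cast
  rfl

theorem ordp_zero_iff {p : ℕ} {w : HeightOneSpectrum (𝓞 F)} {x : Fˣ} :
    ordp p w x = 0 ↔ (p : ℤ) ∣ ordv w (x : F) := ZMod.intCast_zmod_eq_zero_iff_dvd _ _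

end gen

variable {p : ℕ} [Fact p.Prime] {k : Type} [NormedField k] [NormedAlgebra ℚ_[p] k]
  [IsUltrametricDist k]
  {K M K₁ M₁ : Type} [Field K] [NumberField K] [Field M] [NumberField M] [Field K₁]
  [NumberField K₁] [Field M₁] [NumberField M₁] [Algebra K M] [Algebra K K₁] [Algebra K M₁]
  [Algebra M M₁] [Algebra K₁ M₁] {ε : K₁} {δ : M ≃ₐ[K] M} {P : (ZMod p)[X]}

/-- The element `a*` in `M₁`. -/
noncomputable def ast (p : ℕ) (K₁ M₁ : Type) [Field K₁] [Field M₁] [Algebra K₁ M₁] (a : K₁ˣ) :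
    M₁ˣ := (-1) ^ (p - 1) * inc K₁ M₁ a

theorem val_p_one (B : Base p K M K₁ M₁ ε δ P) {v : HeightOneSpectrum (𝓞 K)} (hv : v ∉ B.S) :
    v.valuation K (p : K) = 1 := by
  have h1 : ¬ v.valuation K (p : K) < 1 := fun h => hv (B.abp v h)
  have h2 : v.valuation K (p : K) ≤ 1 := by
    have h3 : v.valuation K (algebraMap (𝓞 K) K (p : 𝓞 K)) ≤ 1 := v.valuation_le_one _
    rwa [map_natCast] at h3
  exact le_antisymm h2 (not_lt.1 h1)

/-- The condition at a visible ramified prime, for one element. -/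
theorem tame_eq (hNZY : P_NZY) (hs : Sit p k K M K₁ M₁ ε δ P) (B : Base p K M K₁ M₁ ε δ P)
    {v : HeightOneSpectrum (𝓞 K)} (hv : v ∈ B.Vis) (a : K₁ˣ)
    (ha : ordp p (B.Q v) a ≠ 0) (y : Mˣ)
    (hy : LocAt p (B.W v) (algebraMap K₁ M₁ (a : K₁)) (algebraMap M M₁ (y : M))) :
    ordp p (B.Q v) a * B.th v (inc M M₁ y) = ordp p (B.w v) y * B.th v (ast p K₁ M₁ a) := by
  have hp0 : p ≠ 0 := (Fact.out : p.Prime).ne_zero
  obtain ⟨h1, h2⟩ := (hNZY p k K M K₁ M₁ ε δ P hs B).2.2.2 v hv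
  have hn : ¬ (p : ℤ) ∣ ordv (B.W v) (algebraMap K₁ M₁ (a : K₁)) := by
    rw [h2]
    exact fun h => ha (ordp_zero_iff.2 h)
  obtain ⟨i, hi⟩ := hy.2 hn
  have e1 : algebraMap M M₁ (y : M) * ((-1) ^ (p - 1) * algebraMap K₁ M₁ (a : K₁)) ^ i =
      ((inc M M₁ y * (ast p K₁ M₁ a) ^ i : M₁ˣ) : M₁) := by
    simp [ast, inc]
  rw [e1] at hi
  have h3 : B.th v (inc M M₁ y * (ast p K₁ M₁ a) ^ i) = 0 := by
    rw [B.thk v hv]
    exact ⟨0, by rw [pow_zero, mul_one]; exact hi⟩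
  rw [B.thh v hv, hom_pow (B.thh v hv)] at h3
  have h4 := ord_of_locPow hp0 hi
  have h5 : ordp p (B.W v) (inc M M₁ y * (ast p K₁ M₁ a) ^ i) = 0 := ordp_zero_iff.2 h4
  rw [ordp_hom p (B.W v), hom_pow (ordp_hom p (B.W v))] at h5
  have h6 : ordp p (B.W v) (inc M M₁ y) = ordp p (B.w v) y := by
    show ((ordv (B.W v) (algebraMap M M₁ (y : M)) : ℤ) : ZMod p) = _
    rw [h1]; rfl
  have h7 : ordp p (B.W v) (ast p K₁ M₁ a) = ordp p (B.Q v) a := by
    have h8 : ordv (B.W v) ((ast p K₁ M₁ a : M₁ˣ) : M₁) = ordv (B.Q v) (a : K₁) := by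
      rw [← h2]
      have e2 : ((ast p K₁ M₁ a : M₁ˣ) : M₁) = (-1) ^ (p - 1) * algebraMap K₁ M₁ (a : K₁) := by
        simp [ast, inc]
      rw [e2]
      exact ordv_sg (B.W v) (p - 1) _
    show ((ordv (B.W v) ((ast p K₁ M₁ a : M₁ˣ) : M₁) : ℤ) : ZMod p) = _
    rw [h8]; rfl
  rw [h6, h7] at h5
  have h9 : B.th v (inc M M₁ y) = -(i • B.th v (ast p K₁ M₁ a)) := eq_neg_of_add_eq_zero_left h3
  have h10 : ordp p (B.w v) y = -(i • ordp p (B.Q v) a) := eq_neg_of_add_eq_zero_left h5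
  rw [h9, h10]
  simp only [nsmul_eq_mul]
  ring


/-- Sums over the labelled primes of `a`. -/
theorem mem_lab (B : Base p K M K₁ M₁ ε δ P) {a : K₁ˣ} (hfin : (B.labs a).Finite) (q : B.LP) :
    q ∈ B.lab a ↔ ordp p (B.Q q.1.1) a = (q.1.2 : ZMod p) := by
  unfold Base.lab
  rw [dif_pos hfin, Set.Finite.mem_toFinset]
  rfl

open Classical in
/-- The primes of `calP` at which the label of `a` is not zero. -/
noncomputable def zz (B : Base p K M K₁ M₁ ε δ P) (a : K₁ˣ) :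
    Finset (HeightOneSpectrum (𝓞 K)) := (B.lab a).image fun q ↦ q.1.1

theorem lab_inj (B : Base p K M K₁ M₁ ε δ P) {a : K₁ˣ} (hfin : (B.labs a).Finite) :
    Set.InjOn (fun q : B.LP ↦ q.1.1) (B.lab a : Set B.LP) := by
  intro q hq q' hq' h
  have h1 := (mem_lab B hfin q).1 (Finset.mem_coe.1 hq)
  have h2 := (mem_lab B hfin q').1 (Finset.mem_coe.1 hq')
  have h' : q.1.1 = q'.1.1 := h
  rw [h', h2] at h1
  apply Subtype.ext
  apply Prod.ext h'
  exact (Units.ext h1).symm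

theorem mem_zz (B : Base p K M K₁ M₁ ε δ P) {a : K₁ˣ} (hfin : (B.labs a).Finite)
    (v : HeightOneSpectrum (𝓞 K)) :
    v ∈ zz B a ↔ v ∈ B.calP ∧ ordp p (B.Q v) a ≠ 0 := by
  classical
  unfold zz
  rw [Finset.mem_image]
  constructor
  · rintro ⟨q, hq, rfl⟩
    refine ⟨q.2, ?_⟩
    rw [(mem_lab B hfin q).1 hq]
    exact Units.ne_zero _
  · rintro ⟨h1, h2⟩
    exact ⟨⟨(v, Units.mk0 _ h2), h1⟩, (mem_lab B hfin _).2 rfl, rfl⟩

theorem sum_lab {A : Type} [AddCommMonoid A] (B : Base p K M K₁ M₁ ε δ P) {a : K₁ˣ}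
    (hfin : (B.labs a).Finite) (f : HeightOneSpectrum (𝓞 K) → A) :
    ∑ q ∈ B.lab a, f q.1.1 = ∑ v ∈ zz B a, f v := by
  classical
  unfold zz
  rw [Finset.sum_image]
  intro q hq q' hq' h
  exact lab_inj B hfin hq hq' h

/-- The support of the Selmer element. -/
theorem sel_supp (hOMG : P_OMG) (hVIS : P_VIS) (hLAB : P_LAB) [Fact (Irreducible P)]
    (hs : Sit p k K M K₁ M₁ ε δ P) (L : IwasawaLog p k) (T : Set (K →+* k))
    (B : Base p K M K₁ M₁ ε δ P) (aτ : K₁ˣ) (E : Tau B L T aτ) (haτ : OmType p K ε (aτ : K₁))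
    (a : K₁ˣ) (ha : OmType p K ε (a : K₁)) (x : Mˣ)
    (hx : Sel L (above T) P δ (algebraMap K₁ M₁ (a : K₁)) x)
    (w : HeightOneSpectrum (𝓞 M)) (hw : w ∉ up M B.S) (hn : ¬ (p : ℤ) ∣ ordv w (x : M)) :
    ∃ v ∈ B.Vis, Above w v ∧ ordp p (B.Q v) a ≠ 0 := by
  have := hs.st1
  have := hs.st2
  have := hs.gM
  have := hs.gK
  have := hs.gMK
  obtain ⟨ζ, Φ, hphi⟩ := hs.phi
  have hcopK : (finrank K K₁).Coprime p := by
    have h1 := Pool.Agent.Helper14.RD.finrank_dvd_pred p K K₁ ε hs.tow.prim hs.tow.gen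
    exact Nat.Coprime.coprime_dvd_left h1 ((Nat.coprime_self_sub_left
      (Fact.out : p.Prime).one_le).2 (Nat.coprime_one_left p))
  obtain ⟨g1, g2, c1, c2, -, -⟩ := Pool.Agent.Helper14.RD.e_tow p K M K₁ M₁ ε hs.tow
  have hfree : FreeP K w := by
    by_contra hf
    exact hn (Pool.Agent.Helper11.RP.s_nsp p k K M (finrank K M) δ ζ Φ P hphi hs.ord rfl w hf x
      hx.pol)
  obtain ⟨W, hW⟩ := exists_bel (M₁ := M₁) w
  have hWw : Above W w := by rw [← hW]; rfl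
  obtain ⟨v, hv⟩ : ∃ v, v = bel K w := ⟨_, rfl⟩
  have hvS : v ∉ B.S := by rw [hv]; exact bel_notMem hw
  have hwv : Above w v := by rw [hv]; rfl
  have hWv : Above W v := by
    have h1 := bel_bel (K := K) (M := M) W
    rw [hW, ← hv] at h1
    rw [h1]; rfl
  obtain ⟨Q, hQ⟩ : ∃ Q, Q = bel K₁ W := ⟨_, rfl⟩
  have hWQ : Above W Q := by rw [hQ]; rfl
  have hQv : Above Q v := bel_of hWv hWQ
  have hna : ¬ (p : ℤ) ∣ ordv W (algebraMap K₁ M₁ (a : K₁)) := by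
    intro h
    exact hn (((Pool.Agent.Helper40.RD.e_trf p M M₁ c1 W w hWw).1 (x : M)).1
      ((hx.loc W).1 h))
  have hnQ : ¬ (p : ℤ) ∣ ordv Q (a : K₁) := by
    intro h
    exact hna (((Pool.Agent.Helper40.RD.e_trf p K₁ M₁ c2 W Q hWQ).1 (a : K₁)).2 h)
  have hQf : FreeP K Q := by
    by_contra hf
    exact hnQ ((hOMG p K K₁ ε hs.tow.prim hs.tow.gen hcopK).2.2.2.1 a ha Q hf)
  have hcalP : v ∈ B.calP := ⟨hvS, Q, hQv, hQf⟩
  have hWf : FreeP K W := (hVIS p K M K₁ M₁ ε hs.tow v (val_p_one B hvS)).2.1 w Q W hwv hQv hWv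
    hfree hQf
  refine ⟨v, ⟨hvS, W, hWv, hWf⟩, hwv, ?_⟩
  intro h0
  exact hna ((((hLAB p k K M K₁ M₁ ε δ P hs L T B aτ E haτ).1 a ha).2.1 v hcalP W hWv).2 h0)

theorem sel_act (hSLG : P_SLG) (hs : Sit p k K M K₁ M₁ ε δ P) (L : IwasawaLog p k)
    (T : Set (K →+* k)) (a : K₁ˣ) (ha : OmType p K ε (a : K₁)) (x : Mˣ)
    (hx : Sel L (above T) P δ (algebraMap K₁ M₁ (a : K₁)) x) (i : ℕ) :
    Sel L (above T) P δ (algebraMap K₁ M₁ (a : K₁)) (act (δ ^ i) x) := by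
  induction i with
  | zero =>
    have h1 : act (δ ^ 0) x = x := by
      rw [pow_zero]; exact Units.ext rfl
    rw [h1]; exact hx
  | succ i ih =>
    have h1 : act (δ ^ (i + 1)) x = act δ (act (δ ^ i) x) := by
      rw [pow_succ']; exact Units.ext rfl
    rw [h1]
    exact (hSLG p k K M K₁ M₁ ε δ P hs L T ∅ a ha).1 _ ih

/-- The condition at a visible ramified prime. -/
theorem sel_loc (hNZY : P_NZY) (hSLG : P_SLG) (hs : Sit p k K M K₁ M₁ ε δ P)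
    (L : IwasawaLog p k) (T : Set (K →+* k)) (B : Base p K M K₁ M₁ ε δ P) (a : K₁ˣ)
    (ha : OmType p K ε (a : K₁)) (x : Mˣ)
    (hx : Sel L (above T) P δ (algebraMap K₁ M₁ (a : K₁)) x)
    {v : HeightOneSpectrum (𝓞 K)} (hv : v ∈ B.Vis) (he : ordp p (B.Q v) a ≠ 0) :
    algebraMap (ZMod p) (AdjoinRoot P) (ordp p (B.Q v) a) * B.R v x =
      B.nv v x * algebraMap (ZMod p) (AdjoinRoot P) (B.th v (ast p K₁ M₁ a)) := by
  unfold Base.R Base.nv kf
  rw [Finset.mul_sum, Finset.sum_mul]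
  refine Finset.sum_congr rfl fun i _ => ?_
  have h1 := tame_eq hNZY hs B hv a he (act (δ ^ i) x)
    ((sel_act hSLG hs L T a ha x hx i).loc (B.W v))
  rw [← mul_assoc, ← map_mul, h1, map_mul]
  ring

/-- The value of the logarithm at `a*`. -/
theorem th_ast (hDEW : P_DEW) (hs : Sit p k K M K₁ M₁ ε δ P) (B : Base p K M K₁ M₁ ε δ P)
    (a aτ : K₁ˣ) (ha : OmType p K ε (a : K₁)) (hfin : (B.labs a).Finite)
    (hloc : LocS p (up K₁ B.S) (a / aτ)) {v : HeightOneSpectrum (𝓞 K)} (hv : v ∈ B.Vis) :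
    B.th v (ast p K₁ M₁ a) = B.sv aτ v + ∑ l ∈ zz B a, ordp p (B.Q l) a * B.pi v l := by
  have h1 := (hDEW p k K M K₁ M₁ ε δ P hs B a ha (zz B a)
    (fun v hv => ((mem_zz B hfin v).1 hv).1)
    (fun v hv hn => by
      by_contra h
      exact hn ((mem_zz B hfin v).2 ⟨hv, h⟩))).2.2 v hv
  have h2 : ∀ i, B.rw i a = B.rw i aτ := by
    intro i
    have h3 := B.rwL i _ hloc
    have h4 := (B.rwO i).1 (a / aτ) aτ
    rw [div_mul_cancel, h3, zero_add] at h4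
    exact h4
  unfold ast
  rw [B.thh v hv, h1]
  unfold Base.sv
  simp only [h2]
  ring

open Classical in
/-- The coefficients of the Selmer element. -/
noncomputable def cc (B : Base p K M K₁ M₁ ε δ P) (a : K₁ˣ) (x : Mˣ) (q : B.LP) :
    AdjoinRoot P := if q ∈ B.lab a ∧ q.1.1 ∈ B.Vis then B.nv q.1.1 x else 0

open Classical in
theorem sum_cc (B : Base p K M K₁ M₁ ε δ P) {a : K₁ˣ} (hfin : (B.labs a).Finite) (x : Mˣ)
    (f : HeightOneSpectrum (𝓞 K) → AdjoinRoot P) :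
    ∑ q ∈ B.lab a, cc B a x q * f q.1.1 =
      ∑ v ∈ (zz B a).filter (fun v ↦ v ∈ B.Vis), B.nv v x * f v := by
  rw [Finset.sum_filter, ← sum_lab B hfin]
  refine Finset.sum_congr rfl fun q hq => ?_
  unfold cc
  by_cases h : q.1.1 ∈ B.Vis
  · rw [if_pos ⟨hq, h⟩, if_pos h]
  · rw [if_neg (fun h' => h h'.2), if_neg h, zero_mul]

open Classical in
theorem sum_e (B : Base p K M K₁ M₁ ε δ P) {a : K₁ˣ} (hfin : (B.labs a).Finite)
    (f : HeightOneSpectrum (𝓞 K) → ZMod p) :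
    ∑ q ∈ B.lab a, (q.1.2 : ZMod p) * f q.1.1 =
      ∑ l ∈ zz B a, ordp p (B.Q l) a * f l := by
  rw [← sum_lab B hfin]
  refine Finset.sum_congr rfl fun q hq => ?_
  rw [(mem_lab B hfin q).1 hq]

theorem sum_er {A C : Type} [AddCommGroup C] {f : A → C} {inst : DecidableEq A}
    (s : Finset A) {q : A} (hq : q ∈ s) :
    ∑ x ∈ @Finset.erase A inst s q, f x = ∑ x ∈ s, f x - f q := Finset.sum_erase_eq_sub hq

theorem sys_lam0 [Fact (Irreducible P)] {L : IwasawaLog p k} {T : Set (K →+* k)}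
    (B : Base p K M K₁ M₁ ε δ P) {aτ : K₁ˣ} (E : Tau B L T aτ) (t : Fin B.r → AdjoinRoot P)
    (j : Fin B.r) : (B.sys E).lam₀ t j = ∑ i, t i * E.h j (B.u i) := by
  show (LinearMap.pi (R := AdjoinRoot P) (fun j ↦
    ∑ i, (LinearMap.proj i).smulRight (E.h j (B.u i))) t j : AdjoinRoot P) = _
  rw [LinearMap.pi_apply, LinearMap.sum_apply]
  rfl

theorem sys_lam [Fact (Irreducible P)] {L : IwasawaLog p k} {T : Set (K →+* k)}
    (B : Base p K M K₁ M₁ ε δ P) {aτ : K₁ˣ} (E : Tau B L T aτ) (q : B.LP) (c : AdjoinRoot P)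
    (j : Fin B.r) : (B.sys E).lam q c j = c * B.til (E.h j) (nrm M M₁ (B.z q.1.1)) := rfl

theorem sys_res [Fact (Irreducible P)] {L : IwasawaLog p k} {T : Set (K →+* k)}
    (B : Base p K M K₁ M₁ ε δ P) {aτ : K₁ˣ} (E : Tau B L T aτ) (q : B.LP)
    (t : Fin B.r → AdjoinRoot P) :
    (B.sys E).res q t = ∑ i, t i * B.R q.1.1 (B.u i) := by
  show ((∑ i, (LinearMap.proj i).smulRight (B.R q.1.1 (B.u i)) :
    (Fin B.r → AdjoinRoot P) →ₗ[AdjoinRoot P] AdjoinRoot P) t : AdjoinRoot P) = _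
  rw [LinearMap.sum_apply]
  rfl

theorem p_sel (hFUN : P_FUN) (hNZY : P_NZY) (hOMG : P_OMG) (hVIS : P_VIS) (hDEC : P_DEC)
    (hDEW : P_DEW) (hLAB : P_LAB) (hSLG : P_SLG) : P_SEL := by
  classical
  intro p _ k _ _ _ K M K₁ M₁ _ _ _ _ _ _ _ _ _ _ _ _ _ ε δ P _ hs L T B aτ E haτ a ha hloc
  rintro ⟨x, hx, hnx⟩
  obtain ⟨hfin, -, -, -⟩ := (hLAB p k K M K₁ M₁ ε δ P hs L T B aτ E haτ).1 a ha
  -- P_DEC applies
  obtain ⟨d1, d2⟩ := hDEC p k K M K₁ M₁ ε δ P hs B x hx.pol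
    ((zz B a).filter (fun v ↦ v ∈ B.Vis)) (fun v hv => (Finset.mem_filter.1 hv).2) (by
      intro w hw h
      by_contra hn
      obtain ⟨v, hv, hwv, he⟩ := sel_supp hOMG hVIS hLAB hs L T B aτ E haτ a ha x hx w hw hn
      refine h v (Finset.mem_filter.2 ⟨(mem_zz B hfin v).2 ⟨?_, he⟩, hv⟩) hwv
      obtain ⟨hvS, W, hW, hWf⟩ := hv
      have := hs.st1
      have := hs.st2
      have := hs.gM
      have := hs.gK
      have := hs.gMK
      obtain ⟨Q, hQ⟩ : ∃ Q, Q = bel K₁ W := ⟨_, rfl⟩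
      have hWQ : Above W Q := by rw [hQ]; rfl
      have h1 := ((hVIS p K M K₁ M₁ ε hs.tow v (val_p_one B hvS)).1 W hW hWf).2.2 Q hWQ
      exact ⟨hvS, Q, h1.2.2, h1.1⟩)
  refine ⟨fun i => B.rho i x, cc B a x, ⟨?_, ?_, ?_⟩, ?_⟩
  · -- supp
    intro q hq
    by_contra h
    exact hq (if_neg h)
  · -- lam
    funext j
    have h1 : E.h j x = 0 := E.hS j x hx.pol
      (fun W hW => ((hSLG p k K M K₁ M₁ ε δ P hs L T B.S a ha).2 aτ hloc W hW _).1 (hx.loc W))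
      hx.sig
    have h2 := d1 (E.h j) (E.hP j)
    rw [h1] at h2
    have h3 := sum_cc B hfin x (fun v => B.til (E.h j) (nrm M M₁ (B.z v)))
    show ((B.sys E).lam₀ (fun i => B.rho i x) + ∑ q ∈ B.lab a, (B.sys E).lam q (cc B a x q)) j = 0
    rw [Pi.add_apply, Finset.sum_apply, sys_lam0]
    simp only [sys_lam]
    rw [h3]
    exact h2.symm
  · -- loc
    intro q hq hsp
    have hv : q.1.1 ∈ B.Vis := hsp
    have he : ordp p (B.Q q.1.1) a = (q.1.2 : ZMod p) := (mem_lab B hfin q).1 hq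
    have he0 : (q.1.2 : ZMod p) ≠ 0 := Units.ne_zero _
    have h1 := sel_loc hNZY hSLG hs L T B a ha x hx hv (by rw [he]; exact he0)
    rw [th_ast hDEW hs B a aτ ha hfin hloc hv, he, ← sum_e B hfin (fun l => B.pi q.1.1 l)] at h1
    obtain ⟨ζ, Φ, hphi⟩ := hs.phi
    have hth := B.thh q.1.1 hv
    have h2 := d1 (B.R q.1.1) ((hFUN p K M (finrank K M) δ P finrank_pos hphi.copm
      (by rw [← hs.ord]; exact pow_orderOf_eq_one δ) hphi.irr hphi.dvdP).2 _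
      (fun y z => by rw [map_mul, hth])).1
    have h3 := sum_cc B hfin x (fun v => B.A q.1.1 v)
    have h4 : cc B a x q = B.nv q.1.1 x := if_pos ⟨hq, hv⟩
    have h5 : (B.sys E).R (B.lab a) (fun i => B.rho i x) (cc B a x) q =
        B.R q.1.1 x - B.nv q.1.1 x * algebraMap (ZMod p) (AdjoinRoot P) ((q.1.2 : ZMod p)⁻¹ *
          (B.sv aτ q.1.1 + ∑ q' ∈ B.lab a, (q'.1.2 : ZMod p) * B.pi q.1.1 q'.1.1)) := by
      unfold Pool.Agent.Helper17.PP.Sys.R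
      rw [sys_res, sum_er (B.lab a) hq, sum_er (B.lab a) hq]
      show _ + (∑ q' ∈ B.lab a, cc B a x q' * B.A q.1.1 q'.1.1 -
          cc B a x q * B.A q.1.1 q.1.1) +
        cc B a x q * ((B.A q.1.1 q.1.1 - algebraMap (ZMod p) (AdjoinRoot P)
          ((q.1.2 : ZMod p)⁻¹ * B.sv aτ q.1.1 + B.pi q.1.1 q.1.1)) +
          (∑ q' ∈ B.lab a, algebraMap (ZMod p) (AdjoinRoot P)
            (- ((q'.1.2 : ZMod p) * (q.1.2 : ZMod p)⁻¹ * B.pi q.1.1 q'.1.1)) -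
            algebraMap (ZMod p) (AdjoinRoot P)
            (- ((q.1.2 : ZMod p) * (q.1.2 : ZMod p)⁻¹ * B.pi q.1.1 q.1.1)))) = _
      rw [h3, h2, h4, ← map_sum, mul_inv_cancel₀ he0]
      have h6 : ∑ q' ∈ B.lab a,
          (- ((q'.1.2 : ZMod p) * (q.1.2 : ZMod p)⁻¹ * B.pi q.1.1 q'.1.1)) =
          - ((q.1.2 : ZMod p)⁻¹ * ∑ q' ∈ B.lab a, (q'.1.2 : ZMod p) * B.pi q.1.1 q'.1.1) := by
        rw [Finset.mul_sum, ← Finset.sum_neg_distrib]
        exact Finset.sum_congr rfl fun q' _ => by ring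
      rw [h6]
      simp only [map_mul, map_add, map_neg, map_one, Base.A]
      ring
    rw [h5, map_mul]
    have h7 : algebraMap (ZMod p) (AdjoinRoot P) (q.1.2 : ZMod p) *
        algebraMap (ZMod p) (AdjoinRoot P) ((q.1.2 : ZMod p)⁻¹) = 1 := by
      rw [← map_mul, mul_inv_cancel₀ he0, map_one]
    linear_combination (algebraMap (ZMod p) (AdjoinRoot P) ((q.1.2 : ZMod p)⁻¹)) * h1 -
      (B.R q.1.1 x) * h7
  · -- nonzero
    rintro ⟨h1, h2⟩
    refine hnx (d2 (fun i => congrFun h1 i) ?_)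
    intro v hv
    obtain ⟨hv1, hv2⟩ := Finset.mem_filter.1 hv
    unfold zz at hv1
    obtain ⟨q, hq, rfl⟩ := Finset.mem_image.1 hv1
    have h3 := congrFun h2 q
    unfold cc at h3
    rw [if_pos ⟨hq, hv2⟩] at h3
    exact h3

end Pool.Agent.Helper42.PP
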