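import Pool.Agent.Helper88.PP.Goals

set_option autoImplicit false

open Finset
open scoped Classical

namespace Pool.Agent.Helper42.PP
open Pool.Agent.Helper88.PP

theorem sf_dvd {z r d : ℕ} (h : Sf z r) (hd : d ∣ r) : Sf z d :=
  ⟨h.1.squarefree_of_dvd hd, fun p hp hpd => h.2 p hp (hpd.trans hd)⟩

theorem mem_SS {z X r : ℕ} : r ∈ SS z X ↔ 1 ≤ r ∧ r < X ∧ Sf z r := by
  simp [SS, and_assoc]

theorem zero_notMem_SS {z X : ℕ} : (0 : ℕ) ∉ SS z X := by
  simp [mem_SS]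

theorem DL_mem {z X r d : ℕ} (hr : r ∈ insert 0 (SS z X)) (hd : d ∈ DL r) :
    d ∈ insert 0 (SS z X) ∧ (d = 0 ↔ r = 0) := by
  unfold DL at hd
  split_ifs at hd with h0
  · rw [mem_singleton] at hd
    subst hd; subst h0; simp
  · have hrS : r ∈ SS z X := (mem_insert.mp hr).resolve_left h0
    rw [Nat.mem_divisors] at hd
    have hr' := mem_SS.mp hrS
    have hdpos : 0 < d := Nat.pos_of_dvd_of_pos hd.1 (Nat.pos_of_ne_zero h0)
    refine ⟨mem_insert_of_mem (mem_SS.mpr ⟨hdpos, lt_of_le_of_lt (Nat.le_of_dvd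
      (Nat.pos_of_ne_zero h0) hd.1) hr'.2.1, sf_dvd hr'.2.2 hd.1⟩), ?_⟩
    constructor
    · intro h; omega
    · intro h; exact absurd h h0

theorem squarefree_lcm' {a b : ℕ} (ha : Squarefree a) (hb : Squarefree b) :
    Squarefree (Nat.lcm a b) := by
  have ha0 : a ≠ 0 := ha.ne_zero
  have hb0 : b ≠ 0 := hb.ne_zero
  rw [Nat.squarefree_iff_factorization_le_one (Nat.lcm_ne_zero ha0 hb0)]
  intro p
  rw [Nat.factorization_lcm ha0 hb0]
  exact max_le ((Nat.squarefree_iff_factorization_le_one ha0).mp ha p)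
    ((Nat.squarefree_iff_factorization_le_one hb0).mp hb p)

theorem LL_mem {z X d e : ℕ} (hd : d ∈ insert 0 (SS z X)) (he : e ∈ insert 0 (SS z X))
    (hne : d ≠ 0 ∨ e ≠ 0) : LL d e ∈ SS z (X ^ 2) := by
  have hXX : ∀ r, r ∈ SS z X → r ∈ SS z (X ^ 2) := by
    intro r hr
    rw [mem_SS] at hr ⊢
    exact ⟨hr.1, lt_of_lt_of_le hr.2.1 (by nlinarith [hr.1, hr.2.1]), hr.2.2⟩
  unfold LL
  split_ifs with h1 h2
  · exact hXX _ ((mem_insert.mp he).resolve_left (hne.resolve_left (not_not.mpr h1)))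
  · exact hXX _ ((mem_insert.mp hd).resolve_left h1)
  · have h3 := mem_SS.mp ((mem_insert.mp hd).resolve_left h1)
    have h4 := mem_SS.mp ((mem_insert.mp he).resolve_left h2)
    rw [mem_SS]
    refine ⟨Nat.pos_of_ne_zero (Nat.lcm_ne_zero h1 h2), ?_, squarefree_lcm' h3.2.2.1 h4.2.2.1, ?_⟩
    · have h5 : Nat.lcm d e ≤ d * e := Nat.le_of_dvd (Nat.mul_pos h3.1 h4.1)
        (Nat.lcm_dvd_mul d e)
      have : d * e < X ^ 2 := by
        rw [pow_two]; exact Nat.mul_lt_mul'' h3.2.1 h4.2.1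
      omega
    · intro p hp hpd
      rcases (Nat.Prime.dvd_lcm hp).mp hpd with h | h
      · exact h3.2.2.2 p hp h
      · exact h4.2.2.2 p hp h

/-- pairs of labels, not both zero -/
noncomputable def Qn (z X : ℕ) : Finset (ℕ × ℕ) :=
  ((insert 0 (SS z X)) ×ˢ (insert 0 (SS z X))).filter (fun q => q.1 ≠ 0 ∨ q.2 ≠ 0)

theorem fiber_card {z X f : ℕ} (hf : f ∈ SS z (X ^ 2)) :
    (((Qn z X).filter (fun c => LL c.1 c.2 = f)).card : ℝ) ≤ 3 * (3 : ℝ) ^ f.primeFactors.card := by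
  have hfp := mem_SS.mp hf
  have hsub : (Qn z X).filter (fun c => LL c.1 c.2 = f) ⊆
      {(f, 0), (0, f)} ∪ (f.divisors ×ˢ f.divisors).filter (fun p => p.1.lcm p.2 = f) := by
    rintro ⟨d, e⟩ hc
    rw [mem_filter, Qn, mem_filter] at hc
    obtain ⟨⟨_, hne⟩, hL⟩ := hc
    simp only at hL hne
    rw [mem_union]
    unfold LL at hL
    split_ifs at hL with h1 h2
    · left; simp [h1, hL]
    · left; simp [h2, hL]
    · right
      rw [mem_filter, mem_product, Nat.mem_divisors, Nat.mem_divisors]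
      simp only
      have hf0 : f ≠ 0 := by omega
      exact ⟨⟨⟨hL ▸ Nat.dvd_lcm_left d e, hf0⟩, ⟨hL ▸ Nat.dvd_lcm_right d e, hf0⟩⟩, hL⟩
  have h1 : ((Qn z X).filter (fun c => LL c.1 c.2 = f)).card ≤ 2 + 3 ^ f.primeFactors.card := by
    refine (card_le_card hsub).trans ((card_union_le _ _).trans ?_)
    refine Nat.add_le_add (card_le_two) ?_
    have h2 := Nat.card_pair_lcm_eq hfp.2.2.1
    rw [ArithmeticFunction.cardDistinctFactors_apply] at h2
    rw [h2]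
    have h3 : f.primeFactorsList.dedup.length = f.primeFactors.card := by
      rw [Nat.primeFactors, List.card_toFinset]
    rw [h3]
  have h2 : (1 : ℝ) ≤ (3 : ℝ) ^ f.primeFactors.card := one_le_pow₀ (by norm_num)
  calc (((Qn z X).filter (fun c => LL c.1 c.2 = f)).card : ℝ)
      ≤ ((2 + 3 ^ f.primeFactors.card : ℕ) : ℝ) := by exact_mod_cast h1
    _ = 2 + (3 : ℝ) ^ f.primeFactors.card := by push_cast; ring
    _ ≤ 3 * (3 : ℝ) ^ f.primeFactors.card := by linarith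

theorem kap_le (d : ℕ) : |kap d| ≤ if d = 0 then 1 else (d : ℝ) := by
  unfold kap
  split_ifs with h
  · simp
  · rw [abs_mul, Nat.abs_cast]
    have : |((ArithmeticFunction.moebius d : ℤ) : ℝ)| ≤ 1 := by
      rw [← Int.cast_abs]
      exact_mod_cast ArithmeticFunction.abs_moebius_le_one
    nlinarith [Nat.cast_nonneg (α := ℝ) d]

theorem single {z X : ℕ} (a : ℕ → ℝ) (ha : ∀ r, 0 ≤ a r) (ha0 : a 0 ≤ 1) {C o : ℝ} (hC : 1 ≤ C)
    (ho : 0 ≤ o)
    (h : ∀ d ∈ SS z X, (d : ℝ) * ∑ r ∈ (SS z X).filter (fun r => d ∣ r), a r ≤ C)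
    (χ : ℕ → ℝ) (hχ : ∀ n, 0 ≤ χ n) :
    ∑ q ∈ Qn z X, a q.1 * a q.2 * ∑ c ∈ DL q.1 ×ˢ DL q.2,
        |kap c.1| * |kap c.2| * dd o (LL c.1 c.2) * χ (LL c.1 c.2)
      ≤ o * (3 * C ^ 2 * ∑ f ∈ SS z (X ^ 2), (3 : ℝ) ^ f.primeFactors.card / f * χ f) := by
  set U := insert 0 (SS z X) with hU
  have hA : ∀ d ∈ U, |kap d| * ∑ r ∈ U.filter (fun r => d ∈ DL r), a r ≤ C := by
    intro d hd
    by_cases h0 : d = 0
    · have : U.filter (fun r => d ∈ DL r) ⊆ {0} := by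
        intro r hr
        rw [mem_filter] at hr
        rw [mem_singleton]
        exact (DL_mem hr.1 hr.2).2.mp h0
      have h1 : ∑ r ∈ U.filter (fun r => d ∈ DL r), a r ≤ 1 :=
        (sum_le_sum_of_subset_of_nonneg this (fun i _ _ => ha i)).trans (by simpa using ha0)
      have h2 : |kap d| = 1 := by simp [kap, h0]
      rw [h2, one_mul]; exact h1.trans hC
    · have hdS : d ∈ SS z X := (mem_insert.mp hd).resolve_left h0
      have : U.filter (fun r => d ∈ DL r) ⊆ (SS z X).filter (fun r => d ∣ r) := by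
        intro r hr
        rw [mem_filter] at hr ⊢
        have h3 := (DL_mem hr.1 hr.2).2
        have h4 : r ≠ 0 := fun h4 => h0 (h3.mpr h4)
        refine ⟨(mem_insert.mp hr.1).resolve_left h4, ?_⟩
        have h5 := hr.2
        unfold DL at h5
        rw [if_neg h4] at h5
        exact Nat.dvd_of_mem_divisors h5
      have h1 : ∑ r ∈ U.filter (fun r => d ∈ DL r), a r ≤
          ∑ r ∈ (SS z X).filter (fun r => d ∣ r), a r :=
        sum_le_sum_of_subset_of_nonneg this (fun i _ _ => ha i)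
      have h2 : |kap d| ≤ d := by
        have := kap_le d
        rwa [if_neg h0] at this
      exact (mul_le_mul h2 h1 (sum_nonneg fun i _ => ha i) (Nat.cast_nonneg d)).trans (h d hdS)
  have hAnn : ∀ d, 0 ≤ |kap d| * ∑ r ∈ U.filter (fun r => d ∈ DL r), a r :=
    fun d => mul_nonneg (abs_nonneg _) (sum_nonneg fun i _ => ha i)
  have hdd : ∀ d, 0 ≤ dd o d := by
    intro d; unfold dd; split_ifs
    · exact zero_le_one
    · positivity
  have step1 : ∑ q ∈ Qn z X, a q.1 * a q.2 * ∑ c ∈ DL q.1 ×ˢ DL q.2,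
        |kap c.1| * |kap c.2| * dd o (LL c.1 c.2) * χ (LL c.1 c.2)
      = ∑ c ∈ Qn z X, (|kap c.1| * ∑ r ∈ U.filter (fun r => c.1 ∈ DL r), a r) *
          (|kap c.2| * ∑ r ∈ U.filter (fun r => c.2 ∈ DL r), a r) *
          (dd o (LL c.1 c.2) * χ (LL c.1 c.2)) := by
    simp_rw [mul_sum (s := DL _ ×ˢ DL _)]
    rw [sum_comm' (s' := fun c => (U ×ˢ U).filter (fun q => c.1 ∈ DL q.1 ∧ c.2 ∈ DL q.2))
      (t' := Qn z X)]
    · refine sum_congr rfl fun c _ => ?_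
      have e1 : (U ×ˢ U).filter (fun q => c.1 ∈ DL q.1 ∧ c.2 ∈ DL q.2) =
          (U.filter (fun r => c.1 ∈ DL r)) ×ˢ (U.filter (fun r => c.2 ∈ DL r)) := by
        ext q; simp only [mem_filter, mem_product]; tauto
      rw [e1, sum_product]
      simp only [mul_sum, sum_mul]
      refine sum_comm.trans (sum_congr rfl fun _ _ => sum_congr rfl fun _ _ => by ring)
    · rintro ⟨r, s⟩ ⟨d, e⟩
      simp only [Qn, mem_filter, mem_product]
      constructor
      · rintro ⟨⟨⟨hr, hs⟩, hne⟩, hd, he⟩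
        have h1 := DL_mem hr hd
        have h2 := DL_mem hs he
        refine ⟨⟨⟨hr, hs⟩, hd, he⟩, ⟨h1.1, h2.1⟩, ?_⟩
        rw [Ne, Ne, h1.2, h2.2]; exact hne
      · rintro ⟨⟨⟨hr, hs⟩, hd, he⟩, _, hne⟩
        have h1 := DL_mem hr hd
        have h2 := DL_mem hs he
        refine ⟨⟨⟨hr, hs⟩, ?_⟩, hd, he⟩
        rw [Ne, Ne, h1.2, h2.2] at hne; exact hne
  rw [step1]
  have step2 : ∑ c ∈ Qn z X, (|kap c.1| * ∑ r ∈ U.filter (fun r => c.1 ∈ DL r), a r) *
          (|kap c.2| * ∑ r ∈ U.filter (fun r => c.2 ∈ DL r), a r) *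
          (dd o (LL c.1 c.2) * χ (LL c.1 c.2))
      ≤ ∑ c ∈ Qn z X, C ^ 2 * (dd o (LL c.1 c.2) * χ (LL c.1 c.2)) := by
    refine sum_le_sum fun c hc => ?_
    have hc' := (mem_filter.mp hc).1
    rw [mem_product] at hc'
    refine mul_le_mul_of_nonneg_right ?_ (mul_nonneg (hdd _) (hχ _))
    rw [pow_two]
    exact mul_le_mul (hA _ hc'.1) (hA _ hc'.2) (hAnn _) (by linarith)
  refine step2.trans ?_
  have hmaps : ∀ c ∈ Qn z X, LL c.1 c.2 ∈ SS z (X ^ 2) := by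
    intro c hc
    rw [Qn, mem_filter, mem_product] at hc
    exact LL_mem hc.1.1 hc.1.2 hc.2
  rw [← sum_fiberwise_of_maps_to hmaps]
  rw [mul_sum, mul_sum]
  refine sum_le_sum fun f hf => ?_
  have hfp := mem_SS.mp hf
  have hf0 : f ≠ 0 := by omega
  have e2 : ∑ c ∈ (Qn z X).filter (fun c => LL c.1 c.2 = f),
      C ^ 2 * (dd o (LL c.1 c.2) * χ (LL c.1 c.2)) =
      (((Qn z X).filter (fun c => LL c.1 c.2 = f)).card : ℝ) * (C ^ 2 * (o / f * χ f)) := by
    rw [← nsmul_eq_mul, ← sum_const]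
    refine sum_congr rfl fun c hc => ?_
    rw [(mem_filter.mp hc).2]
    simp [dd, hf0]
  rw [e2]
  have h3 : 0 ≤ C ^ 2 * (o / f * χ f) := by
    have := hχ f
    positivity
  refine (mul_le_mul_of_nonneg_right (fiber_card hf) h3).trans (le_of_eq ?_)
  ring

/-- the sum over the multiples of `p` -/
theorem sum_dvd {z Y p : ℕ} (hp : p.Prime) :
    ∑ f ∈ SS z Y, (3 : ℝ) ^ f.primeFactors.card / f * (if p ∣ f then 1 else 0) ≤
      3 / p * ∑ f ∈ SS z Y, (3 : ℝ) ^ f.primeFactors.card / f := by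
  have h1 : ∑ f ∈ SS z Y, (3 : ℝ) ^ f.primeFactors.card / f * (if p ∣ f then 1 else 0) =
      ∑ f ∈ (SS z Y).filter (fun f => p ∣ f), (3 : ℝ) ^ f.primeFactors.card / f := by
    rw [sum_filter]
    refine sum_congr rfl fun f _ => ?_
    split_ifs <;> simp
  rw [h1]
  have hinj : Set.InjOn (fun f => f / p) ((SS z Y).filter (fun f => p ∣ f) : Finset ℕ) := by
    intro a ha b hb hab
    have h2 := (mem_filter.mp (mem_coe.mp ha)).2
    have h3 := (mem_filter.mp (mem_coe.mp hb)).2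
    simp only at hab
    rw [← Nat.div_mul_cancel h2, hab, Nat.div_mul_cancel h3]
  have h4 : ∑ f ∈ (SS z Y).filter (fun f => p ∣ f), (3 : ℝ) ^ f.primeFactors.card / f =
      ∑ f ∈ (SS z Y).filter (fun f => p ∣ f),
        3 / p * ((3 : ℝ) ^ (f / p).primeFactors.card / ((f / p : ℕ) : ℝ)) := by
    refine sum_congr rfl fun f hf => ?_
    rw [mem_filter, mem_SS] at hf
    obtain ⟨⟨hf1, _, hsf⟩, g, rfl⟩ := hf
    have hg0 : g ≠ 0 := by rintro rfl; simp at hf1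
    have hp0 : (p : ℝ) ≠ 0 := Nat.cast_ne_zero.mpr hp.ne_zero
    have hg0' : (g : ℝ) ≠ 0 := Nat.cast_ne_zero.mpr hg0
    have hcop : Nat.Coprime p g := by
      have := hsf.1
      rw [Nat.squarefree_mul_iff] at this
      exact this.1
    rw [Nat.mul_div_cancel_left _ hp.pos, Nat.Coprime.primeFactors_mul hcop,
      card_union_of_disjoint hcop.disjoint_primeFactors, hp.primeFactors, card_singleton]
    push_cast
    rw [pow_add, pow_one]
    field_simp
  rw [h4, ← mul_sum]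
  refine mul_le_mul_of_nonneg_left ?_ (by positivity)
  rw [← sum_image (f := fun g : ℕ => (3 : ℝ) ^ g.primeFactors.card / (g : ℝ)) hinj]
  refine sum_le_sum_of_subset_of_nonneg ?_ (fun _ _ _ => by positivity)
  intro g hg
  rw [mem_image] at hg
  obtain ⟨f, hf, rfl⟩ := hg
  rw [mem_filter, mem_SS] at hf
  obtain ⟨⟨hf1, hf2, hsf⟩, g, rfl⟩ := hf
  have hg0 : g ≠ 0 := by rintro rfl; simp at hf1
  rw [Nat.mul_div_cancel_left _ hp.pos, mem_SS]
  refine ⟨Nat.pos_of_ne_zero hg0, ?_, sf_dvd hsf (Dvd.intro_left p rfl)⟩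
  have := hp.one_lt
  nlinarith [Nat.pos_of_ne_zero hg0]

theorem sum_inv_sq {z M : ℕ} (hz : 1 ≤ z) :
    ∑ p ∈ (Ioc z M).filter Nat.Prime, 9 / (p : ℝ) ^ 2 ≤ 9 / (z : ℝ) := by
  have h1 : ∀ M : ℕ, z ≤ M → ∑ n ∈ Ioc z M, 9 / (n : ℝ) ^ 2 ≤ 9 / (z : ℝ) - 9 / (M : ℝ) := by
    intro M hM
    induction M, hM using Nat.le_induction with
    | base => simp
    | succ M hzM ih =>
      rw [Finset.sum_Ioc_succ_top hzM]
      have hM : 1 ≤ M := hz.trans hzM
      have hM' : (1 : ℝ) ≤ M := by exact_mod_cast hM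
      have h3 : 9 / ((M + 1 : ℕ) : ℝ) ^ 2 ≤ 9 / (M : ℝ) - 9 / ((M + 1 : ℕ) : ℝ) := by
        push_cast
        rw [div_sub_div _ _ (by positivity) (by positivity), div_le_div_iff₀ (by positivity)
          (by positivity)]
        nlinarith
      linarith
  have h3 : ∑ p ∈ (Ioc z M).filter Nat.Prime, 9 / (p : ℝ) ^ 2 ≤ ∑ n ∈ Ioc z M, 9 / (n : ℝ) ^ 2 :=
    sum_le_sum_of_subset_of_nonneg (filter_subset _ _) (fun _ _ _ => by positivity)
  refine h3.trans ?_
  rcases le_total z M with h | h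
  · refine (h1 M h).trans ?_
    have : (0 : ℝ) ≤ 9 / (M : ℝ) := by positivity
    linarith
  · rw [Ioc_eq_empty (by omega), sum_empty]
    positivity

/-- the weight of a pair of labels, with a function `χ` of the product label -/
noncomputable def Hf (a : ℕ → ℝ) (o : ℝ) (χ : ℕ → ℝ) (q : ℕ × ℕ) : ℝ :=
  a q.1 * a q.2 * ∑ c ∈ DL q.1 ×ˢ DL q.2,
    |kap c.1| * |kap c.2| * dd o (LL c.1 c.2) * χ (LL c.1 c.2)

theorem dd_nonneg {o : ℝ} (ho : 0 ≤ o) (d : ℕ) : 0 ≤ dd o d := by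
  unfold dd; split_ifs
  · exact zero_le_one
  · positivity

theorem Hf_nonneg {a : ℕ → ℝ} {o : ℝ} {χ : ℕ → ℝ} (ha : ∀ r, 0 ≤ a r) (ho : 0 ≤ o)
    (hχ : ∀ n, 0 ≤ χ n) (q : ℕ × ℕ) : 0 ≤ Hf a o χ q := by
  unfold Hf
  refine mul_nonneg (mul_nonneg (ha _) (ha _)) (sum_nonneg fun c _ => ?_)
  exact mul_nonneg (mul_nonneg (mul_nonneg (abs_nonneg _) (abs_nonneg _)) (dd_nonneg ho _)) (hχ _)

/-- the factor at the point `i` -/
noncomputable def chi {ι : Type} (j k : ι) (p : ℕ) (i : ι) (f : ℕ) : ℝ :=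
  if i = j ∨ i = k then (if p ∣ f then 1 else 0) else 1

theorem chi_nonneg {ι : Type} (j k : ι) (p : ℕ) (i : ι) (f : ℕ) : 0 ≤ chi j k p i f := by
  unfold chi; split_ifs <;> norm_num

/-- the pairs of labels at the point `i` when the set of nonzero labels is `B` -/
noncomputable def Pf {ι : Type} (z X : ℕ) (B : Finset ι) (i : ι) : Finset (ℕ × ℕ) :=
  if i ∈ B then Qn z X else {(0, 0)}

/-- fixed set of nonzero labels, general factors -/
theorem fixedB {ι : Type} [Fintype ι] [DecidableEq ι] {z X : ℕ} {o : ℝ} (ho : 0 ≤ o)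
    (T : Finset (ι → ℕ)) (al : ι → ℕ → ℝ) (hal : ∀ i r, 0 ≤ al i r)
    (hT : ∀ r ∈ T, ∀ i, r i = 0 ∨ r i ∈ SS z X) (B : Finset ι) (χ : ι → ℕ → ℝ)
    (hχ : ∀ i n, 0 ≤ χ i n) :
    ∑ q ∈ (T ×ˢ T).filter (fun q => univ.filter (fun i => q.1 i ≠ 0 ∨ q.2 i ≠ 0) = B),
      ∏ i, Hf (al i) o (χ i) (q.1 i, q.2 i) ≤
    ∏ i, ∑ q ∈ Pf z X B i, Hf (al i) o (χ i) q := by
  rw [prod_univ_sum]
  have hinj : Set.InjOn (fun (q : (ι → ℕ) × (ι → ℕ)) (i : ι) => (q.1 i, q.2 i))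
      ((T ×ˢ T).filter (fun q => univ.filter (fun i => q.1 i ≠ 0 ∨ q.2 i ≠ 0) = B) :
        Finset ((ι → ℕ) × (ι → ℕ))) := by
    rintro ⟨a, b⟩ _ ⟨c, d⟩ _ h
    simp only at h
    have h1 : a = c := by funext i; exact congrArg Prod.fst (congrFun h i)
    have h2 : b = d := by funext i; exact congrArg Prod.snd (congrFun h i)
    rw [h1, h2]
  rw [← sum_image (f := fun (x : ι → ℕ × ℕ) => ∏ i, Hf (al i) o (χ i) (x i)) hinj]
  refine sum_le_sum_of_subset_of_nonneg ?_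
    (fun _ _ _ => prod_nonneg fun i _ => Hf_nonneg (hal i) ho (hχ i) _)
  intro x hx
  rw [mem_image] at hx
  obtain ⟨⟨r, s⟩, hq, rfl⟩ := hx
  rw [mem_filter, mem_product] at hq
  obtain ⟨⟨hr, hs⟩, hB⟩ := hq
  rw [Fintype.mem_piFinset]
  intro i
  simp only at hr hs hB ⊢
  unfold Pf
  have hiB : i ∈ B ↔ (r i ≠ 0 ∨ s i ≠ 0) := by rw [← hB]; simp
  split_ifs with hi
  · rw [Qn, mem_filter, mem_product, mem_insert, mem_insert]
    exact ⟨⟨hT r hr i, hT s hs i⟩, hiB.mp hi⟩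
  · rw [hiB] at hi
    push Not at hi
    rw [mem_singleton, hi.1, hi.2]

theorem Hf_zero {a : ℕ → ℝ} {o : ℝ} {χ : ℕ → ℝ} (ha : ∀ r, 0 ≤ a r) (ha0 : a 0 ≤ 1)
    (hχ0 : χ 0 = 1) : Hf a o χ (0, 0) ≤ 1 := by
  have h1 : DL 0 = {0} := by simp [DL]
  have h2 : LL 0 0 = 0 := by simp [LL]
  have h3 : kap 0 = 1 := by simp [kap]
  have h4 : dd o 0 = 1 := by simp [dd]
  unfold Hf
  simp only [h1, singleton_product_singleton, sum_singleton, h2, h3, h4, hχ0, abs_one, mul_one]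
  nlinarith [ha 0]

theorem prod_ite_card {ι : Type} [Fintype ι] [DecidableEq ι] (S : Finset ι) (c : ℝ) :
    ∏ i, (if i ∈ S then c else 1) = c ^ S.card := by
  rw [Finset.prod_ite_mem, univ_inter, prod_const]

theorem expand {ι : Type} [Fintype ι] [DecidableEq ι] (al : ι → ℕ → ℝ) (o : ℝ)
    (χ : ι → ℕ → ℝ) (r s : ι → ℕ) :
    (∏ i, (al i (r i) * al i (s i))) *
      ∑ d ∈ Fintype.piFinset (fun i => DL (r i)), ∑ e ∈ Fintype.piFinset (fun i => DL (s i)),
        (∏ i, (|kap (d i)| * |kap (e i)| * dd o (LL (d i) (e i)))) *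
          ∏ i, χ i (LL (d i) (e i))
      = ∏ i, Hf (al i) o (χ i) (r i, s i) := by
  unfold Hf
  simp only [sum_product]
  have h0 := Finset.prod_mul_distrib (s := (univ : Finset ι))
    (f := fun i => al i (r i) * al i (s i)) (g := fun i => ∑ d ∈ DL (r i), ∑ e ∈ DL (s i),
      |kap d| * |kap e| * dd o (LL d e) * χ i (LL d e))
  refine Eq.trans ?_ h0.symm
  congr 1
  rw [prod_univ_sum]
  refine sum_congr rfl fun d _ => ?_
  rw [prod_univ_sum]
  refine sum_congr rfl fun e _ => ?_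
  rw [← prod_mul_distrib]

theorem nc_le {ι : Type} [Fintype ι] [DecidableEq ι] {z X : ℕ} (B : Finset ι) (f : ι → ℕ)
    (hB : ∀ i, f i ≠ 0 → i ∈ B) (hf : ∀ i, f i ≠ 0 → f i ∈ SS z (X ^ 2)) :
    nc f ≤ ∑ jk ∈ B.offDiag, ∑ p ∈ (Ioc z (X ^ 2)).filter Nat.Prime,
      ∏ i, chi jk.1 jk.2 p i (f i) := by
  unfold nc
  split_ifs with h
  · exact sum_nonneg fun _ _ => sum_nonneg fun _ _ => prod_nonneg fun _ _ => chi_nonneg _ _ _ _ _
  · push Not at h
    obtain ⟨j, k, hjk, hj, hk, hcop⟩ := h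
    obtain ⟨p, hp, hpj, hpk⟩ :=
      Nat.Prime.not_coprime_iff_dvd.mp (show ¬ Nat.Coprime (f j) (f k) from hcop)
    have hjS := mem_SS.mp (hf j hj)
    have hmem1 : (j, k) ∈ B.offDiag := by
      rw [mem_offDiag]; exact ⟨hB j hj, hB k hk, hjk⟩
    have hmem2 : p ∈ (Ioc z (X ^ 2)).filter Nat.Prime := by
      rw [mem_filter, mem_Ioc]
      exact ⟨⟨hjS.2.2.2 p hp hpj, (Nat.le_of_dvd (by omega) hpj).trans hjS.2.1.le⟩, hp⟩
    have h1 : ∏ i, chi j k p i (f i) = 1 := by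
      refine prod_eq_one fun i _ => ?_
      unfold chi
      by_cases hi : i = j ∨ i = k
      · rw [if_pos hi, if_pos]
        rcases hi with rfl | rfl
        · exact hpj
        · exact hpk
      · rw [if_neg hi]
    calc (1 : ℝ) = ∏ i, chi j k p i (f i) := h1.symm
      _ ≤ ∑ p ∈ (Ioc z (X ^ 2)).filter Nat.Prime, ∏ i, chi j k p i (f i) :=
          single_le_sum (f := fun p => ∏ i, chi j k p i (f i))
            (fun _ _ => prod_nonneg fun _ _ => chi_nonneg _ _ _ _ _) hmem2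
      _ ≤ _ := single_le_sum (f := fun jk : ι × ι =>
            ∑ p ∈ (Ioc z (X ^ 2)).filter Nat.Prime, ∏ i, chi jk.1 jk.2 p i (f i))
            (fun _ _ => sum_nonneg fun _ _ => prod_nonneg fun _ _ => chi_nonneg _ _ _ _ _) hmem1

theorem coord {ι : Type} [Fintype ι] [DecidableEq ι] {z X : ℕ} {o C : ℝ} (ho : 0 ≤ o)
    (hC : 1 ≤ C) (al : ι → ℕ → ℝ) (hal : ∀ i r, 0 ≤ al i r) (hal0 : ∀ i, al i 0 ≤ 1)
    (h : ∀ i, ∀ d ∈ SS z X, (d : ℝ) * ∑ r ∈ (SS z X).filter (fun r => d ∣ r), al i r ≤ C)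
    (B : Finset ι) (i : ι) :
    ∑ q ∈ Pf z X B i, Hf (al i) o (fun _ => 1) q ≤
      (if i ∈ B then
        o * (3 * C ^ 2 * ∑ e ∈ SS z (X ^ 2), (3 : ℝ) ^ e.primeFactors.card / e) else 1) := by
  unfold Pf
  split_ifs with hi
  · have h1 := single (al i) (hal i) (hal0 i) hC ho (h i) (fun _ => 1) (fun _ => zero_le_one)
    simp only [mul_one] at h1
    unfold Hf
    simp only [mul_one]
    exact h1
  · rw [sum_singleton]
    exact Hf_zero (hal i) (hal0 i) rfl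

theorem coord_p {ι : Type} [Fintype ι] [DecidableEq ι] {z X : ℕ} {o C : ℝ} (ho : 0 ≤ o)
    (hC : 1 ≤ C) (al : ι → ℕ → ℝ) (hal : ∀ i r, 0 ≤ al i r) (hal0 : ∀ i, al i 0 ≤ 1)
    (h : ∀ i, ∀ d ∈ SS z X, (d : ℝ) * ∑ r ∈ (SS z X).filter (fun r => d ∣ r), al i r ≤ C)
    (B : Finset ι) (j k : ι) (hj : j ∈ B) (hk : k ∈ B) {p : ℕ} (hp : p.Prime) (i : ι) :
    ∑ q ∈ Pf z X B i, Hf (al i) o (chi j k p i) q ≤
      (if i ∈ B then
        o * (3 * C ^ 2 * ∑ e ∈ SS z (X ^ 2), (3 : ℝ) ^ e.primeFactors.card / e) else 1) *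
      (if i ∈ ({j, k} : Finset ι) then 3 / (p : ℝ) else 1) := by
  by_cases hi : i ∈ ({j, k} : Finset ι)
  · have hi' : i = j ∨ i = k := by simpa using hi
    have hiB : i ∈ B := by
      rcases hi' with rfl | rfl
      · exact hj
      · exact hk
    rw [if_pos hiB, if_pos hi]
    have hchi : chi j k p i = fun f => if p ∣ f then (1 : ℝ) else 0 := by
      funext f; unfold chi; rw [if_pos hi']
    unfold Pf
    rw [if_pos hiB, hchi]
    have h1 := single (al i) (hal i) (hal0 i) hC ho (h i)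
      (fun f => if p ∣ f then (1 : ℝ) else 0) (fun _ => by split_ifs <;> norm_num)
    refine (le_trans (le_of_eq ?_) h1).trans ?_
    · rfl
    · have h2 := sum_dvd (z := z) (Y := X ^ 2) hp
      calc o * (3 * C ^ 2 * ∑ f ∈ SS z (X ^ 2), (3 : ℝ) ^ f.primeFactors.card / f *
              (if p ∣ f then 1 else 0))
          ≤ o * (3 * C ^ 2 * (3 / p * ∑ f ∈ SS z (X ^ 2), (3 : ℝ) ^ f.primeFactors.card / f)) := by
            gcongr
        _ = _ := by ring
  · rw [if_neg hi, mul_one]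
    have hi' : ¬ (i = j ∨ i = k) := by simpa using hi
    have hchi : chi j k p i = fun _ => (1 : ℝ) := by
      funext f; unfold chi; rw [if_neg hi']
    rw [hchi]
    exact coord ho hC al hal hal0 h B i

theorem swap4 {α β γ δ : Type} (A : Finset α) (B : Finset β) (C : Finset γ) (D : Finset δ)
    (F : α → β → γ → δ → ℝ) : ∑ a ∈ A, ∑ b ∈ B, ∑ c ∈ C, ∑ d ∈ D, F a b c d =
      ∑ c ∈ C, ∑ d ∈ D, ∑ a ∈ A, ∑ b ∈ B, F a b c d :=
  calc ∑ a ∈ A, ∑ b ∈ B, ∑ c ∈ C, ∑ d ∈ D, F a b c d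
      = ∑ a ∈ A, ∑ c ∈ C, ∑ b ∈ B, ∑ d ∈ D, F a b c d := sum_congr rfl fun _ _ => sum_comm
    _ = ∑ c ∈ C, ∑ a ∈ A, ∑ b ∈ B, ∑ d ∈ D, F a b c d := sum_comm
    _ = ∑ c ∈ C, ∑ a ∈ A, ∑ d ∈ D, ∑ b ∈ B, F a b c d :=
        sum_congr rfl fun _ _ => sum_congr rfl fun _ _ => sum_comm
    _ = ∑ c ∈ C, ∑ d ∈ D, ∑ a ∈ A, ∑ b ∈ B, F a b c d := sum_congr rfl fun _ _ => sum_comm

theorem tre : StmtTRE := by
  intro ι _ _ z X K o δ C T al BB hz ho hδ hC hT hBB hBK hal hal0 h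
  set L : ℝ := o * (3 * C ^ 2 * ∑ e ∈ SS z (X ^ 2), (3 : ℝ) ^ e.primeFactors.card / e) with hL
  have hL0 : 0 ≤ L := by rw [hL]; positivity
  set PP := (Ioc z (X ^ 2)).filter Nat.Prime with hPP
  set BS : (ι → ℕ) × (ι → ℕ) → Finset ι :=
    fun q => univ.filter (fun i => q.1 i ≠ 0 ∨ q.2 i ≠ 0) with hBS
  set S : (ι → ℕ) × (ι → ℕ) → ℝ := fun q => (∏ i, (al i (q.1 i) * al i (q.2 i))) *
    ∑ d ∈ Fintype.piFinset (fun i => DL (q.1 i)), ∑ e ∈ Fintype.piFinset (fun i => DL (q.2 i)),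
      (∏ i, (|kap (d i)| * |kap (e i)| * dd o (LL (d i) (e i)))) *
        (δ + nc (fun i => LL (d i) (e i))) with hS
  have hstep : ∀ q ∈ T ×ˢ T, S q ≤ δ * ∏ i, Hf (al i) o (fun _ => 1) (q.1 i, q.2 i) +
      ∑ jk ∈ (BS q).offDiag, ∑ p ∈ PP, ∏ i, Hf (al i) o (chi jk.1 jk.2 p i) (q.1 i, q.2 i) := by
    rintro ⟨r, s⟩ hq
    rw [mem_product] at hq
    simp only at hq
    have hU : ∀ i, r i ∈ insert 0 (SS z X) ∧ s i ∈ insert 0 (SS z X) := fun i =>
      ⟨mem_insert.mpr (hT r hq.1 i), mem_insert.mpr (hT s hq.2 i)⟩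
    have h1 : S (r, s) ≤ (∏ i, (al i (r i) * al i (s i))) *
      ∑ d ∈ Fintype.piFinset (fun i => DL (r i)), ∑ e ∈ Fintype.piFinset (fun i => DL (s i)),
      (∏ i, (|kap (d i)| * |kap (e i)| * dd o (LL (d i) (e i)))) *
        (δ * (∏ i, (fun (_ : ι) (_ : ℕ) => (1 : ℝ)) i (LL (d i) (e i))) +
          ∑ jk ∈ (BS (r, s)).offDiag, ∑ p ∈ PP, ∏ i, chi jk.1 jk.2 p i (LL (d i) (e i))) := by
      simp only [hS]
      refine mul_le_mul_of_nonneg_left ?_ (prod_nonneg fun i _ => mul_nonneg (hal _ _) (hal _ _))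
      refine sum_le_sum fun d hd => sum_le_sum fun e he => ?_
      rw [Fintype.mem_piFinset] at hd he
      refine mul_le_mul_of_nonneg_left ?_ (prod_nonneg fun i _ =>
        mul_nonneg (mul_nonneg (abs_nonneg _) (abs_nonneg _)) (dd_nonneg ho _))
      have hne : ∀ i, LL (d i) (e i) ≠ 0 → d i ≠ 0 ∨ e i ≠ 0 := by
        intro i hi
        by_contra hcon
        push Not at hcon
        apply hi
        simp [LL, hcon.1, hcon.2]
      have h2 := nc_le (z := z) (X := X) (BS (r, s)) (fun i => LL (d i) (e i)) (by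
        intro i hi
        have h3 := DL_mem (hU i).1 (hd i)
        have h4 := DL_mem (hU i).2 (he i)
        rw [hBS]
        simp only [mem_filter, mem_univ, true_and]
        rcases hne i hi with h5 | h5
        · left; rwa [Ne, ← h3.2]
        · right; rwa [Ne, ← h4.2]) (by
        intro i hi
        exact LL_mem (DL_mem (hU i).1 (hd i)).1 (DL_mem (hU i).2 (he i)).1 (hne i hi))
      simp only [prod_const_one, mul_one]
      linarith
    refine h1.trans (le_of_eq ?_)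
    simp only [mul_add, sum_add_distrib]
    congr 1
    · rw [← expand al o (fun _ _ => 1) r s]
      simp only [mul_sum]
      refine sum_congr rfl fun d _ => sum_congr rfl fun e _ => by ring
    · have h2 : ∀ jk : ι × ι, ∀ p : ℕ, ∏ i, Hf (al i) o (chi jk.1 jk.2 p i) (r i, s i) =
        (∏ i, (al i (r i) * al i (s i))) *
      ∑ d ∈ Fintype.piFinset (fun i => DL (r i)), ∑ e ∈ Fintype.piFinset (fun i => DL (s i)),
        (∏ i, (|kap (d i)| * |kap (e i)| * dd o (LL (d i) (e i)))) *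
          ∏ i, chi jk.1 jk.2 p i (LL (d i) (e i)) := fun jk p =>
        (expand al o (fun i => chi jk.1 jk.2 p i) r s).symm
      simp only [h2]
      simp only [← mul_sum]
      congr 1
      simp only [mul_sum]
      exact swap4 _ _ _ _ _
  have hsum : ∑ r ∈ T, ∑ s ∈ T, S (r, s) = ∑ B ∈ BB, ∑ q ∈ (T ×ˢ T).filter (fun q => BS q = B), S q := by
    rw [← sum_product' (f := fun r s => S (r, s))]
    exact (sum_fiberwise_of_maps_to (fun q hq => by
      rw [mem_product] at hq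
      exact hBB _ hq.1 _ hq.2) _).symm
  have hgoal : ∑ r ∈ T, ∑ s ∈ T, S (r, s) ≤ (δ + 9 * K ^ 2 / z) * ∑ B ∈ BB, L ^ B.card := by
    rw [hsum, mul_sum]
    refine sum_le_sum fun B hB => ?_
    have h1 : ∑ q ∈ (T ×ˢ T).filter (fun q => BS q = B), S q ≤
        ∑ q ∈ (T ×ˢ T).filter (fun q => BS q = B),
          (δ * ∏ i, Hf (al i) o (fun _ => 1) (q.1 i, q.2 i) +
            ∑ jk ∈ B.offDiag, ∑ p ∈ PP, ∏ i, Hf (al i) o (chi jk.1 jk.2 p i) (q.1 i, q.2 i)) := by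
      refine sum_le_sum fun q hq => ?_
      rw [mem_filter] at hq
      have := hstep q hq.1
      rwa [hq.2] at this
    refine h1.trans ?_
    rw [sum_add_distrib, ← mul_sum]
    have h2 : ∑ q ∈ (T ×ˢ T).filter (fun q => BS q = B),
        ∏ i, Hf (al i) o (fun _ => 1) (q.1 i, q.2 i) ≤ L ^ B.card := by
      refine (fixedB (z := z) (X := X) ho T al hal hT B (fun _ _ => 1)
        (fun _ _ => zero_le_one)).trans ?_
      rw [← prod_ite_card B L]
      exact prod_le_prod (fun i _ => sum_nonneg fun q _ =>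
        Hf_nonneg (hal i) ho (fun _ => zero_le_one) q)
        (fun i _ => coord ho hC al hal hal0 h B i)
    have h3 : ∑ q ∈ (T ×ˢ T).filter (fun q => BS q = B), ∑ jk ∈ B.offDiag, ∑ p ∈ PP,
        ∏ i, Hf (al i) o (chi jk.1 jk.2 p i) (q.1 i, q.2 i) ≤
        ∑ jk ∈ B.offDiag, ∑ p ∈ PP, L ^ B.card * (9 / (p : ℝ) ^ 2) := by
      rw [sum_comm]
      refine sum_le_sum fun jk hjk => ?_
      rw [sum_comm]
      refine sum_le_sum fun p hp => ?_
      rw [mem_offDiag] at hjk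
      have hpp : p.Prime := (mem_filter.mp hp).2
      refine (fixedB (z := z) (X := X) ho T al hal hT B (fun i => chi jk.1 jk.2 p i)
        (fun i n => chi_nonneg _ _ _ _ _)).trans ?_
      have h4 : L ^ B.card * (9 / (p : ℝ) ^ 2) = ∏ i, ((if i ∈ B then L else 1) *
          (if i ∈ ({jk.1, jk.2} : Finset ι) then 3 / (p : ℝ) else 1)) := by
        rw [prod_mul_distrib, prod_ite_card, prod_ite_card, card_pair hjk.2.2]
        ring
      rw [h4]
      exact prod_le_prod (fun i _ => sum_nonneg fun q _ =>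
        Hf_nonneg (hal i) ho (fun _ => chi_nonneg _ _ _ _ _) q)
        (fun i _ => coord_p ho hC al hal hal0 h B jk.1 jk.2 hjk.1 hjk.2.1 hpp i)
    have h5 : ∑ jk ∈ B.offDiag, ∑ p ∈ PP, L ^ B.card * (9 / (p : ℝ) ^ 2) ≤
        (9 * K ^ 2 / z) * L ^ B.card := by
      rw [sum_const, nsmul_eq_mul, ← mul_sum]
      have h6 := sum_inv_sq (z := z) (M := X ^ 2) (by omega)
      have h7 : (B.offDiag.card : ℝ) ≤ (K : ℝ) ^ 2 := by
        have h8 : B.offDiag.card ≤ K ^ 2 := by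
          rw [offDiag_card]
          have := hBK B hB
          calc B.card * B.card - B.card ≤ B.card * B.card := Nat.sub_le _ _
            _ ≤ K * K := Nat.mul_le_mul this this
            _ = K ^ 2 := by ring
        exact_mod_cast h8
      have h9 : 0 ≤ L ^ B.card := pow_nonneg hL0 _
      calc (B.offDiag.card : ℝ) * (L ^ B.card * ∑ p ∈ PP, 9 / (p : ℝ) ^ 2)
          ≤ (K : ℝ) ^ 2 * (L ^ B.card * (9 / z)) := by
            refine mul_le_mul h7 (mul_le_mul_of_nonneg_left h6 h9) ?_ (by positivity)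
            exact mul_nonneg h9 (sum_nonneg fun _ _ => by positivity)
        _ = _ := by ring
    have h10 := mul_le_mul_of_nonneg_left h2 hδ
    calc _ ≤ δ * L ^ B.card + (9 * K ^ 2 / z) * L ^ B.card := add_le_add h10 (h3.trans h5)
      _ = _ := by ring
  exact hgoal

end Pool.Agent.Helper42.PP
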